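import Pool.Agent.LibGS7.Defs2

/-!
[GS7 A1] Pure algebra. Let `R_j z = n z - P_j z`, `R = R_3 ∘ R_2 ∘ R_1` (AddMonoidHoms). (1) `R` kills `E none (some Q) (some R)` (`p1`),
`E (some Q) none (some R)` (`R_1` gives a combination of `E (some Q') none (some R)` by `q1`, and `R_2` kills these by `p2`) and
`E (some Q) (some R) none` (`q1`, `q2`, `p3`). (2) `R (GA E e) = n ^ 3 • GA E e` (`z1`, `z2`, `z3`). (3) With `m = ∑ a_i`: `S (GD E s a Q) =
(m ^ 2 * n) • (E none none none - E none none (some e) - E none (some e) none - E (some e) none none) + (terms killed by R)`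
(`s0`, `s1`, `s2`, `s3`; `s12`, `s13`, `s23`), so `R (S (GD E s a Q)) = (m ^ 2 * n) • R (GA E e) = (m ^ 2 * n ^ 4) • GA E e` by (1), (2).
(4) The image of an element of finite order has finite order (`AddMonoidHom.isOfFinAddOrder`), `isOfFinAddOrder_iff_zsmul_eq_zero`;
`m ^ 2 * n ^ 4 ≠ 0`.
-/

open scoped Classical
open Polynomial

namespace Pool.Agent.LibGS7

open Pool.Agent.LibBH2
open Pool.Agent.LibCHd (VR RF Red FunF)
open Pool.Agent.LibCW77

variable {k : Type} [Field k]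

theorem abs_main {G Pt : Type} [AddCommGroup G] {n : ℕ} {E : Option Pt → Option Pt → Option Pt → G} {e : Pt}
    {t : ℕ → Pt → Pt} {S P1 P2 P3 : G →+ G} (h : Abs n E e t S P1 P2 P3) {ι : Type} (s : Finset ι) (a : ι → ℤ)
    (Q : ι → Pt) (hm : ∑ i ∈ s, a i ≠ 0) (ht : IsOfFinAddOrder (GD E s a Q)) : IsOfFinAddOrder (GA E e) := by
  obtain ⟨R1, hR1⟩ : ∃ R1 : G →+ G, ∀ z, R1 z = n • z - P1 z :=
    ⟨n • AddMonoidHom.id G - P1, fun z => rfl⟩
  obtain ⟨R2, hR2⟩ : ∃ R2 : G →+ G, ∀ z, R2 z = n • z - P2 z :=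
    ⟨n • AddMonoidHom.id G - P2, fun z => rfl⟩
  obtain ⟨R3, hR3⟩ : ∃ R3 : G →+ G, ∀ z, R3 z = n • z - P3 z :=
    ⟨n • AddMonoidHom.id G - P3, fun z => rfl⟩
  -- the terms with one generic point
  have k1 : ∀ Q R, R3 (R2 (R1 (E none (some Q) (some R)))) = 0 := by
    intro Q R
    rw [hR1, h.p1, sub_self, map_zero, map_zero]
  have k2' : ∀ Q R, R2 (E (some Q) none (some R)) = 0 := by
    intro Q R
    rw [hR2, h.p2, sub_self]
  have k2 : ∀ Q R, R3 (R2 (R1 (E (some Q) none (some R)))) = 0 := by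
    intro Q R
    rw [hR1, h.q1]
    simp only [map_sub, map_nsmul, map_sum, k2', smul_zero, Finset.sum_const_zero, sub_zero, map_zero]
  have k3'' : ∀ Q R, R3 (E (some Q) (some R) none) = 0 := by
    intro Q R
    rw [hR3, h.p3, sub_self]
  have k3' : ∀ Q R, R3 (R2 (E (some Q) (some R) none)) = 0 := by
    intro Q R
    rw [hR2, h.q2]
    simp only [map_sub, map_nsmul, map_sum, k3'', smul_zero, Finset.sum_const_zero, sub_zero]
  have k3 : ∀ Q R, R3 (R2 (R1 (E (some Q) (some R) none))) = 0 := by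
    intro Q R
    rw [hR1, h.q1]
    simp only [map_sub, map_nsmul, map_sum, k3', smul_zero, Finset.sum_const_zero, sub_zero]
  -- the cycle itself
  have kG : R3 (R2 (R1 (GA E e))) = n • n • n • GA E e := by
    rw [hR1, h.z1, sub_zero, map_nsmul, hR2, h.z2, sub_zero, map_nsmul, map_nsmul, hR3, h.z3, sub_zero]
  have kG' : R3 (R2 (R1 (GA E e))) = R3 (R2 (R1 (E none none none))) - R3 (R2 (R1 (E none none (some e)))) -
      R3 (R2 (R1 (E none (some e) none))) - R3 (R2 (R1 (E (some e) none none))) := by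
    unfold GA
    simp only [map_add, map_sub, k1, k2, k3, add_zero]
  obtain ⟨m, hmdef⟩ : ∃ m, m = ∑ i ∈ s, a i := ⟨_, rfl⟩
  have kD : R3 (R2 (R1 (S (GD E s a Q)))) = (m ^ 2 * n ^ 4 : ℤ) • GA E e := by
    have h1 : R3 (R2 (R1 (S (GD E s a Q)))) = m ^ 2 • n • R3 (R2 (R1 (GA E e))) := by
      rw [kG']
      unfold GD
      simp only [map_add, map_sub, map_zsmul, map_sum, h.s0, h.s1, h.s2, h.s3, h.s12, h.s13, h.s23, k1, k2, k3,
        map_nsmul, Finset.sum_const_zero, add_zero, smul_zero, ← Finset.sum_smul, ← hmdef]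
      module
    rw [h1, kG]
    simp only [← natCast_zsmul, smul_smul]
    congr 1
    ring
  have hfin : IsOfFinAddOrder ((m ^ 2 * n ^ 4 : ℤ) • GA E e) := by
    rw [← kD]
    exact AddMonoidHom.isOfFinAddOrder R3 (AddMonoidHom.isOfFinAddOrder R2
      (AddMonoidHom.isOfFinAddOrder R1 (AddMonoidHom.isOfFinAddOrder S ht)))
  rw [isOfFinAddOrder_iff_zsmul_eq_zero] at hfin ⊢
  obtain ⟨N, hN, hN2⟩ := hfin
  refine ⟨N * (m ^ 2 * n ^ 4), ?_, ?_⟩
  · have hm' : m ≠ 0 := by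
      rw [hmdef]
      exact hm
    have hn : (n : ℤ) ≠ 0 := by exact_mod_cast h.n0
    exact mul_ne_zero hN (mul_ne_zero (pow_ne_zero 2 hm') (pow_ne_zero 4 hn))
  · rw [mul_smul]
    exact hN2

end Pool.Agent.LibGS7
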