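import Pool.Agent.LibGS7.Defs2
import Pool.Agent.LibCW77.C1
import Pool.Agent.LibCW77.D4

/-!
[GS7 C1] Translations of constant points and of the generic point. `tau_ctp`: `funext`, `fin_cases`, `Option.map` (see
`B10_ctp_tau` in LibCW77/B10.lean). `tq`: `(w v) ^ n = v ^ n` (cases on `Q 0`, `Q 1` as in `on_tw` of LibCW77/D4.lean, `c.over k` not needed).
`gcls`: `autC` (LibCW77/C1) gives `ε : N ≃ₐ[k] N` with `ε x = x`, `ε v = algebraMap k N w * v`; the left side is
`cls c 1 (mpP ε (tri ...))` (`ε` fixes constant points: `AlgEquiv.commutes`), `cls_map` with `fieldRange = ⊤`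
(see `GS3_cls` in LibCW77/GS3.lean), `IntermediateField.finrank_top`. `tw_tri`: `funext`, `fin_cases`. `tau_one`: `one_mul`, `Option.map_id`.
-/

open scoped Classical
open Polynomial

namespace Pool.Agent.LibGS7

open Pool.Agent.LibBH2
open Pool.Agent.LibCHd (VR RF Red FunF)
open Pool.Agent.LibCW77

variable {k : Type} [Field k]

theorem tau_ctp (w : k) (N : Type) [Field N] [Algebra k N] (Q : Fin 2 → Option k) :
    tau w (ctp N Q) = ctp N (tau w Q) := by
  funext i
  fin_cases i
  · rfl
  · show (ctp N Q 1).map (fun v => algebraMap k N w * v) =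
      ((Q 1).map fun v => algebraMap k k w * v).map (algebraMap k N)
    show ((Q 1).map (algebraMap k N)).map (fun v => algebraMap k N w * v) = _
    cases Q 1 with
    | none => rfl
    | some v =>
      show some (algebraMap k N w * algebraMap k N v) = some (algebraMap k N (w * v))
      rw [map_mul]

theorem tau_one {N : Type} [Field N] [Algebra k N] (P : Fin 2 → Option N) : tau (1 : k) P = P := by
  funext i
  fin_cases i
  · rfl
  · show (P 1).map (fun v => algebraMap k N 1 * v) = P 1
    cases P 1 with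
    | none => rfl
    | some v =>
      show some (algebraMap k N 1 * v) = some v
      rw [map_one, one_mul]

theorem onC_tau {c : Dat k} {w : k} (hw : w ^ c.n = 1) {Q : Fin 2 → Option k} (hQ : OnC c (Q 0) (Q 1)) :
    OnC c (tau w Q 0) (tau w Q 1) := by
  show OnC c (Q 0) ((Q 1).map fun v => algebraMap k k w * v)
  revert hQ
  rcases Q 0 with _ | x <;> rcases Q 1 with _ | v <;> intro h
  · exact h
  · change v ^ c.n = 1 at h
    change (w * v) ^ c.n = 1
    rw [mul_pow, hw, h, one_mul]
  · exact h
  · change v ^ c.n * ∏ i, (x - c.b i) = ∏ i, (x - c.a i) at h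
    change (w * v) ^ c.n * ∏ i, (x - c.b i) = ∏ i, (x - c.a i)
    rw [mul_pow, hw, one_mul, h]

/-- `τ` on the constant points -/
noncomputable def tq {c : Dat k} (w : k) (hw : w ^ c.n = 1) (Q : CPt c) : CPt c := ⟨tau w Q.1, onC_tau hw Q.2⟩

theorem ctp_onC {c : Dat k} (N : Type) [Field N] [Algebra k N] {Q : Fin 2 → Option k} (hQ : OnC c (Q 0) (Q 1)) :
    OnC (c.over N) (ctp N Q 0) (ctp N Q 1) := by
  change OnC (c.over N) ((Q 0).map (algebraMap k N)) ((Q 1).map (algebraMap k N))
  revert hQ
  rcases Q 0 with _ | x <;> rcases Q 1 with _ | v <;> intro h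
  · exact h
  · change v ^ c.n = 1 at h
    change (algebraMap k N v) ^ c.n = 1
    rw [← map_pow, h, map_one]
  · obtain ⟨i, hi⟩ := h
    exact ⟨i, by rw [hi]; rfl⟩
  · change v ^ c.n * ∏ i, (x - c.b i) = ∏ i, (x - c.a i) at h
    change (algebraMap k N v) ^ c.n * ∏ i, (algebraMap k N x - algebraMap k N (c.b i)) =
      ∏ i, (algebraMap k N x - algebraMap k N (c.a i))
    have := congrArg (algebraMap k N) h
    simpa only [map_mul, map_pow, map_prod, map_sub] using this

private theorem C1_pp_on {c : Dat k} {N : Type} [Field N] [Algebra k N] {x v : N} (h : GenC c x v)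
    (o : Option (CPt c)) : OnC (c.over N) (pp x v o 0) (pp x v o 1) := by
  cases o with
  | none => exact h.on
  | some Q => exact ctp_onC N Q.2

theorem pp_on {c : Dat k} {N : Type} [Field N] [Algebra k N] {x v : N} (h : GenC c x v)
    (o₁ o₂ o₃ : Option (CPt c)) : On (c.over N) (tri (pp x v o₁) (pp x v o₂) (pp x v o₃)) := by
  intro j
  fin_cases j
  · exact C1_pp_on h o₁
  · exact C1_pp_on h o₂
  · exact C1_pp_on h o₃

theorem tw_tri (w : Fin 3 → k) {N : Type} [Field N] [Algebra k N] (P Q R : Fin 2 → Option N) :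
    tw w (tri P Q R) = tri (tau (w 0) P) (tau (w 1) Q) (tau (w 2) R) := by
  funext j
  fin_cases j <;> rfl

/-- the translated generic point or a constant point -/
noncomputable def ppt {c : Dat k} {N : Type} [Field N] [Algebra k N] (x v : N) (w : k) :
    Option (CPt c) → Fin 2 → Option N
  | none => tau w ![some x, some v]
  | some Q => ctp N Q.1

private theorem C1_pp_map {c : Dat k} {N : Type} [Field N] [Algebra k N] {x v : N} {w : k}
    {ε : N ≃ₐ[k] N} (hx : ε x = x) (hv : ε v = algebraMap k N w * v) (o : Option (CPt c)) (i : Fin 2) :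
    (pp x v o i).map (ε : N →ₐ[k] N) = ppt x v w o i := by
  cases o with
  | none =>
    fin_cases i
    · show some (ε x) = some x
      rw [hx]
    · show some (ε v) = some (algebraMap k N w * v)
      rw [hv]
  | some Q =>
    show ((Q.1 i).map (algebraMap k N)).map (ε : N →ₐ[k] N) = (Q.1 i).map (algebraMap k N)
    cases Q.1 i with
    | none => rfl
    | some z =>
      show some (ε (algebraMap k N z)) = some (algebraMap k N z)
      rw [AlgEquiv.commutes]

theorem gcls [CharZero k] {c : Dat k} (hc : c.Good) {N : Type} [Field N] [Algebra k N] {x v : N} (h : GenC c x v)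
    {w : k} (hw : w ^ c.n = 1) (o₁ o₂ o₃ : Option (CPt c)) :
    cls c 1 (tri (ppt x v w o₁) (ppt x v w o₂) (ppt x v w o₃)) = EE x v o₁ o₂ o₃ := by
  obtain ⟨ε, hx, hv⟩ := autC hc hw h
  have h1 : tri (ppt x v w o₁) (ppt x v w o₂) (ppt x v w o₃) =
      mpP (ε : N →ₐ[k] N) (tri (pp x v o₁) (pp x v o₂) (pp x v o₃)) := by
    funext j i
    fin_cases j
    · exact (C1_pp_map hx hv o₁ i).symm
    · exact (C1_pp_map hx hv o₂ i).symm
    · exact (C1_pp_map hx hv o₃ i).symm
  rw [h1, cls_map]
  have h2 : (ε : N →ₐ[k] N).fieldRange = ⊤ := AlgHom.fieldRange_eq_top.2 ε.surjective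
  rw [h2, IntermediateField.finrank_top, Nat.cast_one, one_smul]
  rfl

end Pool.Agent.LibGS7
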