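import Pool.Agent.LibGS7.Defs2
import Pool.Agent.LibCW77.GS3

/-!
[GS7 C2a] The place of `N / k`, trivial on `M`, of a constant point `Q`. COPY of the private theorems `GS3_eps`, `GS3_good`, `GS3_over`,
`GS3_sp`, `GS3_place` of `LibCW77/GS3.lean` (the point over `M` is `ctp M Q`; `(ctp M Q i).map ε = (Q i).map (algebraMap k (RF p))` by
`ε.commutes`), with all the orders given by `placeC` (`LibCW77/C1.lean`) for `c.over M`. `c_eps`: `GS3_eps`. In the last clause `ε'` comes
from `GS3_eps` for `p'`.
-/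

open scoped Classical
open Polynomial

namespace Pool.Agent.LibGS7

open Pool.Agent.LibBH2
open Pool.Agent.LibCHd (VR RF Red FunF)
open Pool.Agent.LibCW77

variable {k : Type} [Field k]

section aux

open Pool.Agent.LibCHd

/-- the residue embedding of a field on which the place is trivial -/
private theorem C2a_eps {M N : Type} [Field M] [Algebra k M] [Field N] [Algebra k N] (i : M →ₐ[k] N)
    (v : Place k N) (h : ∀ z, v.ord (i z) = 0) : ∃ ε : M →ₐ[k] RF v, ∀ z, Red v (i z) (ε z) := by
  have hr : ∀ z, v.Reg (i z) := fun z => Or.inr (by rw [h])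
  choose f hf using fun z => exists_red (hr z)
  refine ⟨{ toFun := f
            map_one' := ?_
            map_mul' := ?_
            map_zero' := ?_
            map_add' := ?_
            commutes' := ?_ }, hf⟩
  · exact (hf 1).unique (by rw [map_one]; exact red_one v)
  · intro a b
    exact (hf (a * b)).unique (by rw [map_mul]; exact (hf a).mul (hf b))
  · exact (hf 0).unique (by rw [map_zero]; exact red_zero v)
  · intro a b
    exact (hf (a + b)).unique (by rw [map_add]; exact (hf a).add (hf b))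
  · intro c
    exact (hf _).unique (by rw [AlgHom.commutes]; exact red_const v c)

private theorem C2a_good {c : Dat k} (hc : c.Good) (M : Type) [Field M] [Algebra k M] : (c.over M).Good := by
  refine ⟨hc.two, ?_⟩
  have h : (Sum.elim (c.over M).a (c.over M).b) = fun s => algebraMap k M (Sum.elim c.a c.b s) := by
    funext s
    cases s <;> rfl
  rw [h]
  exact (algebraMap k M).injective.comp hc.inj

/-- places of `N` over `M` and over `k`: specialisations to the points over `M` -/
private theorem C2a_sp {M N : Type} [Field M] [Algebra k M] [Field N] [Algebra k N] [Algebra M N]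
    [IsScalarTower k M N] (v' : Place M N) (v : Place k N) (h : ∀ z, v'.ord z = v.ord z) (ε : M →ₐ[k] RF v)
    (hε : ∀ z, Red v (algebraMap M N z) (ε z)) (f : N) (o : Option M) :
    SpO v' (some f) (o.map (algebraMap M (RF v'))) ↔ SpO v (some f) (o.map ε) := by
  have hz : ∀ f, v'.Zer f ↔ v.Zer f := fun f => by simp only [Place.Zer, h]
  cases o with
  | none =>
    show v'.ord f < 0 ↔ v.ord f < 0
    rw [h]
  | some z =>
    show Red v' f (algebraMap M (RF v') z) ↔ Red v f (ε z)
    rw [red_iff_val, hz, red_iff_sub (hε z)]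

private theorem C2a_map {M R : Type} [Field M] [Algebra k M] [Field R] [Algebra k R] (ε : M →ₐ[k] R)
    (o : Option k) : (o.map (algebraMap k M)).map ε = o.map (algebraMap k R) := by
  cases o with
  | none => rfl
  | some z =>
    show some (ε (algebraMap k M z)) = some (algebraMap k R z)
    rw [ε.commutes]

private theorem C2a_on {c : Dat k} {M : Type} [Field M] [Algebra k M] (Q : Fin 2 → Option k)
    (hQ : OnC c (Q 0) (Q 1)) : OnC (c.over M) (ctp M Q 0) (ctp M Q 1) := by
  show OnC (c.over M) ((Q 0).map (algebraMap k M)) ((Q 1).map (algebraMap k M))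
  generalize Q 0 = P at hQ ⊢
  generalize Q 1 = R at hQ ⊢
  rcases P with _ | x
  · rcases R with _ | v
    · exact hQ.elim
    · show (algebraMap k M v) ^ c.n = 1
      rw [← map_pow, show v ^ c.n = 1 from hQ, map_one]
  · rcases R with _ | v
    · obtain ⟨i, hi⟩ := hQ
      exact ⟨i, by rw [hi]; rfl⟩
    · have h1 : v ^ c.n * ∏ i, (x - c.b i) = ∏ i, (x - c.a i) := hQ
      show (algebraMap k M v) ^ c.n * ∏ i, (algebraMap k M x - algebraMap k M (c.b i)) =
        ∏ i, (algebraMap k M x - algebraMap k M (c.a i))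
      have h2 := congrArg (algebraMap k M) h1
      simpa only [map_mul, map_pow, map_prod, map_sub] using h2

end aux

theorem c_eps {M N : Type} [Field M] [Algebra k M] [Field N] [Algebra k N] [Algebra M N] [IsScalarTower k M N]
    (v : Place k N) (h : ∀ z, v.ord (algebraMap M N z) = 0) :
    ∃ ε : M →ₐ[k] RF v, ∀ z, Red v (algebraMap M N z) (ε z) :=
  C2a_eps (IsScalarTower.toAlgHom k M N) v h

open Pool.Agent.LibCHd in
theorem cplace [CharZero k] {c : Dat k} (hc : c.Good) {ζ : k} (hζ : IsPrimitiveRoot ζ c.n)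
    {M : Type} [Field M] [Algebra k M] {N : Type} [Field N] [Algebra k N] [Algebra M N]
    [IsScalarTower k M N] {y w : N} (h : GenC (c.over M) y w) (Q : Fin 2 → Option k)
    (hQ : OnC c (Q 0) (Q 1)) :
    ∃ (p : Place k N) (ε : M →ₐ[k] RF p), Function.Surjective ε ∧
      (∀ z, Red p (algebraMap M N z) (ε z)) ∧ (∀ z, p.ord (algebraMap M N z) = 0) ∧
      SpO p (some y) ((Q 0).map (algebraMap k (RF p))) ∧ SpO p (some w) ((Q 1).map (algebraMap k (RF p))) ∧
      (∀ x₀ v₀, Q 0 = some x₀ → Q 1 = some v₀ → v₀ ≠ 0 → p.ord (y - algebraMap k N x₀) = 1) ∧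
      (Q 0 = none → p.ord y = -1) ∧
      (∀ i, Q 0 = some (c.a i) → p.ord (y - algebraMap k N (c.a i)) = c.n) ∧
      (∀ i, Q 0 = some (c.b i) → p.ord (y - algebraMap k N (c.b i)) = c.n) ∧
      ∀ (p' : Place k N), (∀ z, p'.ord (algebraMap M N z) = 0) →
        SpO p' (some y) ((Q 0).map (algebraMap k (RF p'))) →
        SpO p' (some w) ((Q 1).map (algebraMap k (RF p'))) → p' = p := by
  have : CharZero M := charZero_of_injective_algebraMap (algebraMap k M).injective
  have hζM : IsPrimitiveRoot (algebraMap k M ζ) (c.over M).n :=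
    hζ.map_of_injective (algebraMap k M).injective
  obtain ⟨w₀, ⟨h1, h2⟩, hs, ho, hinf, ha, hb, hu⟩ := placeC (C2a_good hc M) hζM h (ctp M Q) (C2a_on Q hQ)
  obtain ⟨p, hp⟩ := place_down (k := k) w₀
  have htr : ∀ z, p.ord (algebraMap M N z) = 0 := by
    intro z
    rw [← hp]
    by_cases hz : z = 0
    · rw [hz, map_zero, w₀.ord_zero]
    · exact w₀.ord_const z hz
  obtain ⟨ε, hε'⟩ := c_eps p htr
  have hp' : ∀ z, w₀.ord z = p.ord z := hp
  have e0 : ((ctp M Q 0).map ε) = (Q 0).map (algebraMap k (RF p)) := C2a_map ε (Q 0)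
  have e1 : ((ctp M Q 1).map ε) = (Q 1).map (algebraMap k (RF p)) := C2a_map ε (Q 1)
  refine ⟨p, ε, ?_, hε', htr, ?_, ?_, ?_, ?_, ?_, ?_, ?_⟩
  · intro d
    obtain ⟨f, hf⟩ := exists_rep d
    have hr : w₀.Reg f := by
      rcases hf.reg with h0 | h0
      · exact Or.inl h0
      · exact Or.inr (by rw [hp']; exact h0)
    obtain ⟨d', hd'⟩ := exists_red hr
    obtain ⟨z, hz⟩ := hs d'
    refine ⟨z, ?_⟩
    rw [← hz] at hd'
    have h3 := (C2a_sp w₀ p hp' ε hε' f (some z)).1 hd'
    exact Red.unique h3 hf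
  · rw [← e0]; exact (C2a_sp w₀ p hp' ε hε' _ _).1 h1
  · rw [← e1]; exact (C2a_sp w₀ p hp' ε hε' _ _).1 h2
  · intro x₀ v₀ h3 h4 h5
    rw [← hp, IsScalarTower.algebraMap_apply k M N]
    refine ho _ (algebraMap k M v₀) ?_ ?_ ?_
    · show (Q 0).map (algebraMap k M) = _
      rw [h3]; rfl
    · show (Q 1).map (algebraMap k M) = _
      rw [h4]; rfl
    · exact (map_ne_zero_iff _ (algebraMap k M).injective).2 h5
  · intro h3
    rw [← hp]
    refine hinf ?_
    show (Q 0).map (algebraMap k M) = _
    rw [h3]; rfl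
  · intro i h3
    rw [← hp, IsScalarTower.algebraMap_apply k M N]
    refine (ha i ?_).1
    show (Q 0).map (algebraMap k M) = _
    rw [h3]; rfl
  · intro i h3
    rw [← hp, IsScalarTower.algebraMap_apply k M N]
    refine (hb i ?_).1
    show (Q 0).map (algebraMap k M) = _
    rw [h3]; rfl
  · intro p' h3 h5 h6
    obtain ⟨ε', h4⟩ := c_eps p' h3
    obtain ⟨v', hv'⟩ := place_up (M := M) p' h3
    rw [← C2a_map ε' (Q 0)] at h5
    rw [← C2a_map ε' (Q 1)] at h6
    have h7 := hu v' ((C2a_sp v' p' hv' ε' h4 _ _).2 h5) ((C2a_sp v' p' hv' ε' h4 _ _).2 h6)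
    apply Place.ext'
    intro z
    rw [← hv', h7, hp]

end Pool.Agent.LibGS7
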