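import Pool.Agent.LibGS7.Defs2
import Pool.Agent.LibCW77.GS3

/-!
[GS7 C2b] The relation given by a function `g` of the second point `(y, w)`. `N` is the function field of `C × C`, `M = k(x, v)`. Take
`u = pat c α ![some y, some w] ![some x, some v]` over `N` and `div_rel c m 1 hN u ... g` with `S = s.image p` (`Finset.sum_image`, `hinj`).
`u` is a point of `C ^ m`: see `hon` in the proof of `diag_rel` (LibCW77/GS3.lean). Specialisation of `u` at `p i`:
`mpP (ε i) (pat c α (ctp M (Q i)) ![some x, some v])` (COPY `GS3_mpP`, `GS3_spP`, `GS3_cls`; `(ctp M (Q i) l).map (ε i) =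
(Q i l).map (algebraMap k _)`), so its class is `cls c 1 (pat c α (ctp M (Q i)) ![some x, some v])`; `FunF k 1 (RF (p i))`: `GS3_congr`.
Places `P ∉ S` with `P.ord g ≠ 0`, `FunF k 1 (RF P)`: `cyc k (q P) = 0` by `cyc_alg`, as in `hother` of `diag_rel`: if a coordinate
`u j i` specialises to a transcendental `x₀`: `α j = 1`: `P` is trivial on `M` (COPY `GS3_triv`, `FunF k 1 M`), so `hall` gives `P ∈ S`;
`α j = 0`: `P` is trivial on `M' = k(y, w)` (COPY `GS3_sym`; `FunF k 1 M'` from `genC_funF`), and `g ∈ M'`, `g ≠ 0`, so `P.ord g = 0`,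
contradiction; `α j = 2`: constants (`e0`).
-/

open scoped Classical
open Polynomial

namespace Pool.Agent.LibGS7

open Pool.Agent.LibBH2
open Pool.Agent.LibCHd (VR RF Red FunF)
open Pool.Agent.LibCW77

variable {k : Type} [Field k]

section C2b

open Pool.Agent.LibCHd

private theorem C2b_red_aeval {N : Type} [Field N] [Algebra k N] {v : Place k N} {t : N} {t₀ : RF v}
    (h : Red v t t₀) (p : k[X]) : Red v (aeval t p) (aeval t₀ p) := by
  induction p using Polynomial.induction_on' with
  | add p q hp hq => rw [map_add, map_add]; exact hp.add hq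
  | monomial n a =>
    rw [aeval_monomial, aeval_monomial]
    exact (red_const v a).mul (h.pow n)

private theorem C2b_triv {M N : Type} [Field M] [Algebra k M] [Field N] [Algebra k N] (hM : FunF k 1 M)
    (i : M →ₐ[k] N) (v : Place k N) (t : M) {t₀ : RF v} (ht : Red v (i t) t₀) (htr : Transcendental k t₀) :
    ∀ z, v.ord (i z) = 0 := by
  intro z
  refine ord_triv_of_indep (ι := PUnit) (by rw [hM.trdeg]; simp) i v (fun _ => t) (fun F hF => ?_) z
  have e : MvPolynomial.aeval (fun _ : PUnit => t) F =
      Polynomial.aeval t (MvPolynomial.uniqueAlgEquiv k PUnit F) := by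
    have : (MvPolynomial.aeval (fun _ : PUnit => t) : MvPolynomial PUnit k →ₐ[k] M) =
        (Polynomial.aeval t).comp (MvPolynomial.uniqueAlgEquiv k PUnit).toAlgHom := by
      apply MvPolynomial.algHom_ext
      intro i
      simp
    rw [this]; rfl
  have hG : MvPolynomial.uniqueAlgEquiv k PUnit F ≠ 0 :=
    (map_ne_zero_iff _ (MvPolynomial.uniqueAlgEquiv k PUnit).injective).2 hF
  rw [e, ← Polynomial.aeval_algHom_apply]
  have h1 := C2b_red_aeval ht (MvPolynomial.uniqueAlgEquiv k PUnit F)
  have h2 : aeval t₀ (MvPolynomial.uniqueAlgEquiv k PUnit F) ≠ 0 := fun h0 =>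
    htr ⟨_, hG, h0⟩
  exact ⟨h1.ord_eq_zero h2, h1.ne_zero h2⟩

private theorem C2b_over {c : Dat k} {M N : Type} [Field M] [Algebra k M] [Field N] [Algebra k N] [Algebra M N]
    [IsScalarTower k M N] : (c.over M).over N = c.over N := by
  simp only [Dat.over, Dat.map, ← IsScalarTower.algebraMap_apply]

private theorem C2b_mpP (c : Dat k) {M M' : Type} [Field M] [Algebra k M] [Field M'] [Algebra k M']
    (σ : M →ₐ[k] M') {m : ℕ} (α : Fin m → Fin 3) (A B : Fin 2 → Option M) :
    mpP σ (pat c α A B) = pat c α (fun i => (A i).map σ) (fun i => (B i).map σ) := by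
  funext j i
  unfold mpP pat
  generalize α j = a
  fin_cases a
  · rfl
  · rfl
  · fin_cases i
    · show (some (algebraMap k M (c.a 0))).map σ = some (algebraMap k M' (c.a 0))
      rw [Option.map_some, AlgHom.commutes]
    · show (some (0 : M)).map σ = some 0
      rw [Option.map_some, map_zero]

private theorem C2b_spP (c : Dat k) {N : Type} [Field N] [Algebra k N] (p : Place k N)
    {m : ℕ} (α : Fin m → Fin 3) {A B : Fin 2 → Option N} {A' B' : Fin 2 → Option (RF p)}
    (hA : ∀ i, SpO p (A i) (A' i)) (hB : ∀ i, SpO p (B i) (B' i)) :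
    SpP p (pat c α A B) (pat c α A' B') := by
  intro j i
  unfold pat
  generalize α j = a
  fin_cases a
  · exact hA i
  · exact hB i
  · fin_cases i
    · exact red_const p (c.a 0)
    · exact red_zero p

private theorem C2b_cls (c : Dat k) {M M' : Type} [Field M] [Algebra k M] [Field M'] [Algebra k M']
    (σ : M →ₐ[k] M') (hσ : Function.Surjective σ) {m : ℕ} (u : Pnt m M) :
    cls c 1 (mpP σ u) = cls c 1 u := by
  rw [cls_map]
  have h1 : σ.fieldRange = ⊤ := AlgHom.fieldRange_eq_top.2 hσ
  rw [h1, IntermediateField.finrank_top, Nat.cast_one, one_smul]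

private theorem C2b_congr {M N : Type} [Field M] [Algebra k M] [Field N] [Algebra k N] (hM : FunF k 1 M)
    (ε : M →ₐ[k] N) (hε : Function.Surjective ε) : FunF k 1 N :=
  FunF.congr (AlgEquiv.ofBijective ε ⟨ε.toRingHom.injective, hε⟩) hM

end C2b

theorem crel [IsAlgClosed k] [CharZero k] {c : Dat k} (hc : c.Good) {M : Type} [Field M] [Algebra k M] {x v : M}
    (h : GenC c x v) {N : Type} [Field N] [Algebra k N] [Algebra M N] [IsScalarTower k M N] {y w : N}
    (h' : GenC (c.over M) y w) (hN : FunF k 2 N) {m : ℕ} (α : Fin m → Fin 3) (g : N) (hg0 : g ≠ 0)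
    (hg : g ∈ IntermediateField.adjoin k {y, w}) {ι : Type} (s : Finset ι) (p : ι → Place k N)
    (hinj : Set.InjOn p s) (Q : ι → Fin 2 → Option k) (ε : ∀ i, M →ₐ[k] RF (p i))
    (hs : ∀ i, Function.Surjective (ε i)) (hr : ∀ i z, Red (p i) (algebraMap M N z) (ε i z))
    (hy : ∀ i, SpO (p i) (some y) ((Q i 0).map (algebraMap k (RF (p i)))))
    (hw : ∀ i, SpO (p i) (some w) ((Q i 1).map (algebraMap k (RF (p i)))))
    (hall : ∀ P : Place k N, (∀ z, P.ord (algebraMap M N z) = 0) → P.ord g ≠ 0 → ∃ i ∈ s, P = p i) :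
    ∑ i ∈ s, (p i).ord g • cls c 1 (pat c α (ctp M (Q i)) ![some x, some v]) = 0 := by
  have hn : 0 < c.n := by have := hc.two; omega
  obtain ⟨hFM, hv0⟩ := genC_funF hc h
  obtain ⟨h1', h2'⟩ := surf_sym hc h h'
  have hFM' := (genC_funF hc h2').1
  have he0 : ∀ (M : Type) [Field M] [Algebra k M], OnC (c.over M) (e0 c M 0) (e0 c M 1) := by
    intro M _ _
    show (0 : M) ^ c.n * ∏ i, (algebraMap k M (c.a 0) - (c.over M).b i) =
      ∏ i, (algebraMap k M (c.a 0) - (c.over M).a i)
    rw [zero_pow hn.ne', zero_mul]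
    exact (Finset.prod_eq_zero (Finset.mem_univ 0) (sub_self _)).symm
  -- the point
  obtain ⟨u, hu⟩ : ∃ u : Pnt m N, u = pat c α ![some y, some w]
      ![some (algebraMap M N x), some (algebraMap M N v)] := ⟨_, rfl⟩
  have hon : On (c.over N) u := by
    have hA : OnC (c.over N) (some y) (some w) := by
      have h1 := h'.on
      rwa [C2b_over] at h1
    have hB : OnC (c.over N) (some (algebraMap M N x)) (some (algebraMap M N v)) :=
      (on_map (c := c) (IsScalarTower.toAlgHom k M N) (u := fun _ : Fin 1 => ![some x, some v])).2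
        (fun _ => h.on) 0
    intro j
    rw [hu]
    unfold pat
    generalize α j = a
    fin_cases a
    · exact hA
    · exact hB
    · exact he0 N
  choose q hq using fun v : Place k N => spP_exists v u
  -- the other places
  have hother : ∀ P, P ∉ Finset.image p s → P.ord g ≠ 0 → FunF k 1 (RF P) → cyc k (q P) = 0 := by
    intro P hPS hPg hPF
    refine cyc_alg (d := 0) hPF _ ?_
    intro j i x₀ hx₀
    by_contra hna
    have cM : (∀ z, P.ord (algebraMap M N z) = 0) → False := by
      intro hz
      obtain ⟨i, hi, hPi⟩ := hall P hz hPg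
      exact hPS (Finset.mem_image.2 ⟨i, hi, hPi.symm⟩)
    have cM' : (∀ z : (IntermediateField.adjoin k {y, w} : IntermediateField k N),
        P.ord (algebraMap _ N z) = 0) → False := by
      intro hz
      exact hPg (hz ⟨g, hg⟩)
    have h3 : SpO P (u j i) (some x₀) := by
      rw [← hx₀]; exact hq P j i
    rw [hu] at h3
    unfold pat at h3
    generalize α j = a at h3
    fin_cases a
    · apply cM'
      fin_cases i
      · exact C2b_triv hFM' (IsScalarTower.toAlgHom k
          (IntermediateField.adjoin k {y, w} : IntermediateField k N) N) P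
          ⟨y, IntermediateField.subset_adjoin k _ (by simp)⟩ h3 hna
      · exact C2b_triv hFM' (IsScalarTower.toAlgHom k
          (IntermediateField.adjoin k {y, w} : IntermediateField k N) N) P
          ⟨w, IntermediateField.subset_adjoin k _ (by simp)⟩ h3 hna
    · apply cM
      fin_cases i
      · exact C2b_triv hFM (IsScalarTower.toAlgHom k M N) P x h3 hna
      · exact C2b_triv hFM (IsScalarTower.toAlgHom k M N) P v h3 hna
    · exfalso
      apply hna
      fin_cases i
      · have h4 : x₀ = algebraMap k (RF P) (c.a 0) :=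
          Pool.Agent.LibCHd.Red.unique h3 (Pool.Agent.LibCHd.red_const P (c.a 0))
        rw [h4]
        exact isAlgebraic_algebraMap _
      · have h4 : x₀ = 0 := Pool.Agent.LibCHd.Red.unique h3 (Pool.Agent.LibCHd.red_zero P)
        rw [h4]
        exact isAlgebraic_zero
  have hFS : ∀ P ∈ Finset.image p s, FunF k 1 (RF P) := by
    intro P hP
    obtain ⟨i, -, rfl⟩ := Finset.mem_image.1 hP
    exact C2b_congr hFM (ε i) (hs i)
  have hrel := div_rel c m 1 hN u hon g hg0 (Finset.image p s) q hq hFS hother
  rw [Finset.sum_image hinj] at hrel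
  -- the values
  have vi : ∀ i, cls c 1 (q (p i)) = cls c 1 (pat c α (ctp M (Q i)) ![some x, some v]) := by
    intro i
    have hct : ∀ l, ((ctp M (Q i)) l).map (ε i) = (Q i l).map (algebraMap k (RF (p i))) := by
      intro l
      unfold ctp
      rw [Option.map_map]
      congr 1
      funext z
      exact (ε i).commutes z
    have h3 : SpP (p i) u (mpP (ε i) (pat c α (ctp M (Q i)) ![some x, some v])) := by
      rw [hu, C2b_mpP]
      apply C2b_spP
      · intro l
        rw [hct]
        fin_cases l
        · exact hy i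
        · exact hw i
      · intro l
        fin_cases l
        · exact hr i x
        · exact hr i v
    rw [spP_unique (hq (p i)) h3]
    exact C2b_cls c (ε i) (hs i) _
  simp only [vi] at hrel
  exact hrel

end Pool.Agent.LibGS7
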