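import Pool.Agent.LibGS7.Defs2
import Pool.Agent.LibCW77.D1

/-!
[GS7 C2d] Points of `C` with the same `x`. `onC_same`: `X = none`: `A = some a`, `B = some b`, `a ^ n = b ^ n = 1`, so `b / a` is an `n`-th
root of unity, a power of `ζ` (`IsPrimitiveRoot.eq_pow_of_pow_eq_one` for `hζ.map_of_injective (algebraMap k K).injective`, `NeZero c.n`).
`X = some x`: if `∏ (x - b_i) = 0` then `x = b_i`, `∏ (x - a_j) ≠ 0` (`hc.inj`), so `A = B = none` (`i = 0`); otherwise `A = some a`, `B = some b`,
`a ^ n = b ^ n`; if `a = 0` then `b = 0` (`i = 0`), otherwise `b / a`. `csp`: the specialisation `q` of `![some y, some w]` at `P`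
(`spP_exists` for `Pnt 1`) is a point of `C` over `RF P` (`on_sp`), `q 0 0 = (Q 0).map _` (`spO_unique`), and `Q` mapped to `RF P` is a point
of `C` (`on_map` of LibCW77/D2 for `Algebra.ofId k (RF P)`, or by cases), so `onC_same` applies with `A = (Q 1).map _`, `B = q 0 1`. See the proof
of `GS3_cases` in LibCW77/GS3.lean for the same arguments.
-/

open scoped Classical
open Polynomial

namespace Pool.Agent.LibGS7

open Pool.Agent.LibBH2
open Pool.Agent.LibCHd (VR RF Red FunF)
open Pool.Agent.LibCW77

variable {k : Type} [Field k]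

theorem onC_same {c : Dat k} (hc : c.Good) {ζ : k} (hζ : IsPrimitiveRoot ζ c.n) {K : Type} [Field K] [Algebra k K]
    {X A B : Option K} (hA : OnC (c.over K) X A) (hB : OnC (c.over K) X B) :
    ∃ i < c.n, B = A.map fun z => algebraMap k K (ζ ^ i) * z := by
  have hn : 0 < c.n := by have := hc.two; omega
  have : NeZero c.n := ⟨hn.ne'⟩
  -- two points with finite `v`
  have key : ∀ a b : K, a ^ c.n = b ^ c.n →
      ∃ i < c.n, some b = (some a).map fun z => algebraMap k K (ζ ^ i) * z := by
    intro a b hab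
    by_cases ha : a = 0
    · subst ha
      rw [zero_pow hn.ne'] at hab
      have hb : b = 0 := eq_zero_of_pow_eq_zero hab.symm
      subst hb
      exact ⟨0, hn, by simp⟩
    · have h6 : (b / a) ^ c.n = 1 := by
        rw [div_pow, ← hab, div_self (pow_ne_zero _ ha)]
      obtain ⟨i, hi, hi'⟩ := (hζ.map_of_injective (algebraMap k K).injective).eq_pow_of_pow_eq_one h6
      refine ⟨i, hi, ?_⟩
      rw [Option.map_some, map_pow, hi', div_mul_cancel₀ _ ha]
  rcases X with _ | x
  · rcases A with _ | a
    · exact absurd hA (by simp [OnC])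
    · rcases B with _ | b
      · exact absurd hB (by simp [OnC])
      · have h1 : a ^ c.n = 1 := hA
        have h2 : b ^ c.n = 1 := hB
        exact key a b (h1.trans h2.symm)
  · have hne : ∀ i j, algebraMap k K (c.b i) ≠ algebraMap k K (c.a j) := by
      intro i j h0
      have h1 := (algebraMap k K).injective h0
      have h2 : Sum.elim c.a c.b (Sum.inl j) = Sum.elim c.a c.b (Sum.inr i) := h1.symm
      exact Sum.inl_ne_inr (hc.inj h2)
    -- a pole has no finite value
    have hpole : ∀ b : K, OnC (c.over K) (some x) (some b) → ∀ i, x ≠ algebraMap k K (c.b i) := by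
      intro b hb i hx
      have h1 : b ^ c.n * ∏ i, (x - (c.over K).b i) = ∏ i, (x - (c.over K).a i) := hb
      rw [Finset.prod_eq_zero (Finset.mem_univ i) (sub_eq_zero.2 hx), mul_zero] at h1
      obtain ⟨j, -, hj⟩ := Finset.prod_eq_zero_iff.1 h1.symm
      exact hne i j (hx.symm.trans (sub_eq_zero.1 hj))
    rcases A with _ | a
    · rcases B with _ | b
      · exact ⟨0, hn, rfl⟩
      · obtain ⟨i, hi⟩ := (show ∃ i, x = (c.over K).b i from hA)
        exact absurd hi (hpole b hB i)
    · rcases B with _ | b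
      · obtain ⟨i, hi⟩ := (show ∃ i, x = (c.over K).b i from hB)
        exact absurd hi (hpole a hA i)
      · have h1 : a ^ c.n * ∏ i, (x - (c.over K).b i) = ∏ i, (x - (c.over K).a i) := hA
        have h2 : b ^ c.n * ∏ i, (x - (c.over K).b i) = ∏ i, (x - (c.over K).a i) := hB
        have h3 : ∏ i, (x - (c.over K).b i) ≠ 0 := by
          rw [Finset.prod_ne_zero_iff]
          intro i _ h0
          exact hpole a hA i (sub_eq_zero.1 h0)
        exact key a b (mul_right_cancel₀ h3 (h1.trans h2.symm))

private theorem C2d_map {c : Dat k} {K : Type} [Field K] [Algebra k K] {X Y : Option k} (h : OnC c X Y) :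
    OnC (c.over K) (X.map (algebraMap k K)) (Y.map (algebraMap k K)) := by
  rcases X with _ | x <;> rcases Y with _ | y
  · exact absurd h (by simp [OnC])
  · have h1 : y ^ c.n = 1 := h
    show (algebraMap k K y) ^ c.n = 1
    rw [← map_pow, h1, map_one]
  · obtain ⟨i, hi⟩ := (show ∃ i, x = c.b i from h)
    exact ⟨i, congrArg (algebraMap k K) hi⟩
  · have h1 : y ^ c.n * ∏ i, (x - c.b i) = ∏ i, (x - c.a i) := h
    have h2 := congrArg (algebraMap k K) h1
    rw [map_mul, map_pow, map_prod, map_prod] at h2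
    simp only [map_sub] at h2
    exact h2

theorem csp {c : Dat k} (hc : c.Good) {ζ : k} (hζ : IsPrimitiveRoot ζ c.n) {N : Type} [Field N] [Algebra k N]
    {y w : N} (hyw : OnC (c.over N) (some y) (some w)) (P : Place k N) {Q : Fin 2 → Option k}
    (hQ : OnC c (Q 0) (Q 1)) (h0 : SpO P (some y) ((Q 0).map (algebraMap k (RF P)))) :
    ∃ i < c.n, SpO P (some w) ((tau (ζ ^ i) Q 1).map (algebraMap k (RF P))) := by
  obtain ⟨q, hq⟩ := spP_exists P (fun _ : Fin 1 => (![some y, some w] : Fin 2 → Option N))
  have hon : On (c.over N) (fun _ : Fin 1 => (![some y, some w] : Fin 2 → Option N)) := fun _ => hyw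
  have hq0 : SpO P (some y) (q 0 0) := hq 0 0
  have hq1 : SpO P (some w) (q 0 1) := hq 0 1
  have hqon : OnC (c.over (RF P)) (q 0 0) (q 0 1) := on_sp hc hon hq 0
  rw [spO_unique hq0 h0] at hqon
  obtain ⟨i, hi, hi'⟩ := onC_same hc hζ (C2d_map (K := RF P) hQ) hqon
  refine ⟨i, hi, ?_⟩
  have h2 : (tau (ζ ^ i) Q 1).map (algebraMap k (RF P)) = q 0 1 := by
    rw [hi']
    show ((Q 1).map fun v => algebraMap k k (ζ ^ i) * v).map (algebraMap k (RF P)) =
      ((Q 1).map (algebraMap k (RF P))).map fun z => algebraMap k (RF P) (ζ ^ i) * z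
    rw [Option.map_map, Option.map_map]
    congr 1
    funext z
    simp
  rw [h2]
  exact hq1

end Pool.Agent.LibGS7
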