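import Pool.Agent.LibGS7.C1
import Pool.Agent.LibGS7.C2a
import Pool.Agent.LibGS7.C2b
import Pool.Agent.LibGS7.C2d

/-!
[GS7 C2f] Unramified finite points. `surf hc h` (LibCW77/C3) gives `N`, `y`, `w`, `h'`, `hN`. `x₀ ≠ a_0` because `v₀ ≠ 0` (equation of the curve: if `x₀ = a_0` then
`v₀ ^ n ∏ (a_0 - b_i) = 0`, `hc.inj`). `g = (y - x₀) / (y - a_0)`. `cplace` for `tau (ζ ^ i) Q = ![some x₀, some (ζ ^ i * v₀)]` (`onC_tau`; order `1` of `y - x₀`) and for
`E = ![some (c.a 0), some 0]` (order `n` of `y - a_0`; a point of `C`: `zero_pow`, `Finset.prod_eq_zero`). `crel` with `ι = Option ℕ`, `s = insertNone (range n)`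
(`Finset.sum_insertNone`), or with `ι = ℕ`, `s = range (n + 1)` (`Finset.sum_range_succ`, the place number `n` is the one of `E`): orders `1` and `- n`, since at the places of
`τ^i Q`: `y - a_0 = (y - x₀) + (x₀ - a_0)` has order `0` (`Place.ord_add_of_lt`, `ord_const`), and conversely. The places are different: the values of `y` (`x₀ ≠ a_0`) or of
`w` (`ζ ^ i v₀`, `IsPrimitiveRoot.pow_inj`) are different (`spO_unique`, injectivity of `algebraMap k (RF P)`). `g ∈ adjoin k {y, w}`. Completeness (`hall`):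
`P.ord g ≠ 0`: if `P.ord (y - a_0) < 0` then `P.ord (y - x₀) = P.ord (y - a_0)`, so `P.ord g = 0`; so both are regular and one has positive order; then `y` specialises
to `x₀` or to `a_0` (`Pool.Agent.LibCHd.red_iff_sub`, `red_const`), `csp` gives `SpO P (some w) ..` for some `tau (ζ ^ i) Q` or for `E`, and the last clause of `cplace`
gives the place. See `diag_rel` in LibCW77/GS3.lean for similar arguments.
-/

open scoped Classical
open Polynomial

namespace Pool.Agent.LibGS7

open Pool.Agent.LibBH2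
open Pool.Agent.LibCHd (VR RF Red FunF)
open Pool.Agent.LibCW77

variable {k : Type} [Field k]

private theorem C2f_over {c : Dat k} {M N : Type} [Field M] [Algebra k M] [Field N] [Algebra k N] [Algebra M N]
    [IsScalarTower k M N] : (c.over M).over N = c.over N := by
  simp only [Dat.over, Dat.map, ← IsScalarTower.algebraMap_apply]

private theorem C2f_ne {c : Dat k} (hc : c.Good) {x₀ v₀ : k} (hQ : OnC c (some x₀) (some v₀)) (hv : v₀ ≠ 0) :
    x₀ ≠ c.a 0 := by
  intro h0
  have h1 : v₀ ^ c.n * ∏ i, (x₀ - c.b i) = ∏ i, (x₀ - c.a i) := hQ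
  rw [h0] at h1
  have h2 : ∏ i, (c.a 0 - c.a i) = 0 := Finset.prod_eq_zero (Finset.mem_univ 0) (sub_self _)
  rw [h2] at h1
  have h3 : ∏ i, (c.a 0 - c.b i) = 0 := (mul_eq_zero.1 h1).resolve_left (pow_ne_zero _ hv)
  obtain ⟨i, -, hi⟩ := Finset.prod_eq_zero_iff.1 h3
  have h4 : Sum.elim c.a c.b (Sum.inl 0) = Sum.elim c.a c.b (Sum.inr i) := sub_eq_zero.1 hi
  exact Sum.inl_ne_inr (hc.inj h4)

/-- the order of `f - b` at a place where `f - a` has positive order -/
private theorem C2f_ord {N : Type} [Field N] [Algebra k N] (P : Place k N) {f : N} {a b : k} (hab : a ≠ b)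
    (hf : 0 < P.ord (f - algebraMap k N a)) : f - algebraMap k N b ≠ 0 ∧ P.ord (f - algebraMap k N b) = 0 := by
  have h0 : f - algebraMap k N a ≠ 0 := by
    intro h1
    rw [h1, P.ord_zero] at hf
    exact lt_irrefl _ hf
  have h1 : algebraMap k N (a - b) ≠ 0 :=
    (map_ne_zero_iff _ (algebraMap k N).injective).2 (sub_ne_zero.2 hab)
  have h2 : P.ord (algebraMap k N (a - b)) = 0 := P.ord_const _ (sub_ne_zero.2 hab)
  have h3 := Place.ord_add_of_lt (v := P) h1 h0 (by rw [h2]; exact hf)
  have h4 : algebraMap k N (a - b) + (f - algebraMap k N a) = f - algebraMap k N b := by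
    rw [map_sub]; ring
  rw [h4, h2] at h3
  exact h3

private theorem C2f_ord_neg {N : Type} [Field N] [Algebra k N] (P : Place k N) {f : N} {a b : k} (hab : a ≠ b)
    (hf : P.ord (f - algebraMap k N a) < 0) : P.ord (f - algebraMap k N b) = P.ord (f - algebraMap k N a) := by
  have h0 : f - algebraMap k N a ≠ 0 := by
    intro h1
    rw [h1, P.ord_zero] at hf
    exact lt_irrefl _ hf
  have h1 : algebraMap k N (a - b) ≠ 0 :=
    (map_ne_zero_iff _ (algebraMap k N).injective).2 (sub_ne_zero.2 hab)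
  have h2 : P.ord (algebraMap k N (a - b)) = 0 := P.ord_const _ (sub_ne_zero.2 hab)
  have h3 := Place.ord_add_of_lt (v := P) h0 h1 (by rw [h2]; exact hf)
  have h4 : f - algebraMap k N a + algebraMap k N (a - b) = f - algebraMap k N b := by
    rw [map_sub]; ring
  rw [h4] at h3
  exact h3.2

/-- the points of the relation -/
private noncomputable def C2f_Q (c : Dat k) (ζ x₀ v₀ : k) : Option ℕ → Fin 2 → Option k
  | none => ![some (c.a 0), some 0]
  | some i => tau (ζ ^ i) ![some x₀, some v₀]

private theorem C2f_on {c : Dat k} (hc : c.Good) {ζ : k} (hζ : IsPrimitiveRoot ζ c.n)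
    {x₀ v₀ : k} (hQ : OnC c (some x₀) (some v₀)) (o : Option ℕ) :
    OnC c (C2f_Q c ζ x₀ v₀ o 0) (C2f_Q c ζ x₀ v₀ o 1) := by
  have hn : 0 < c.n := by have := hc.two; omega
  cases o with
  | none =>
    show (0 : k) ^ c.n * ∏ i, (c.a 0 - c.b i) = ∏ i, (c.a 0 - c.a i)
    rw [zero_pow hn.ne', zero_mul]
    exact (Finset.prod_eq_zero (Finset.mem_univ 0) (sub_self _)).symm
  | some i =>
    have hw : (ζ ^ i) ^ c.n = 1 := by rw [← pow_mul, mul_comm, pow_mul, hζ.pow_eq_one, one_pow]
    exact onC_tau (Q := ![some x₀, some v₀]) hw hQ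

theorem rel_fin [IsAlgClosed k] [CharZero k] {c : Dat k} (hc : c.Good) {ζ : k} (hζ : IsPrimitiveRoot ζ c.n)
    {M : Type} [Field M] [Algebra k M] {x v : M} (h : GenC c x v) {m : ℕ} (α : Fin m → Fin 3)
    {x₀ v₀ : k} (hQ : OnC c (some x₀) (some v₀)) (hv : v₀ ≠ 0) :
    ∑ i ∈ Finset.range c.n, cls c 1 (pat c α (ctp M (tau (ζ ^ i) ![some x₀, some v₀])) ![some x, some v]) =
      c.n • cls c 1 (pat c α (e0 c M) ![some x, some v]) := by
  have hn : 0 < c.n := by have := hc.two; omega
  have hxa : x₀ ≠ c.a 0 := C2f_ne hc hQ hv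
  obtain ⟨N, iN1, iN2, iN3, iN4, y, w, h', hN⟩ := surf hc h
  choose p ε hsur hred htr hy hw hord hinf hora horb huniq using
    fun o : Option ℕ => cplace hc hζ h' (C2f_Q c ζ x₀ v₀ o) (C2f_on hc hζ hQ o)
  have hyw : OnC (c.over N) (some y) (some w) := by
    have h1 := h'.on
    rwa [C2f_over] at h1
  have hyk : ∀ a : k, y - algebraMap k N a ≠ 0 := by
    intro a ha
    apply h'.tr
    rw [sub_eq_zero.1 ha, IsScalarTower.algebraMap_apply k M N]
    exact isAlgebraic_algebraMap _
  -- orders
  have o1 : ∀ i, (p (some i)).ord (y - algebraMap k N x₀) = 1 := by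
    intro i
    refine hord (some i) x₀ (algebraMap k k (ζ ^ i) * v₀) rfl rfl (mul_ne_zero ?_ hv)
    exact (map_ne_zero_iff _ (algebraMap k k).injective).2 (pow_ne_zero _ (hζ.ne_zero hn.ne'))
  have o2 : ∀ i, (p (some i)).ord (y - algebraMap k N (c.a 0)) = 0 := fun i =>
    (C2f_ord (p (some i)) hxa (by rw [o1]; exact one_pos)).2
  have o3 : (p none).ord (y - algebraMap k N (c.a 0)) = c.n := hora none 0 rfl
  have o4 : (p none).ord (y - algebraMap k N x₀) = 0 :=
    (C2f_ord (p none) hxa.symm (by rw [o3]; exact_mod_cast hn)).2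
  have hg0 : (y - algebraMap k N x₀) / (y - algebraMap k N (c.a 0)) ≠ 0 := div_ne_zero (hyk _) (hyk _)
  have hgo : ∀ P : Place k N, P.ord ((y - algebraMap k N x₀) / (y - algebraMap k N (c.a 0))) =
      P.ord (y - algebraMap k N x₀) - P.ord (y - algebraMap k N (c.a 0)) := fun P =>
    P.ord_div _ _ (hyk _) (hyk _)
  have hyA : y ∈ IntermediateField.adjoin k {y, w} := IntermediateField.subset_adjoin k {y, w} (by simp)
  have hg : (y - algebraMap k N x₀) / (y - algebraMap k N (c.a 0)) ∈ IntermediateField.adjoin k {y, w} :=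
    div_mem (sub_mem hyA (IntermediateField.algebraMap_mem _ _)) (sub_mem hyA (IntermediateField.algebraMap_mem _ _))
  -- values
  have z1 : ∀ i, (p (some i)).Zer (y - algebraMap k N x₀) := fun i =>
    Pool.Agent.LibCHd.red_iff_val.1 (hy (some i))
  have z2 : (p none).Zer (y - algebraMap k N (c.a 0)) := Pool.Agent.LibCHd.red_iff_val.1 (hy none)
  have z3 : ∀ i, (p (some i)).Zer (w - algebraMap k N (algebraMap k k (ζ ^ i) * v₀)) := fun i =>
    Pool.Agent.LibCHd.red_iff_val.1 (hw (some i))
  have hinj : Set.InjOn p (Finset.insertNone (Finset.range c.n)) := by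
    intro o ho o' ho' hoo
    have ho1 : o ∈ Finset.insertNone (Finset.range c.n) := ho
    have ho2 : o' ∈ Finset.insertNone (Finset.range c.n) := ho'
    cases o with
    | none =>
      cases o' with
      | none => rfl
      | some j =>
        exfalso
        have h1 := z1 j
        rw [← hoo] at h1
        exact hxa (Place.val_unique h1 z2)
    | some i =>
      cases o' with
      | none =>
        exfalso
        have h1 := z1 i
        rw [hoo] at h1
        exact hxa (Place.val_unique h1 z2)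
      | some j =>
        have h1 := z3 i
        rw [hoo] at h1
        have h2 := Place.val_unique h1 (z3 j)
        have h3 : ζ ^ i = ζ ^ j := mul_right_cancel₀ hv h2
        have hi : i < c.n := Finset.mem_range.1 (Finset.some_mem_insertNone.1 ho1)
        have hj : j < c.n := Finset.mem_range.1 (Finset.some_mem_insertNone.1 ho2)
        rw [hζ.pow_inj hi hj h3]
  have hall : ∀ P : Place k N, (∀ z, P.ord (algebraMap M N z) = 0) →
      P.ord ((y - algebraMap k N x₀) / (y - algebraMap k N (c.a 0))) ≠ 0 →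
      ∃ o ∈ Finset.insertNone (Finset.range c.n), P = p o := by
    intro P hP hPg
    rw [hgo] at hPg
    rcases lt_trichotomy (P.ord (y - algebraMap k N (c.a 0))) 0 with hlt | heq | hgt
    · exfalso
      apply hPg
      rw [C2f_ord_neg P hxa.symm hlt, sub_self]
    · have hr : P.Reg (y - algebraMap k N x₀) := by
        have h1 : P.Reg (y - algebraMap k N (c.a 0)) := Or.inr heq.ge
        have h2 := h1.add (P.reg_const (c.a 0 - x₀))
        rwa [map_sub, sub_add_sub_cancel] at h2
      have hz : P.Zer (y - algebraMap k N x₀) := by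
        rcases hr with h1 | h1
        · exact Or.inl h1
        · refine Or.inr (lt_of_le_of_ne h1 fun h2 => hPg ?_)
          rw [heq, ← h2, sub_zero]
      have hy0 : SpO P (some y) (some (algebraMap k (RF P) x₀)) := Pool.Agent.LibCHd.red_iff_val.2 hz
      obtain ⟨i, hi, hi'⟩ := csp hc hζ hyw P (Q := ![some x₀, some v₀]) hQ hy0
      refine ⟨some i, Finset.some_mem_insertNone.2 (Finset.mem_range.2 hi), ?_⟩
      exact huniq (some i) P hP hy0 hi'
    · have hy0 : SpO P (some y) (some (algebraMap k (RF P) (c.a 0))) :=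
        Pool.Agent.LibCHd.red_iff_val.2 (Or.inr hgt)
      obtain ⟨i, hi, hi'⟩ := csp hc hζ hyw P (Q := ![some (c.a 0), some 0]) (C2f_on hc hζ hQ none) hy0
      refine ⟨none, Finset.none_mem_insertNone, ?_⟩
      refine huniq none P hP hy0 ?_
      have h1 : SpO P (some w) (some (algebraMap k (RF P) (algebraMap k k (ζ ^ i) * 0))) := hi'
      rw [mul_zero] at h1
      exact h1
  have hrel := crel hc h h' hN α _ hg0 hg (Finset.insertNone (Finset.range c.n)) p hinj (C2f_Q c ζ x₀ v₀) ε hsur
    hred hy hw hall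
  rw [Finset.sum_insertNone, hgo, o3, o4, zero_sub] at hrel
  have he : ctp M (C2f_Q c ζ x₀ v₀ none) = e0 c M := by
    funext l
    fin_cases l
    · rfl
    · show some (algebraMap k M 0) = some 0
      rw [map_zero]
  rw [he] at hrel
  have hs : ∑ i ∈ Finset.range c.n, (p (some i)).ord ((y - algebraMap k N x₀) / (y - algebraMap k N (c.a 0))) •
      cls c 1 (pat c α (ctp M (C2f_Q c ζ x₀ v₀ (some i))) ![some x, some v]) =
      ∑ i ∈ Finset.range c.n, cls c 1 (pat c α (ctp M (tau (ζ ^ i) ![some x₀, some v₀])) ![some x, some v]) := by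
    refine Finset.sum_congr rfl fun i _ => ?_
    rw [hgo, o1, o2, sub_zero, one_smul]
    rfl
  rw [hs, neg_smul, natCast_zsmul, neg_add_eq_zero] at hrel
  exact hrel.symm

end Pool.Agent.LibGS7
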