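import Pool.Agent.LibGS7.C1
import Pool.Agent.LibGS7.C2a
import Pool.Agent.LibGS7.C2b
import Pool.Agent.LibGS7.C2d

/-!
[GS7 C2i] Points at infinity.
-/

open scoped Classical
open Polynomial

namespace Pool.Agent.LibGS7

open Pool.Agent.LibBH2
open Pool.Agent.LibCHd (VR RF Red FunF)
open Pool.Agent.LibCW77

variable {k : Type} [Field k]

private theorem C2i_over {c : Dat k} {M N : Type} [Field M] [Algebra k M] [Field N] [Algebra k N] [Algebra M N]
    [IsScalarTower k M N] : (c.over M).over N = c.over N := by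
  simp only [Dat.over, Dat.map, ← IsScalarTower.algebraMap_apply]

/-- the order of `f - b` at a place where `f - a` has positive order -/
private theorem C2i_ord {N : Type} [Field N] [Algebra k N] (P : Place k N) {f : N} {a b : k} (hab : a ≠ b)
    (hf : 0 < P.ord (f - algebraMap k N a)) : f - algebraMap k N b ≠ 0 ∧ P.ord (f - algebraMap k N b) = 0 := by
  have h0 : f - algebraMap k N a ≠ 0 := by
    intro h1
    rw [h1, P.ord_zero] at hf
    exact lt_irrefl _ hf
  have h1 : algebraMap k N (a - b) ≠ 0 :=
    (map_ne_zero_iff _ (algebraMap k N).injective).2 (sub_ne_zero.2 hab)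
  have h2 : P.ord (algebraMap k N (a - b)) = 0 := P.ord_const _ (sub_ne_zero.2 hab)
  have h3 := Place.ord_add_of_lt (v := P) h1 h0 (by rw [h2]; exact hf)
  have h4 : algebraMap k N (a - b) + (f - algebraMap k N a) = f - algebraMap k N b := by
    rw [map_sub]; ring
  rw [h4, h2] at h3
  exact h3

private theorem C2i_ord_neg {N : Type} [Field N] [Algebra k N] (P : Place k N) {f : N} {a b : k} (hab : a ≠ b)
    (hf : P.ord (f - algebraMap k N a) < 0) : P.ord (f - algebraMap k N b) = P.ord (f - algebraMap k N a) := by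
  have h0 : f - algebraMap k N a ≠ 0 := by
    intro h1
    rw [h1, P.ord_zero] at hf
    exact lt_irrefl _ hf
  have h1 : algebraMap k N (a - b) ≠ 0 :=
    (map_ne_zero_iff _ (algebraMap k N).injective).2 (sub_ne_zero.2 hab)
  have h2 : P.ord (algebraMap k N (a - b)) = 0 := P.ord_const _ (sub_ne_zero.2 hab)
  have h3 := Place.ord_add_of_lt (v := P) h0 h1 (by rw [h2]; exact hf)
  have h4 : f - algebraMap k N a + algebraMap k N (a - b) = f - algebraMap k N b := by
    rw [map_sub]; ring
  rw [h4] at h3
  exact h3.2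

/-- the points of the relation -/
private noncomputable def C2i_Q (c : Dat k) (ζ v₀ : k) : Option ℕ → Fin 2 → Option k
  | none => ![some (c.a 0), some 0]
  | some i => tau (ζ ^ i) ![none, some v₀]

private theorem C2i_on {c : Dat k} (hc : c.Good) {ζ : k} (hζ : IsPrimitiveRoot ζ c.n)
    {v₀ : k} (hQ : OnC c none (some v₀)) (o : Option ℕ) :
    OnC c (C2i_Q c ζ v₀ o 0) (C2i_Q c ζ v₀ o 1) := by
  have hn : 0 < c.n := by have := hc.two; omega
  cases o with
  | none =>
    show (0 : k) ^ c.n * ∏ i, (c.a 0 - c.b i) = ∏ i, (c.a 0 - c.a i)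
    rw [zero_pow hn.ne', zero_mul]
    exact (Finset.prod_eq_zero (Finset.mem_univ 0) (sub_self _)).symm
  | some i =>
    have hw : (ζ ^ i) ^ c.n = 1 := by rw [← pow_mul, mul_comm, pow_mul, hζ.pow_eq_one, one_pow]
    exact onC_tau (Q := ![none, some v₀]) hw hQ

theorem rel_inf [IsAlgClosed k] [CharZero k] {c : Dat k} (hc : c.Good) {ζ : k} (hζ : IsPrimitiveRoot ζ c.n)
    {M : Type} [Field M] [Algebra k M] {x v : M} (h : GenC c x v) {m : ℕ} (α : Fin m → Fin 3)
    {v₀ : k} (hQ : OnC c none (some v₀)) :
    ∑ i ∈ Finset.range c.n, cls c 1 (pat c α (ctp M (tau (ζ ^ i) ![none, some v₀])) ![some x, some v]) =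
      c.n • cls c 1 (pat c α (e0 c M) ![some x, some v]) := by
  have hn : 0 < c.n := by have := hc.two; omega
  have hv : v₀ ≠ 0 := by
    rintro rfl
    have h1 : (0 : k) ^ c.n = 1 := hQ
    rw [zero_pow hn.ne'] at h1
    exact zero_ne_one h1
  obtain ⟨N, iN1, iN2, iN3, iN4, y, w, h', hN⟩ := surf hc h
  choose p ε hsur hred htr hy hw hord hinf hora horb huniq using
    fun o : Option ℕ => cplace hc hζ h' (C2i_Q c ζ v₀ o) (C2i_on hc hζ hQ o)
  have hyw : OnC (c.over N) (some y) (some w) := by
    have h1 := h'.on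
    rwa [C2i_over] at h1
  have hyk : ∀ a : k, y - algebraMap k N a ≠ 0 := by
    intro a ha
    apply h'.tr
    rw [sub_eq_zero.1 ha, IsScalarTower.algebraMap_apply k M N]
    exact isAlgebraic_algebraMap _
  -- orders
  have oneg : ∀ (P : Place k N), P.ord y < 0 → P.ord (y - algebraMap k N (c.a 0)) = P.ord y := by
    intro P hP
    by_cases ha : c.a 0 = 0
    · rw [ha, map_zero, sub_zero]
    · have := C2i_ord_neg P (f := y) (a := 0) (b := c.a 0) (Ne.symm ha) (by rw [map_zero, sub_zero]; exact hP)
      rw [this, map_zero, sub_zero]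
  have o0 : ∀ i, (p (some i)).ord y = -1 := fun i => hinf (some i) rfl
  have o1 : ∀ i, (p (some i)).ord (y - algebraMap k N (c.a 0)) = -1 := by
    intro i
    rw [oneg _ (by rw [o0]; decide), o0]
  have o3 : (p none).ord (y - algebraMap k N (c.a 0)) = c.n := hora none 0 rfl
  have hg0 : (y - algebraMap k N (c.a 0))⁻¹ ≠ 0 := inv_ne_zero (hyk _)
  have hyA : y ∈ IntermediateField.adjoin k {y, w} := IntermediateField.subset_adjoin k {y, w} (by simp)
  have hg : (y - algebraMap k N (c.a 0))⁻¹ ∈ IntermediateField.adjoin k {y, w} :=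
    inv_mem (sub_mem hyA (IntermediateField.algebraMap_mem _ _))
  -- values
  have z3 : ∀ i, (p (some i)).Zer (w - algebraMap k N (algebraMap k k (ζ ^ i) * v₀)) := fun i =>
    Pool.Agent.LibCHd.red_iff_val.1 (hw (some i))
  have hinj : Set.InjOn p (Finset.insertNone (Finset.range c.n)) := by
    intro o ho o' ho' hoo
    have ho1 : o ∈ Finset.insertNone (Finset.range c.n) := ho
    have ho2 : o' ∈ Finset.insertNone (Finset.range c.n) := ho'
    have hn' : (0 : ℤ) < c.n := by exact_mod_cast hn
    cases o with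
    | none =>
      cases o' with
      | none => rfl
      | some j =>
        exfalso
        have h1 := o1 j
        rw [← hoo, o3] at h1
        omega
    | some i =>
      cases o' with
      | none =>
        exfalso
        have h1 := o1 i
        rw [hoo, o3] at h1
        omega
      | some j =>
        have h1 := z3 i
        rw [hoo] at h1
        have h2 := Place.val_unique h1 (z3 j)
        have h3 : ζ ^ i = ζ ^ j := mul_right_cancel₀ hv h2
        have hi : i < c.n := Finset.mem_range.1 (Finset.some_mem_insertNone.1 ho1)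
        have hj : j < c.n := Finset.mem_range.1 (Finset.some_mem_insertNone.1 ho2)
        rw [hζ.pow_inj hi hj h3]
  have hall : ∀ P : Place k N, (∀ z, P.ord (algebraMap M N z) = 0) →
      P.ord ((y - algebraMap k N (c.a 0))⁻¹) ≠ 0 →
      ∃ o ∈ Finset.insertNone (Finset.range c.n), P = p o := by
    intro P hP hPg
    rw [P.ord_inv] at hPg
    rcases lt_trichotomy (P.ord (y - algebraMap k N (c.a 0))) 0 with hlt | heq | hgt
    · have hy1 : P.ord y < 0 := by
        by_cases ha : c.a 0 = 0
        · rwa [ha, map_zero, sub_zero] at hlt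
        · have h1 := C2i_ord_neg P (f := y) (a := c.a 0) (b := 0) ha hlt
          rw [map_zero, sub_zero] at h1
          rw [h1]
          exact hlt
      have hy0 : SpO P (some y) (none : Option (RF P)) := hy1
      obtain ⟨i, hi, hi'⟩ := csp hc hζ hyw P (Q := ![none, some v₀]) hQ hy0
      refine ⟨some i, Finset.some_mem_insertNone.2 (Finset.mem_range.2 hi), ?_⟩
      exact huniq (some i) P hP hy0 hi'
    · exact absurd (by rw [heq]; rfl) hPg
    · have hy0 : SpO P (some y) (some (algebraMap k (RF P) (c.a 0))) :=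
        Pool.Agent.LibCHd.red_iff_val.2 (Or.inr hgt)
      obtain ⟨i, hi, hi'⟩ := csp hc hζ hyw P (Q := ![some (c.a 0), some 0]) (C2i_on hc hζ hQ none) hy0
      refine ⟨none, Finset.none_mem_insertNone, ?_⟩
      refine huniq none P hP hy0 ?_
      have h1 : SpO P (some w) (some (algebraMap k (RF P) (algebraMap k k (ζ ^ i) * 0))) := hi'
      rw [mul_zero] at h1
      exact h1
  have hrel := crel hc h h' hN α _ hg0 hg (Finset.insertNone (Finset.range c.n)) p hinj (C2i_Q c ζ v₀) ε hsur
    hred hy hw hall
  rw [Finset.sum_insertNone, Place.ord_inv, o3] at hrel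
  have he : ctp M (C2i_Q c ζ v₀ none) = e0 c M := by
    funext l
    fin_cases l
    · rfl
    · show some (algebraMap k M 0) = some 0
      rw [map_zero]
  rw [he] at hrel
  have hs : ∑ i ∈ Finset.range c.n, (p (some i)).ord ((y - algebraMap k N (c.a 0))⁻¹) •
      cls c 1 (pat c α (ctp M (C2i_Q c ζ v₀ (some i))) ![some x, some v]) =
      ∑ i ∈ Finset.range c.n, cls c 1 (pat c α (ctp M (tau (ζ ^ i) ![none, some v₀])) ![some x, some v]) := by
    refine Finset.sum_congr rfl fun i _ => ?_
    rw [Place.ord_inv, o1, neg_neg, one_smul]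
    rfl
  rw [hs, neg_smul, natCast_zsmul, neg_add_eq_zero] at hrel
  exact hrel.symm

end Pool.Agent.LibGS7
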