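import Pool.Agent.LibGS7.C2r
import Pool.Agent.LibGS7.C2f
import Pool.Agent.LibGS7.C2i

/-!
[GS7 C2] The fibre relation `∑_i [τ^i Q] = n [e]`: cases on `Q 0`, `Q 1` (`Q = ![Q 0, Q 1]` by `funext`, `fin_cases`). `(some x₀, some v₀)`, `v₀ ≠ 0`: `rel_fin`.
`(some x₀, some 0)`: `∏ (x₀ - a_i) = 0`, so `x₀ = a_i`: `tau (ζ ^ j) Q = Q` for all `j` (`mul_zero`), `Finset.sum_const`, `Finset.card_range`, `rel_ram`.
`(some x₀, none)`: `x₀ = b_i`, the same. `(none, some v₀)`: `rel_inf`. `(none, none)`: false.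
-/

open scoped Classical
open Polynomial

namespace Pool.Agent.LibGS7

open Pool.Agent.LibBH2
open Pool.Agent.LibCHd (VR RF Red FunF)
open Pool.Agent.LibCW77

variable {k : Type} [Field k]

private theorem C2_fix {ζ : k} {Q : Fin 2 → Option k} (hQ1 : Q 1 = some 0 ∨ Q 1 = none) (i : ℕ) :
    tau (ζ ^ i) Q = Q := by
  funext j
  fin_cases j
  · rfl
  · show (Q 1).map (fun v => algebraMap k k (ζ ^ i) * v) = Q 1
    rcases hQ1 with h | h <;> rw [h] <;> simp

theorem fib_rel [IsAlgClosed k] [CharZero k] {c : Dat k} (hc : c.Good) {ζ : k} (hζ : IsPrimitiveRoot ζ c.n)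
    {M : Type} [Field M] [Algebra k M] {x v : M} (h : GenC c x v) {m : ℕ} (α : Fin m → Fin 3)
    {Q : Fin 2 → Option k} (hQ : OnC c (Q 0) (Q 1)) :
    ∑ i ∈ Finset.range c.n, cls c 1 (pat c α (ctp M (tau (ζ ^ i) Q)) ![some x, some v]) =
      c.n • cls c 1 (pat c α (e0 c M) ![some x, some v]) := by
  have hQe : Q = ![Q 0, Q 1] := by
    funext j
    fin_cases j <;> rfl
  have key : (Q 1 = some 0 ∨ Q 1 = none) →
      ((∃ i, Q = ![some (c.a i), some 0]) ∨ ∃ i, Q = ![some (c.b i), none]) →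
      ∑ i ∈ Finset.range c.n, cls c 1 (pat c α (ctp M (tau (ζ ^ i) Q)) ![some x, some v]) =
      c.n • cls c 1 (pat c α (e0 c M) ![some x, some v]) := by
    intro h1 h2
    rw [← rel_ram hc hζ h α h2]
    rw [Finset.sum_congr rfl (fun i _ => by rw [C2_fix h1 i])]
    rw [Finset.sum_const, Finset.card_range]
  rcases hx : Q 0 with _ | x₀
  · rcases hv : Q 1 with _ | v₀
    · rw [hx, hv] at hQ
      exact absurd hQ (by simp [OnC])
    · rw [hx, hv] at hQ hQe
      rw [hQe]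
      exact rel_inf hc hζ h α hQ
  · rcases hv : Q 1 with _ | v₀
    · rw [hx, hv] at hQ hQe
      have hQ' : ∃ i, x₀ = c.b i := hQ
      obtain ⟨i, hi⟩ := hQ'
      refine key (Or.inr hv) (Or.inr ⟨i, ?_⟩)
      rw [hQe, hi]
    · by_cases h0 : v₀ = 0
      · rw [hx, hv] at hQ hQe
        have hQ' : v₀ ^ c.n * ∏ i, (x₀ - c.b i) = ∏ i, (x₀ - c.a i) := hQ
        have hn : c.n ≠ 0 := by have := hc.two; omega
        rw [h0, zero_pow hn, zero_mul] at hQ'
        obtain ⟨i, -, hi⟩ := Finset.prod_eq_zero_iff.mp hQ'.symm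
        refine key (Or.inl (by rw [hv, h0])) (Or.inl ⟨i, ?_⟩)
        rw [hQe, h0, sub_eq_zero.mp hi]
      · rw [hx, hv] at hQ hQe
        rw [hQe]
        exact rel_fin hc hζ h α hQ h0

end Pool.Agent.LibGS7
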