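import Pool.Agent.LibGS7.C2a
import Pool.Agent.LibGS7.C2b
import Pool.Agent.LibGS7.C2d

/-!
[GS7 C2r] Ramified points. If `Q = ![some (c.a 0), some 0]`: `ctp M Q = e0 c M`, trivial. Otherwise `surf hc h` (LibCW77/C3) gives `N`, `y`, `w`, `h'`, `hN`;
`g = (y - x_Q) / (y - a_0)`, `cplace` for `Q` and for `E = ![some (c.a 0), some 0]` (a point of `C`: `zero_pow`, `Finset.prod_eq_zero`), `crel` with
`ι = Bool`, `s = univ`, orders `n` and `- n`: at the place of `Q`, `y - a_0 = (y - x_Q) + (x_Q - a_0)` has order `0` (`x_Q ≠ a_0`, `hc.inj`; `Place.ord_add_of_lt`, `ord_const`),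
and conversely. The places are different (order of `y - x_Q`). `g ∈ adjoin k {y, w}`. Completeness (`hall`): `P.ord g ≠ 0`: if `P.ord (y - a_0) < 0`
then `P.ord (y - x_Q) = P.ord (y - a_0)`, so `P.ord g = 0`; so `y - a_0`, `y - x_Q` are regular and one of them has positive order; then `y` specialises to
`x_Q` or to `a_0` (`Pool.Agent.LibCHd.red_iff_sub`, `red_const`), `csp` gives `SpO P (some w) ..` for `tau (ζ ^ i) Q = Q` (second coordinate `0` or `∞`), and the last clause of
`cplace` gives the place. See `GS3_cases` and `diag_rel` in LibCW77/GS3.lean for similar arguments.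
-/

open scoped Classical
open Polynomial

namespace Pool.Agent.LibGS7

open Pool.Agent.LibBH2
open Pool.Agent.LibCHd (VR RF Red FunF)
open Pool.Agent.LibCW77

variable {k : Type} [Field k]

private theorem C2r_over {c : Dat k} {M N : Type} [Field M] [Algebra k M] [Field N] [Algebra k N]
    [Algebra M N] [IsScalarTower k M N] : (c.over M).over N = c.over N := by
  simp only [Dat.over, Dat.map, ← IsScalarTower.algebraMap_apply]

private theorem C2r_e0 (c : Dat k) (M : Type) [Field M] [Algebra k M] :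
    ctp M (![some (c.a 0), some 0] : Fin 2 → Option k) = e0 c M := by
  funext i
  fin_cases i
  · rfl
  · show (some (0 : k)).map (algebraMap k M) = some 0
    rw [Option.map_some, map_zero]

private theorem C2r_onE {c : Dat k} (hc : c.Good) :
    OnC c ((![some (c.a 0), some 0] : Fin 2 → Option k) 0)
      ((![some (c.a 0), some 0] : Fin 2 → Option k) 1) := by
  have hn : c.n ≠ 0 := by have := hc.two; omega
  show (0 : k) ^ c.n * ∏ i, (c.a 0 - c.b i) = ∏ i, (c.a 0 - c.a i)
  rw [zero_pow hn, zero_mul]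
  exact (Finset.prod_eq_zero (Finset.mem_univ 0) (sub_self _)).symm

private theorem C2r_main [IsAlgClosed k] [CharZero k] {c : Dat k} (hc : c.Good) {ζ : k}
    (hζ : IsPrimitiveRoot ζ c.n) {M : Type} [Field M] [Algebra k M] {x v : M} (h : GenC c x v) {m : ℕ}
    (α : Fin m → Fin 3) {Q : Fin 2 → Option k} (hQ : OnC c (Q 0) (Q 1)) {xq : k} (h0 : Q 0 = some xq)
    (h1 : Q 1 = some 0 ∨ Q 1 = none) (hne : xq ≠ c.a 0)
    (hx : (∃ i, xq = c.a i) ∨ ∃ i, xq = c.b i) :
    c.n • cls c 1 (pat c α (ctp M Q) ![some x, some v]) =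
      c.n • cls c 1 (pat c α (e0 c M) ![some x, some v]) := by
  have hn : 0 < c.n := by have := hc.two; omega
  obtain ⟨N, iN1, iN2, iN3, iN4, y, w, h', hN⟩ := surf hc h
  have hyw : OnC (c.over N) (some y) (some w) := by
    have h2 := h'.on
    rwa [C2r_over] at h2
  -- the two constant points
  obtain ⟨E, hE⟩ : ∃ E : Fin 2 → Option k, E = ![some (c.a 0), some 0] := ⟨_, rfl⟩
  have hEon : OnC c (E 0) (E 1) := by
    rw [hE]; exact C2r_onE hc
  have hE0 : E 0 = some (c.a 0) := by rw [hE]; rfl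
  have hE1 : E 1 = some 0 := by rw [hE]; rfl
  obtain ⟨Qb, hQt, hQf⟩ : ∃ Qb : Bool → Fin 2 → Option k, Qb true = Q ∧ Qb false = E :=
    ⟨fun b => bif b then Q else E, rfl, rfl⟩
  have hQb : ∀ b, OnC c (Qb b 0) (Qb b 1) := by
    intro b
    cases b
    · rw [hQf]; exact hEon
    · rw [hQt]; exact hQ
  choose p ε hs hr ht hy hw _ _ ha hb hu using fun b => cplace hc hζ h' (Qb b) (hQb b)
  -- elements
  have hyk : ∀ a : k, y - algebraMap k N a ≠ 0 := by
    intro a h2
    apply h'.tr
    rw [sub_eq_zero.1 h2, IsScalarTower.algebraMap_apply k M N]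
    exact isAlgebraic_algebraMap _
  have hd0 : xq - c.a 0 ≠ 0 := sub_ne_zero.2 hne
  have hdN : algebraMap k N (xq - c.a 0) ≠ 0 := (map_ne_zero (algebraMap k N)).2 hd0
  have hdN' : algebraMap k N (c.a 0 - xq) ≠ 0 := by
    rw [← neg_sub, map_neg]; exact neg_ne_zero.2 hdN
  have hd0' : c.a 0 - xq ≠ 0 := sub_ne_zero.2 hne.symm
  have e1 : ∀ a b : k, algebraMap k N (a - b) + (y - algebraMap k N a) = y - algebraMap k N b := by
    intro a b
    rw [map_sub]; ring
  -- orders
  have o1 : (p true).ord (y - algebraMap k N xq) = c.n := by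
    rcases hx with ⟨i, hi⟩ | ⟨i, hi⟩
    · rw [hi]
      exact ha true i (by rw [hQt, h0, hi])
    · rw [hi]
      exact hb true i (by rw [hQt, h0, hi])
  have o2 : (p false).ord (y - algebraMap k N (c.a 0)) = c.n := ha false 0 (by rw [hQf, hE0])
  have o3 : (p true).ord (y - algebraMap k N (c.a 0)) = 0 := by
    have h2 := (Place.ord_add_of_lt (v := p true) hdN (hyk xq)
      (by rw [(p true).ord_const _ hd0, o1]; exact_mod_cast hn)).2
    rwa [e1, (p true).ord_const _ hd0] at h2
  have o4 : (p false).ord (y - algebraMap k N xq) = 0 := by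
    have h2 := (Place.ord_add_of_lt (v := p false) hdN' (hyk (c.a 0))
      (by rw [(p false).ord_const _ hd0', o2]; exact_mod_cast hn)).2
    rwa [e1, (p false).ord_const _ hd0'] at h2
  obtain ⟨g, hg⟩ : ∃ g : N, g = (y - algebraMap k N xq) / (y - algebraMap k N (c.a 0)) := ⟨_, rfl⟩
  have hg0 : g ≠ 0 := by rw [hg]; exact div_ne_zero (hyk _) (hyk _)
  have hgo : ∀ P : Place k N, P.ord g = P.ord (y - algebraMap k N xq) -
      P.ord (y - algebraMap k N (c.a 0)) := by
    intro P
    rw [hg]; exact P.ord_div _ _ (hyk _) (hyk _)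
  have hgm : g ∈ IntermediateField.adjoin k {y, w} := by
    rw [hg]
    have hym : y ∈ IntermediateField.adjoin k {y, w} := IntermediateField.subset_adjoin k {y, w} (by simp)
    exact div_mem (sub_mem hym (IntermediateField.algebraMap_mem _ _))
      (sub_mem hym (IntermediateField.algebraMap_mem _ _))
  have hinj : Set.InjOn p ((Finset.univ : Finset Bool) : Set Bool) := by
    have hne2 : p true ≠ p false := by
      intro h2
      rw [h2, o4] at o1
      have : (c.n : ℤ) ≠ 0 := by exact_mod_cast hn.ne'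
      exact this o1.symm
    intro a _ b _ hab
    cases a <;> cases b
    · rfl
    · exact absurd hab.symm hne2
    · exact absurd hab hne2
    · rfl
  -- specialisation of `w` at the ramified points
  have hram : ∀ (b : Bool) (a : k), Qb b 0 = some a → (Qb b 1 = some 0 ∨ Qb b 1 = none) →
      ∀ P : Place k N, (∀ z, P.ord (algebraMap M N z) = 0) → 0 < P.ord (y - algebraMap k N a) →
      P = p b := by
    intro b a hb0 hb1 P hP hpos
    have h2 : SpO P (some y) ((Qb b 0).map (algebraMap k (RF P))) := by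
      rw [hb0]
      exact Pool.Agent.LibCHd.red_iff_val.2 (Or.inr hpos)
    obtain ⟨i, -, h3⟩ := csp hc hζ hyw P (hQb b) h2
    refine hu b P hP h2 ?_
    have h4 : tau (ζ ^ i) (Qb b) 1 = Qb b 1 := by
      show (Qb b 1).map (fun v => algebraMap k k (ζ ^ i) * v) = Qb b 1
      rcases hb1 with h5 | h5
      · rw [h5, Option.map_some, mul_zero]
      · rw [h5, Option.map_none]
    rwa [h4] at h3
  have hall : ∀ P : Place k N, (∀ z, P.ord (algebraMap M N z) = 0) → P.ord g ≠ 0 →
      ∃ i ∈ (Finset.univ : Finset Bool), P = p i := by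
    intro P hP hPg
    rw [hgo] at hPg
    rcases lt_trichotomy (P.ord (y - algebraMap k N (c.a 0))) 0 with hlt | heq | hgt
    · exfalso
      apply hPg
      have h2 := (Place.ord_add_of_lt (v := P) (hyk (c.a 0)) hdN'
        (by rw [P.ord_const _ hd0']; exact hlt)).2
      rw [add_comm, e1] at h2
      rw [h2, sub_self]
    · have h2 : P.Reg (y - algebraMap k N xq) := by
        have h3 : P.Reg (y - algebraMap k N (c.a 0)) := Or.inr heq.ge
        have h4 := (P.reg_const (c.a 0 - xq)).add h3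
        rwa [e1] at h4
      rw [heq, sub_zero] at hPg
      have h3 : 0 < P.ord (y - algebraMap k N xq) :=
        lt_of_le_of_ne (h2.resolve_left (hyk xq)) (Ne.symm hPg)
      exact ⟨true, Finset.mem_univ _, hram true xq (by rw [hQt, h0]) (by rw [hQt]; exact h1) P hP h3⟩
    · exact ⟨false, Finset.mem_univ _, hram false (c.a 0) (by rw [hQf, hE0])
        (by rw [hQf]; exact Or.inl hE1) P hP hgt⟩
  have hrel := crel hc h h' hN α g hg0 hgm Finset.univ p hinj Qb ε hs hr hy hw hall
  rw [Fintype.sum_bool, hgo, hgo, o1, o2, o3, o4, hQt, hQf, hE, C2r_e0, sub_zero, zero_sub,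
    neg_smul, natCast_zsmul, natCast_zsmul] at hrel
  exact add_neg_eq_zero.1 hrel

theorem rel_ram [IsAlgClosed k] [CharZero k] {c : Dat k} (hc : c.Good) {ζ : k} (hζ : IsPrimitiveRoot ζ c.n)
    {M : Type} [Field M] [Algebra k M] {x v : M} (h : GenC c x v) {m : ℕ} (α : Fin m → Fin 3)
    {Q : Fin 2 → Option k} (hQ : (∃ i, Q = ![some (c.a i), some 0]) ∨ ∃ i, Q = ![some (c.b i), none]) :
    c.n • cls c 1 (pat c α (ctp M Q) ![some x, some v]) =
      c.n • cls c 1 (pat c α (e0 c M) ![some x, some v]) := by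
  rcases hQ with ⟨i, rfl⟩ | ⟨i, rfl⟩
  · by_cases hi : c.a i = c.a 0
    · rw [hi, C2r_e0]
    · refine C2r_main hc hζ h α (Q := ![some (c.a i), some 0]) ?_ rfl (Or.inl rfl) hi (Or.inl ⟨i, rfl⟩)
      show (0 : k) ^ c.n * ∏ j, (c.a i - c.b j) = ∏ j, (c.a i - c.a j)
      rw [zero_pow (by have := hc.two; omega), zero_mul]
      exact (Finset.prod_eq_zero (Finset.mem_univ i) (sub_self _)).symm
  · refine C2r_main hc hζ h α (Q := ![some (c.b i), none]) ⟨i, rfl⟩ rfl (Or.inr rfl) ?_
      (Or.inr ⟨i, rfl⟩)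
    intro h0
    have h2 : Sum.elim c.a c.b (Sum.inr i) = Sum.elim c.a c.b (Sum.inl 0) := h0
    exact Sum.inr_ne_inl (hc.inj h2)

end Pool.Agent.LibGS7
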