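import Pool.Agent.LibGS7.C1

/-!
[GS7 C3] The operators. `exists_op`: sum over `i < n` of the homomorphisms `exists_tw` (LibCW77/D4) for `w j = (ζ ^ i) ^ f j`
(`w j ^ n = 1`), `AddMonoidHom.finset_sum_apply`. `op_EE`: `IsOp` for `M = N` (`genC_funF`, `pp_on`), `tw_tri`. `op_S`: `f = 1`: the term is
`cls c 1 (tri (tau w (pp o₁)) ...)`, `w = ζ ^ i`, and `tau w (pp x v o) = ppt x v w (o.map (tq w _))` (`tau_ctp`), `gcls`. `op_P1` ...: `tau_one`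
for the other factors; constant point: `tau_ctp`; generic point and constant points: `gcls` (`Finset.sum_const`, `Finset.card_range`).
-/

open scoped Classical
open Polynomial

namespace Pool.Agent.LibGS7

open Pool.Agent.LibBH2
open Pool.Agent.LibCHd (VR RF Red FunF)
open Pool.Agent.LibCW77

variable {k : Type} [Field k]

/-- `τ ^ i` on the constant points -/
noncomputable def tqi {c : Dat k} {ζ : k} (hζ : IsPrimitiveRoot ζ c.n) (i : ℕ) (Q : CPt c) : CPt c :=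
  tq (ζ ^ i) (by rw [← pow_mul, mul_comm, pow_mul, hζ.pow_eq_one, one_pow]) Q

private theorem C3_w {c : Dat k} {ζ : k} (hζ : IsPrimitiveRoot ζ c.n) (i j : ℕ) : ((ζ ^ i) ^ j) ^ c.n = 1 := by
  rw [← pow_mul, ← pow_mul, ← mul_assoc, mul_comm (i * j), pow_mul, hζ.pow_eq_one, one_pow]

private theorem C3_zero (w : k) {N : Type} [Field N] [Algebra k N] (j : ℕ) (hj : j = 0) (P : Fin 2 → Option N) :
    tau (w ^ j) P = P := by
  subst hj
  rw [pow_zero]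
  exact tau_one P

private theorem C3_map {c : Dat k} {ζ : k} (hζ : IsPrimitiveRoot ζ c.n) {N : Type} [Field N] [Algebra k N] (x v : N)
    (i j : ℕ) (hj : j = 1) (o : Option (CPt c)) :
    tau ((ζ ^ i) ^ j) (pp x v o) = ppt x v (ζ ^ i) (o.map (tqi hζ i)) := by
  subst hj
  rw [pow_one]
  rcases o with _ | Q
  · rfl
  · exact tau_ctp _ _ _

private theorem C3_con {c : Dat k} {ζ : k} (hζ : IsPrimitiveRoot ζ c.n) {N : Type} [Field N] [Algebra k N] (x v : N)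
    (i j : ℕ) (hj : j = 1) (Q : CPt c) :
    tau ((ζ ^ i) ^ j) (pp x v (some Q)) = pp x v (some (tqi hζ i Q)) := by
  subst hj
  rw [pow_one]
  exact tau_ctp _ _ _

private theorem C3_gen {c : Dat k} {ζ : k} {N : Type} [Field N] [Algebra k N] (x v : N) (i j : ℕ) (hj : j = 1) :
    tau ((ζ ^ i) ^ j) (pp (c := c) x v none) = ppt (c := c) x v (ζ ^ i) none := by
  subst hj
  rw [pow_one]
  rfl

private theorem C3_cst {c : Dat k} {ζ : k} {N : Type} [Field N] [Algebra k N] (x v : N) (i j : ℕ) (hj : j = 0)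
    (Q : CPt c) : tau ((ζ ^ i) ^ j) (pp x v (some Q)) = ppt x v (ζ ^ i) (some Q) := by
  rw [C3_zero _ j hj]
  rfl

theorem exists_op {c : Dat k} (hc : c.Good) {ζ : k} (hζ : IsPrimitiveRoot ζ c.n) (f : Fin 3 → ℕ) :
    ∃ T : CH c 3 1 →+ CH c 3 1, IsOp c ζ f T := by
  have h1 : ∀ i : ℕ, ∃ Γ : CH c 3 1 →+ CH c 3 1, ∀ (M : Type) [Field M] [Algebra k M] (u : Pnt 3 M), FunF k 1 M →
      On (c.over M) u → Γ (cls c 1 u) = cls c 1 (tw (fun j => (ζ ^ i) ^ f j) u) :=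
    fun i => exists_tw c hc 1 (fun j => (ζ ^ i) ^ f j) (fun j => C3_w hζ i (f j))
  choose Γ hΓ using h1
  refine ⟨∑ i ∈ Finset.range c.n, Γ i, ?_⟩
  intro M _ _ u hM hu
  rw [AddMonoidHom.finsetSum_apply]
  exact Finset.sum_congr rfl (fun i _ => hΓ i M u hM hu)

theorem op_EE {c : Dat k} (hc : c.Good) {ζ : k} {f : Fin 3 → ℕ} {T : CH c 3 1 →+ CH c 3 1} (hT : IsOp c ζ f T)
    {N : Type} [Field N] [Algebra k N] {x v : N} (h : GenC c x v) (o₁ o₂ o₃ : Option (CPt c)) :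
    T (EE x v o₁ o₂ o₃) = ∑ i ∈ Finset.range c.n, cls c 1 (tri (tau ((ζ ^ i) ^ f 0) (pp x v o₁))
      (tau ((ζ ^ i) ^ f 1) (pp x v o₂)) (tau ((ζ ^ i) ^ f 2) (pp x v o₃))) := by
  unfold EE
  rw [hT N _ (genC_funF hc h).1 (pp_on h o₁ o₂ o₃)]
  refine Finset.sum_congr rfl (fun i _ => ?_)
  rw [tw_tri]

theorem op_S [CharZero k] {c : Dat k} (hc : c.Good) {ζ : k} (hζ : IsPrimitiveRoot ζ c.n)
    {S : CH c 3 1 →+ CH c 3 1} (hS : IsOp c ζ ![1, 1, 1] S) {N : Type} [Field N] [Algebra k N] {x v : N}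
    (h : GenC c x v) (o₁ o₂ o₃ : Option (CPt c)) :
    S (EE x v o₁ o₂ o₃) = ∑ i ∈ Finset.range c.n, EE x v (o₁.map (tqi hζ i)) (o₂.map (tqi hζ i))
      (o₃.map (tqi hζ i)) := by
  rw [op_EE hc hS h]
  refine Finset.sum_congr rfl (fun i _ => ?_)
  have hw : (ζ ^ i) ^ c.n = 1 := by
    have := C3_w hζ i 1
    rwa [pow_one] at this
  rw [← gcls hc h hw, C3_map hζ x v i ((![1, 1, 1] : Fin 3 → ℕ) 0) rfl o₁,
    C3_map hζ x v i ((![1, 1, 1] : Fin 3 → ℕ) 1) rfl o₂, C3_map hζ x v i ((![1, 1, 1] : Fin 3 → ℕ) 2) rfl o₃]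

theorem op_q1 {c : Dat k} (hc : c.Good) {ζ : k} (hζ : IsPrimitiveRoot ζ c.n) {P1 : CH c 3 1 →+ CH c 3 1}
    (hP : IsOp c ζ ![1, 0, 0] P1) {N : Type} [Field N] [Algebra k N] {x v : N} (h : GenC c x v) (Q : CPt c)
    (o o' : Option (CPt c)) :
    P1 (EE x v (some Q) o o') = ∑ i ∈ Finset.range c.n, EE x v (some (tqi hζ i Q)) o o' := by
  rw [op_EE hc hP h]
  refine Finset.sum_congr rfl (fun i _ => ?_)
  unfold EE
  rw [C3_con hζ x v i ((![1, 0, 0] : Fin 3 → ℕ) 0) rfl Q, C3_zero (ζ ^ i) ((![1, 0, 0] : Fin 3 → ℕ) 1) rfl,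
    C3_zero (ζ ^ i) ((![1, 0, 0] : Fin 3 → ℕ) 2) rfl]

theorem op_q2 {c : Dat k} (hc : c.Good) {ζ : k} (hζ : IsPrimitiveRoot ζ c.n) {P2 : CH c 3 1 →+ CH c 3 1}
    (hP : IsOp c ζ ![0, 1, 0] P2) {N : Type} [Field N] [Algebra k N] {x v : N} (h : GenC c x v) (Q : CPt c)
    (o o' : Option (CPt c)) :
    P2 (EE x v o (some Q) o') = ∑ i ∈ Finset.range c.n, EE x v o (some (tqi hζ i Q)) o' := by
  rw [op_EE hc hP h]
  refine Finset.sum_congr rfl (fun i _ => ?_)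
  unfold EE
  rw [C3_con hζ x v i ((![0, 1, 0] : Fin 3 → ℕ) 1) rfl Q, C3_zero (ζ ^ i) ((![0, 1, 0] : Fin 3 → ℕ) 0) rfl,
    C3_zero (ζ ^ i) ((![0, 1, 0] : Fin 3 → ℕ) 2) rfl]

theorem op_p1 [CharZero k] {c : Dat k} (hc : c.Good) {ζ : k} (hζ : IsPrimitiveRoot ζ c.n)
    {P1 : CH c 3 1 →+ CH c 3 1} (hP : IsOp c ζ ![1, 0, 0] P1) {N : Type} [Field N] [Algebra k N] {x v : N}
    (h : GenC c x v) (Q R : CPt c) :
    P1 (EE x v none (some Q) (some R)) = c.n • EE x v none (some Q) (some R) := by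
  rw [op_EE hc hP h]
  have h1 : ∀ i ∈ Finset.range c.n, cls c 1 (tri (tau ((ζ ^ i) ^ (![1, 0, 0] : Fin 3 → ℕ) 0) (pp (c := c) x v none))
      (tau ((ζ ^ i) ^ (![1, 0, 0] : Fin 3 → ℕ) 1) (pp x v (some Q)))
      (tau ((ζ ^ i) ^ (![1, 0, 0] : Fin 3 → ℕ) 2) (pp x v (some R)))) = EE x v none (some Q) (some R) := by
    intro i _
    have hw : (ζ ^ i) ^ c.n = 1 := by
      have := C3_w hζ i 1
      rwa [pow_one] at this
    rw [← gcls hc h hw, C3_gen x v i ((![1, 0, 0] : Fin 3 → ℕ) 0) rfl, C3_cst x v i ((![1, 0, 0] : Fin 3 → ℕ) 1) rfl Q,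
      C3_cst x v i ((![1, 0, 0] : Fin 3 → ℕ) 2) rfl R]
  rw [Finset.sum_congr rfl h1, Finset.sum_const, Finset.card_range]

theorem op_p2 [CharZero k] {c : Dat k} (hc : c.Good) {ζ : k} (hζ : IsPrimitiveRoot ζ c.n)
    {P2 : CH c 3 1 →+ CH c 3 1} (hP : IsOp c ζ ![0, 1, 0] P2) {N : Type} [Field N] [Algebra k N] {x v : N}
    (h : GenC c x v) (Q R : CPt c) :
    P2 (EE x v (some Q) none (some R)) = c.n • EE x v (some Q) none (some R) := by
  rw [op_EE hc hP h]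
  have h1 : ∀ i ∈ Finset.range c.n, cls c 1 (tri (tau ((ζ ^ i) ^ (![0, 1, 0] : Fin 3 → ℕ) 0) (pp x v (some Q)))
      (tau ((ζ ^ i) ^ (![0, 1, 0] : Fin 3 → ℕ) 1) (pp (c := c) x v none))
      (tau ((ζ ^ i) ^ (![0, 1, 0] : Fin 3 → ℕ) 2) (pp x v (some R)))) = EE x v (some Q) none (some R) := by
    intro i _
    have hw : (ζ ^ i) ^ c.n = 1 := by
      have := C3_w hζ i 1
      rwa [pow_one] at this
    rw [← gcls hc h hw, C3_gen x v i ((![0, 1, 0] : Fin 3 → ℕ) 1) rfl, C3_cst x v i ((![0, 1, 0] : Fin 3 → ℕ) 0) rfl Q,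
      C3_cst x v i ((![0, 1, 0] : Fin 3 → ℕ) 2) rfl R]
  rw [Finset.sum_congr rfl h1, Finset.sum_const, Finset.card_range]

theorem op_p3 [CharZero k] {c : Dat k} (hc : c.Good) {ζ : k} (hζ : IsPrimitiveRoot ζ c.n)
    {P3 : CH c 3 1 →+ CH c 3 1} (hP : IsOp c ζ ![0, 0, 1] P3) {N : Type} [Field N] [Algebra k N] {x v : N}
    (h : GenC c x v) (Q R : CPt c) :
    P3 (EE x v (some Q) (some R) none) = c.n • EE x v (some Q) (some R) none := by
  rw [op_EE hc hP h]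
  have h1 : ∀ i ∈ Finset.range c.n, cls c 1 (tri (tau ((ζ ^ i) ^ (![0, 0, 1] : Fin 3 → ℕ) 0) (pp x v (some Q)))
      (tau ((ζ ^ i) ^ (![0, 0, 1] : Fin 3 → ℕ) 1) (pp x v (some R)))
      (tau ((ζ ^ i) ^ (![0, 0, 1] : Fin 3 → ℕ) 2) (pp (c := c) x v none))) = EE x v (some Q) (some R) none := by
    intro i _
    have hw : (ζ ^ i) ^ c.n = 1 := by
      have := C3_w hζ i 1
      rwa [pow_one] at this
    rw [← gcls hc h hw, C3_gen x v i ((![0, 0, 1] : Fin 3 → ℕ) 2) rfl, C3_cst x v i ((![0, 0, 1] : Fin 3 → ℕ) 0) rfl Q,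
      C3_cst x v i ((![0, 0, 1] : Fin 3 → ℕ) 1) rfl R]
  rw [Finset.sum_congr rfl h1, Finset.sum_const, Finset.card_range]

end Pool.Agent.LibGS7
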