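import Pool.Agent.LibGS7.C3
import Pool.Agent.LibCW77.GS3

/-!
[GS7 C5] `P_j (GS) = 0`. `ee` is the point `(a_0, 0)`; `ctp N (ee hc).1 = e0 c N` (`map_zero`). With `E = EE x v`, `e = some (ee hc)`, `P = none`:
`P_1 (E P P P) = ∑_i cls (tri (tau (ζ^i) P) P P)` (`op_EE`, `tau_one`) `= n E e P P + n E P e e` by `diag_rel` with `α = ![0, 1, 1]`
(`tri A B C = pat c α .. ..` by `funext`, `fin_cases`; `pat` with `α j = 2` is `e0`), `P_1 (E P P e) = n E e P e + n E P e e` (`α = ![0, 1, 2]`),
`P_1 (E P e P) = n E e e P + n E P e e` (`α = ![0, 2, 1]`), `P_1 (E e P P) = n E e P P` (`op_q1`; `tqi hζ i (ee hc) = ee hc`), `P_1 (E P e e) = n E P e e` (`op_p1`),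
`P_1 (E e P e) = n E e P e`, `P_1 (E e e P) = n E e e P`; sum with the signs of `GA`: `0`. `op_z2`, `op_z3`: the same with the factors permuted
(`α = ![1, 0, 1], ![1, 0, 2], ![2, 0, 1]` and `α = ![1, 1, 0], ![1, 2, 0], ![2, 1, 0]`).
-/

open scoped Classical
open Polynomial

namespace Pool.Agent.LibGS7

open Pool.Agent.LibBH2
open Pool.Agent.LibCHd (VR RF Red FunF)
open Pool.Agent.LibCW77

variable {k : Type} [Field k]

/-- the point `(a_0, 0)` -/
noncomputable def ee {c : Dat k} (hc : c.Good) : CPt c := ⟨![some (c.a 0), some 0], by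
  show (0 : k) ^ c.n * ∏ i, (c.a 0 - c.b i) = ∏ i, (c.a 0 - c.a i)
  rw [zero_pow (by have := hc.two; omega), zero_mul, eq_comm]
  exact Finset.prod_eq_zero (Finset.mem_univ 0) (sub_self _)⟩

private theorem c5_pat (c : Dat k) {M : Type} [Field M] [Algebra k M] (α : Fin 3 → Fin 3) (A B : Fin 2 → Option M) :
    pat c α A B = tri ((![A, B, e0 c M] : Fin 3 → Fin 2 → Option M) (α 0))
      ((![A, B, e0 c M] : Fin 3 → Fin 2 → Option M) (α 1))
      ((![A, B, e0 c M] : Fin 3 → Fin 2 → Option M) (α 2)) := by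
  funext j
  fin_cases j <;> rfl

private theorem c5_tau_e0 (c : Dat k) {M : Type} [Field M] [Algebra k M] (w : k) :
    tau w (e0 c M) = e0 c M := by
  funext j
  fin_cases j
  · rfl
  · change (some (0 : M)).map (fun v => algebraMap k M w * v) = some 0
    simp

theorem ctp_ee {c : Dat k} (hc : c.Good) (N : Type) [Field N] [Algebra k N] : ctp N (ee hc).1 = e0 c N := by
  funext j
  fin_cases j
  · rfl
  · change (some (0 : k)).map (algebraMap k N) = some 0
    simp

theorem tqi_ee {c : Dat k} (hc : c.Good) {ζ : k} (hζ : IsPrimitiveRoot ζ c.n) (i : ℕ) :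
    tqi hζ i (ee hc) = ee hc := by
  apply Subtype.ext
  change tau (ζ ^ i) (ee hc).1 = (ee hc).1
  funext j
  fin_cases j
  · rfl
  · change (some (0 : k)).map (fun v => algebraMap k k (ζ ^ i) * v) = some 0
    simp

theorem op_z1 [IsAlgClosed k] [CharZero k] {c : Dat k} (hc : c.Good) {ζ : k} (hζ : IsPrimitiveRoot ζ c.n)
    {P1 : CH c 3 1 →+ CH c 3 1} (hP : IsOp c ζ ![1, 0, 0] P1) {N : Type} [Field N] [Algebra k N] {x v : N}
    (h : GenC c x v) : P1 (GA (EE x v) (ee hc)) = 0 := by
  have hE : pp x v (some (ee hc)) = e0 c N := ctp_ee hc N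
  have hN : pp x v (none : Option (CPt c)) = ![some x, some v] := rfl
  have h1 : ∀ o1 o2 o3 : Option (CPt c), P1 (EE x v o1 o2 o3) =
      ∑ i ∈ Finset.range c.n, cls c 1 (tri (tau (ζ ^ i) (pp x v o1)) (pp x v o2) (pp x v o3)) := by
    intro o1 o2 o3
    rw [op_EE hc hP h]
    apply Finset.sum_congr rfl
    intro i _
    change cls c 1 (tri (tau ((ζ ^ i) ^ 1) _) (tau ((ζ ^ i) ^ 0) _) (tau ((ζ ^ i) ^ 0) _)) = _
    rw [pow_one, pow_zero, tau_one, tau_one]
  have k1 : P1 (EE x v none none none) =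
      c.n • cls c 1 (tri (e0 c N) ![some x, some v] ![some x, some v]) + c.n • cls c 1 (tri ![some x, some v] (e0 c N) (e0 c N)) := by
    rw [h1]
    simp only [hE, hN]
    have := diag_rel hc hζ h ![0, 1, 1]
    simp only [c5_pat] at this
    exact this
  have k2 : P1 (EE x v none none (some (ee hc))) =
      c.n • cls c 1 (tri (e0 c N) ![some x, some v] (e0 c N)) + c.n • cls c 1 (tri ![some x, some v] (e0 c N) (e0 c N)) := by
    rw [h1]
    simp only [hE, hN]
    have := diag_rel hc hζ h ![0, 1, 2]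
    simp only [c5_pat] at this
    exact this
  have k3 : P1 (EE x v none (some (ee hc)) none) =
      c.n • cls c 1 (tri (e0 c N) (e0 c N) ![some x, some v]) + c.n • cls c 1 (tri ![some x, some v] (e0 c N) (e0 c N)) := by
    rw [h1]
    simp only [hE, hN]
    have := diag_rel hc hζ h ![0, 2, 1]
    simp only [c5_pat] at this
    exact this
  have k4 : P1 (EE x v (some (ee hc)) none none) = c.n • cls c 1 (tri (e0 c N) ![some x, some v] ![some x, some v]) := by
    rw [h1]
    simp only [hE, hN, c5_tau_e0, Finset.sum_const, Finset.card_range]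
  have k5 : P1 (EE x v (some (ee hc)) none (some (ee hc))) = c.n • cls c 1 (tri (e0 c N) ![some x, some v] (e0 c N)) := by
    rw [h1]
    simp only [hE, hN, c5_tau_e0, Finset.sum_const, Finset.card_range]
  have k6 : P1 (EE x v (some (ee hc)) (some (ee hc)) none) = c.n • cls c 1 (tri (e0 c N) (e0 c N) ![some x, some v]) := by
    rw [h1]
    simp only [hE, hN, c5_tau_e0, Finset.sum_const, Finset.card_range]
  have k7 : P1 (EE x v none (some (ee hc)) (some (ee hc))) = c.n • cls c 1 (tri ![some x, some v] (e0 c N) (e0 c N)) := by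
    rw [op_p1 hc hζ hP h]
    simp only [EE, hE, hN]
  simp only [GA, map_add, map_sub, k1, k2, k3, k4, k5, k6, k7]
  abel

theorem op_z2 [IsAlgClosed k] [CharZero k] {c : Dat k} (hc : c.Good) {ζ : k} (hζ : IsPrimitiveRoot ζ c.n)
    {P2 : CH c 3 1 →+ CH c 3 1} (hP : IsOp c ζ ![0, 1, 0] P2) {N : Type} [Field N] [Algebra k N] {x v : N}
    (h : GenC c x v) : P2 (GA (EE x v) (ee hc)) = 0 := by
  have hE : pp x v (some (ee hc)) = e0 c N := ctp_ee hc N
  have hN : pp x v (none : Option (CPt c)) = ![some x, some v] := rfl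
  have h1 : ∀ o1 o2 o3 : Option (CPt c), P2 (EE x v o1 o2 o3) =
      ∑ i ∈ Finset.range c.n, cls c 1 (tri (pp x v o1) (tau (ζ ^ i) (pp x v o2)) (pp x v o3)) := by
    intro o1 o2 o3
    rw [op_EE hc hP h]
    apply Finset.sum_congr rfl
    intro i _
    change cls c 1 (tri (tau ((ζ ^ i) ^ 0) _) (tau ((ζ ^ i) ^ 1) _) (tau ((ζ ^ i) ^ 0) _)) = _
    rw [pow_one, pow_zero, tau_one, tau_one]
  have k1 : P2 (EE x v none none none) =
      c.n • cls c 1 (tri ![some x, some v] (e0 c N) ![some x, some v]) + c.n • cls c 1 (tri (e0 c N) ![some x, some v] (e0 c N)) := by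
    rw [h1]
    simp only [hE, hN]
    have := diag_rel hc hζ h ![1, 0, 1]
    simp only [c5_pat] at this
    exact this
  have k2 : P2 (EE x v none none (some (ee hc))) =
      c.n • cls c 1 (tri ![some x, some v] (e0 c N) (e0 c N)) + c.n • cls c 1 (tri (e0 c N) ![some x, some v] (e0 c N)) := by
    rw [h1]
    simp only [hE, hN]
    have := diag_rel hc hζ h ![1, 0, 2]
    simp only [c5_pat] at this
    exact this
  have k3 : P2 (EE x v (some (ee hc)) none none) =
      c.n • cls c 1 (tri (e0 c N) (e0 c N) ![some x, some v]) + c.n • cls c 1 (tri (e0 c N) ![some x, some v] (e0 c N)) := by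
    rw [h1]
    simp only [hE, hN]
    have := diag_rel hc hζ h ![2, 0, 1]
    simp only [c5_pat] at this
    exact this
  have k4 : P2 (EE x v none (some (ee hc)) none) = c.n • cls c 1 (tri ![some x, some v] (e0 c N) ![some x, some v]) := by
    rw [h1]
    simp only [hE, hN, c5_tau_e0, Finset.sum_const, Finset.card_range]
  have k5 : P2 (EE x v none (some (ee hc)) (some (ee hc))) = c.n • cls c 1 (tri ![some x, some v] (e0 c N) (e0 c N)) := by
    rw [h1]
    simp only [hE, hN, c5_tau_e0, Finset.sum_const, Finset.card_range]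
  have k6 : P2 (EE x v (some (ee hc)) (some (ee hc)) none) = c.n • cls c 1 (tri (e0 c N) (e0 c N) ![some x, some v]) := by
    rw [h1]
    simp only [hE, hN, c5_tau_e0, Finset.sum_const, Finset.card_range]
  have k7 : P2 (EE x v (some (ee hc)) none (some (ee hc))) = c.n • cls c 1 (tri (e0 c N) ![some x, some v] (e0 c N)) := by
    rw [op_p2 hc hζ hP h]
    simp only [EE, hE, hN]
  simp only [GA, map_add, map_sub, k1, k2, k3, k4, k5, k6, k7]
  abel

theorem op_z3 [IsAlgClosed k] [CharZero k] {c : Dat k} (hc : c.Good) {ζ : k} (hζ : IsPrimitiveRoot ζ c.n)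
    {P3 : CH c 3 1 →+ CH c 3 1} (hP : IsOp c ζ ![0, 0, 1] P3) {N : Type} [Field N] [Algebra k N] {x v : N}
    (h : GenC c x v) : P3 (GA (EE x v) (ee hc)) = 0 := by
  have hE : pp x v (some (ee hc)) = e0 c N := ctp_ee hc N
  have hN : pp x v (none : Option (CPt c)) = ![some x, some v] := rfl
  have h1 : ∀ o1 o2 o3 : Option (CPt c), P3 (EE x v o1 o2 o3) =
      ∑ i ∈ Finset.range c.n, cls c 1 (tri (pp x v o1) (pp x v o2) (tau (ζ ^ i) (pp x v o3))) := by
    intro o1 o2 o3
    rw [op_EE hc hP h]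
    apply Finset.sum_congr rfl
    intro i _
    change cls c 1 (tri (tau ((ζ ^ i) ^ 0) _) (tau ((ζ ^ i) ^ 0) _) (tau ((ζ ^ i) ^ 1) _)) = _
    rw [pow_one, pow_zero, tau_one, tau_one]
  have k1 : P3 (EE x v none none none) =
      c.n • cls c 1 (tri ![some x, some v] ![some x, some v] (e0 c N)) + c.n • cls c 1 (tri (e0 c N) (e0 c N) ![some x, some v]) := by
    rw [h1]
    simp only [hE, hN]
    have := diag_rel hc hζ h ![1, 1, 0]
    simp only [c5_pat] at this
    exact this
  have k2 : P3 (EE x v none (some (ee hc)) none) =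
      c.n • cls c 1 (tri ![some x, some v] (e0 c N) (e0 c N)) + c.n • cls c 1 (tri (e0 c N) (e0 c N) ![some x, some v]) := by
    rw [h1]
    simp only [hE, hN]
    have := diag_rel hc hζ h ![1, 2, 0]
    simp only [c5_pat] at this
    exact this
  have k3 : P3 (EE x v (some (ee hc)) none none) =
      c.n • cls c 1 (tri (e0 c N) ![some x, some v] (e0 c N)) + c.n • cls c 1 (tri (e0 c N) (e0 c N) ![some x, some v]) := by
    rw [h1]
    simp only [hE, hN]
    have := diag_rel hc hζ h ![2, 1, 0]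
    simp only [c5_pat] at this
    exact this
  have k4 : P3 (EE x v none none (some (ee hc))) = c.n • cls c 1 (tri ![some x, some v] ![some x, some v] (e0 c N)) := by
    rw [h1]
    simp only [hE, hN, c5_tau_e0, Finset.sum_const, Finset.card_range]
  have k5 : P3 (EE x v none (some (ee hc)) (some (ee hc))) = c.n • cls c 1 (tri ![some x, some v] (e0 c N) (e0 c N)) := by
    rw [h1]
    simp only [hE, hN, c5_tau_e0, Finset.sum_const, Finset.card_range]
  have k6 : P3 (EE x v (some (ee hc)) none (some (ee hc))) = c.n • cls c 1 (tri (e0 c N) ![some x, some v] (e0 c N)) := by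
    rw [h1]
    simp only [hE, hN, c5_tau_e0, Finset.sum_const, Finset.card_range]
  have k7 : P3 (EE x v (some (ee hc)) (some (ee hc)) none) = c.n • cls c 1 (tri (e0 c N) (e0 c N) ![some x, some v]) := by
    rw [op_p3 hc hζ hP h]
    simp only [EE, hE, hN]
  simp only [GA, map_add, map_sub, k1, k2, k3, k4, k5, k6, k7]
  abel

end Pool.Agent.LibGS7
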