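import Pool.Agent.LibGS7.A1
import Pool.Agent.LibGS7.C2
import Pool.Agent.LibGS7.C5

/-!
[GS7 C6] The theorem on `C`.
-/

open scoped Classical
open Polynomial

namespace Pool.Agent.LibGS7

open Pool.Agent.LibBH2
open Pool.Agent.LibCHd (VR RF Red FunF)
open Pool.Agent.LibCW77

variable {k : Type} [Field k]

private theorem C6_110 {c : Dat k} {N : Type} [Field N] [Algebra k N] (x v : N) (A : Fin 2 → Option N) :
    tri ![some x, some v] ![some x, some v] A = pat c ![1, 1, 0] A ![some x, some v] := by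
  funext j
  fin_cases j <;> rfl

private theorem C6_101 {c : Dat k} {N : Type} [Field N] [Algebra k N] (x v : N) (A : Fin 2 → Option N) :
    tri ![some x, some v] A ![some x, some v] = pat c ![1, 0, 1] A ![some x, some v] := by
  funext j
  fin_cases j <;> rfl

private theorem C6_011 {c : Dat k} {N : Type} [Field N] [Algebra k N] (x v : N) (A : Fin 2 → Option N) :
    tri A ![some x, some v] ![some x, some v] = pat c ![0, 1, 1] A ![some x, some v] := by
  funext j
  fin_cases j <;> rfl

theorem abs_all [IsAlgClosed k] [CharZero k] {c : Dat k} (hc : c.Good) {ζ : k} (hζ : IsPrimitiveRoot ζ c.n)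
    {N : Type} [Field N] [Algebra k N] {x v : N} (h : GenC c x v) :
    ∃ S P1 P2 P3 : CH c 3 1 →+ CH c 3 1, Abs c.n (EE x v) (ee hc) (tqi hζ) S P1 P2 P3 := by
  obtain ⟨S, hS⟩ := exists_op hc hζ ![1, 1, 1]
  obtain ⟨P1, h1⟩ := exists_op hc hζ ![1, 0, 0]
  obtain ⟨P2, h2⟩ := exists_op hc hζ ![0, 1, 0]
  obtain ⟨P3, h3⟩ := exists_op hc hζ ![0, 0, 1]
  have hfib : ∀ (α : Fin 3 → Fin 3) (Q : CPt c), ∑ i ∈ Finset.range c.n,
      cls c 1 (pat c α (ctp N (tqi hζ i Q).1) ![some x, some v]) =
        c.n • cls c 1 (pat c α (ctp N (ee hc).1) ![some x, some v]) := by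
    intro α Q
    rw [ctp_ee]
    exact fib_rel hc hζ h α Q.2
  refine ⟨S, P1, P2, P3, ?_⟩
  constructor
  · have := hc.two
    omega
  · rw [op_S hc hζ hS h]
    simp only [Option.map_none, Finset.sum_const, Finset.card_range]
  · intro Q
    rw [op_S hc hζ hS h]
    simp only [Option.map_none, Option.map_some]
    unfold EE pp
    simp only [C6_110 (c := c)]
    exact hfib _ Q
  · intro Q
    rw [op_S hc hζ hS h]
    simp only [Option.map_none, Option.map_some]
    unfold EE pp
    simp only [C6_101 (c := c)]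
    exact hfib _ Q
  · intro Q
    rw [op_S hc hζ hS h]
    simp only [Option.map_none, Option.map_some]
    unfold EE pp
    simp only [C6_011 (c := c)]
    exact hfib _ Q
  · intro Q R
    rw [op_S hc hζ hS h]
    simp only [Option.map_none, Option.map_some]
  · intro Q R
    rw [op_S hc hζ hS h]
    simp only [Option.map_none, Option.map_some]
  · intro Q R
    rw [op_S hc hζ hS h]
    simp only [Option.map_none, Option.map_some]
  · intro Q R
    exact op_p1 hc hζ h1 h Q R
  · intro Q R
    exact op_p2 hc hζ h2 h Q R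
  · intro Q R
    exact op_p3 hc hζ h3 h Q R
  · intro Q o o'
    exact op_q1 hc hζ h1 h Q o o'
  · intro Q o o'
    exact op_q2 hc hζ h2 h Q o o'
  · exact op_z1 hc hζ h1 h
  · exact op_z2 hc hζ h2 h
  · exact op_z3 hc hζ h3 h

theorem ga_GS {c : Dat k} (hc : c.Good) {N : Type} [Field N] [Algebra k N] (x v : N) :
    GA (EE x v) (ee hc) = GS c ![some x, some v] := by
  unfold GA GS EE pp
  simp only [ctp_ee]

theorem gd_tors [IsAlgClosed k] [CharZero k] {c : Dat k} (hc : c.Good) {N : Type} [Field N] [Algebra k N]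
    {x v : N} (h : GenC c x v) {ι : Type} (s : Finset ι) (a : ι → ℤ) (Q : ι → CPt c) (hm : ∑ i ∈ s, a i ≠ 0)
    (ht : IsOfFinAddOrder (GD (EE x v) s a Q)) : IsOfFinAddOrder (GS c ![some x, some v]) := by
  have : NeZero (c.n : k) := ⟨by
    have h1 := hc.two
    have h2 : c.n ≠ 0 := by omega
    exact_mod_cast h2⟩
  obtain ⟨ζ, hζ⟩ := HasEnoughRootsOfUnity.exists_primitiveRoot k c.n
  obtain ⟨S, P1, P2, P3, hA⟩ := abs_all hc hζ h
  have h1 := abs_main hA s a Q hm ht
  rw [ga_GS] at h1
  exact h1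

end Pool.Agent.LibGS7
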