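import Pool.Agent.LibCW77.GDefs

/-!
The smooth projective curve `X` with the function field `L`, cycles on the powers of `X`, and the modified diagonal
cycles of `X` for all base divisors.

A point of `X` with values in a field `M` is a place of `L` with values in `M`: a map `φ : L → M ∪ {∞}` (`IsPl`; the value
`∞` is `none`). A closed integral subvariety of dimension `d` of `X ^ m` is given by its generic point, a point with
values in a function field `M` of dimension `d`. The definitions are those of `LibCW77/Defs.lean`, with all functions in `L`
as coordinates.
-/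

open scoped Classical
open Polynomial

namespace Pool.Agent.LibGS7

open Pool.Agent.LibBH2
open Pool.Agent.LibCHd (VR RF Red FunF)
open Pool.Agent.LibCW77

/-- `φ` is a place of `L` with values in `M`, trivial on `k`: a point with values in `M` of the smooth projective curve
with the function field `L` -/
structure IsPl (k : Type) [Field k] {L M : Type} [Field L] [Algebra k L] [Field M] [Algebra k M]
    (φ : L → Option M) : Prop where
  const : ∀ c : k, φ (algebraMap k L c) = some (algebraMap k M c)
  add : ∀ f g a b, φ f = some a → φ g = some b → φ (f + g) = some (a + b)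
  mul : ∀ f g a b, φ f = some a → φ g = some b → φ (f * g) = some (a * b)
  inv : ∀ f, φ f = none → φ f⁻¹ = some 0

section cycles

variable {L : Type} {m : ℕ} {M : Type} [Field M]

/-- `m`-tuples of maps from `L` to `M ∪ {∞}`: `u j f` is the value of the function `f` at the point number `j` -/
abbrev XPt (m : ℕ) (L M : Type) : Type := Fin m → L → Option M

/-- `u` is a point of `X ^ m` -/
def XOn (k : Type) [Field k] [Field L] [Algebra k L] [Algebra k M] (u : XPt m L M) : Prop := ∀ j, IsPl k (u j)

/-- All affine coordinates of a point (zero for the coordinates at infinity). -/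
def xco (u : XPt m L M) (q : Fin m × L) : M := (u q.1 q.2).getD 0

/-- The closed subvariety with the generic point `u`: the set of the coordinates at infinity and the ideal of the
polynomial relations between the affine coordinates. -/
noncomputable def xeqs (k : Type) [Field k] [Algebra k M] (u : XPt m L M) :
    Set (Fin m × L) × Set (MvPolynomial (Fin m × L) k) :=
  ({q | u q.1 q.2 = none}, {G | MvPolynomial.aeval (xco u) G = 0})

/-- The field generated by the coordinates of `u`: the function field of the subvariety. -/
noncomputable def xfld (k : Type) [Field k] [Algebra k M] (u : XPt m L M) : IntermediateField k M :=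
  IntermediateField.adjoin k (Set.range (xco u))

/-- Cycles: formal integral combinations of closed subvarieties, each given as in `xeqs` (pairs which are not of the
form `xeqs u` play no role). -/
abbrev XCyc (k : Type) [Field k] (L : Type) (m : ℕ) : Type :=
  (Set (Fin m × L) × Set (MvPolynomial (Fin m × L) k)) →₀ ℤ

/-- The cycle of the point `u`: the subvariety with the generic point `u`, with the multiplicity `[M : k(u)]` if
this degree is finite, and `0` otherwise (push-forward of the fundamental cycle of a model of `M`). -/
noncomputable def xcyc (k : Type) [Field k] [Algebra k M] (u : XPt m L M) : XCyc k L m :=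
  Finsupp.single (xeqs k u) (Module.finrank (xfld k u) M : ℤ)

/-- `q` is the specialisation of the point `u` at the place `v`. -/
def XSpP {k : Type} [Field k] {K : Type} [Field K] [Algebra k K] (v : Place k K) (u : XPt m L K)
    (q : XPt m L (RF v)) : Prop :=
  ∀ j f, SpO v (u j f) (q j f)

/-- `e` is the push-forward of the divisor of a function `g`: `K` is a function field of dimension `d + 1`, `u` a
`K`-point of `X ^ m` (a rational map from a model of `K`), and `e` is the sum over the places `v` of `K` whose
residue field is a function field of dimension `d` of `ord_v g` times the cycle of the specialisation of `u`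
at `v`. -/
def XIsDiv (k : Type) [Field k] (L : Type) [Field L] [Algebra k L] (m d : ℕ) (e : XCyc k L m) : Prop :=
  ∃ (K : Type) (_ : Field K) (_ : Algebra k K) (u : XPt m L K) (g : K) (S : Finset (Place k K))
    (E : Place k K → XCyc k L m),
    FunF k (d + 1) K ∧ XOn k u ∧ g ≠ 0 ∧
    (∀ v ∈ S, FunF k d (RF v) ∧ ∃ q : XPt m L (RF v), XSpP v u q ∧ E v = xcyc k q) ∧
    (∀ v, v ∉ S → v.ord g ≠ 0 → FunF k d (RF v) → ∀ q : XPt m L (RF v), XSpP v u q → xcyc k q = 0) ∧
    e = ∑ v ∈ S, v.ord g • E v

/-- The cycles of dimension `d` rationally equivalent to zero. -/
noncomputable def XRatEq (k : Type) [Field k] (L : Type) [Field L] [Algebra k L] (m d : ℕ) :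
    AddSubgroup (XCyc k L m) :=
  AddSubgroup.closure {e | XIsDiv k L m d e}

/-- The Chow group `CH_d(X ^ m)`: cycles modulo rational equivalence. -/
abbrev XCH (k : Type) [Field k] (L : Type) [Field L] [Algebra k L] (m d : ℕ) : Type := XCyc k L m ⧸ XRatEq k L m d

/-- The class of the cycle of the point `u`. -/
noncomputable def xcls (k : Type) [Field k] [Field L] [Algebra k L] [Algebra k M] (d : ℕ) (u : XPt m L M) :
    XCH k L m d :=
  QuotientAddGroup.mk (xcyc k u)

end cycles

section diagonal

variable {k : Type} [Field k] {L : Type} [Field L] [Algebra k L]

/-- the divisors on `X`, for algebraically closed `k`: integral combinations of `k`-points -/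
abbrev XDv (k : Type) [Field k] (L : Type) [Field L] [Algebra k L] : Type := {p : L → Option k // IsPl k p} →₀ ℤ

/-- degree of a divisor -/
noncomputable def xdeg (D : XDv k L) : ℤ := ∑ p ∈ D.support, D p

/-- the constant point `p` over `L` -/
def xct (p : L → Option k) : L → Option L := fun f => (p f).map (algebraMap k L)

/-- a triple of points -/
def xtri {M : Type} (P Q R : L → Option M) : XPt 3 L M := ![P, Q, R]

/-- the generic point of `X` -/
def xgen (L : Type) : L → Option L := some

/-- The modified diagonal cycle (Gross-Schoen cycle) of `X` for the base divisor `D` of degree `m`, multiplied by `m ^ 2`: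
`m ^ 2 Δ - m (Δ_12 × D + Δ_13 × D + Δ_23 × D) + (X × D × D + D × X × D + D × D × X)`. -/
noncomputable def GSX (D : XDv k L) : XCH k L 3 1 :=
  xdeg D ^ 2 • xcls k 1 (xtri (xgen L) (xgen L) (xgen L)) -
    xdeg D • ∑ p ∈ D.support, D p • (xcls k 1 (xtri (xgen L) (xgen L) (xct p.1)) +
      xcls k 1 (xtri (xgen L) (xct p.1) (xgen L)) + xcls k 1 (xtri (xct p.1) (xgen L) (xgen L))) +
    ∑ p ∈ D.support, ∑ q ∈ D.support, (D p * D q) • (xcls k 1 (xtri (xgen L) (xct p.1) (xct q.1)) +
      xcls k 1 (xtri (xct p.1) (xgen L) (xct q.1)) + xcls k 1 (xtri (xct p.1) (xct q.1) (xgen L)))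

end diagonal

section final

variable {k : Type} [Field k]

/-- `L` is the function field of a curve `X`, and `(x, v)` is a nonconstant map from `X` to the curve `C` of `c` -/
structure Cov (c : Dat k) {L : Type} [Field L] [Algebra k L] (x v : L) : Prop where
  fun1 : FunF k 1 L
  tr : Transcendental k x
  on : OnC (c.over L) (some x) (some v)

/-- For every smooth projective curve `X` with a nonconstant map to the curve `C` of `c` (there are such curves) there are
divisors of degree `1`, and the modified diagonal cycle of `X` has infinite order for every divisor of degree different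
from `0`. -/
def AllInf (c : Dat k) : Prop :=
  (∃ (L : Type) (_ : Field L) (_ : Algebra k L) (x v : L), Cov c x v) ∧
  ∀ (L : Type) [Field L] [Algebra k L] (x v : L), Cov c x v →
    (∃ D : XDv k L, xdeg D = 1) ∧ ∀ D : XDv k L, xdeg D ≠ 0 → ¬ IsOfFinAddOrder (GSX D)

end final

end Pool.Agent.LibGS7
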