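import Pool.Agent.LibGS7.Defs

/-!
Auxiliary definitions on the curve `C`: constant points and the generic point.
-/

open scoped Classical
open Polynomial

namespace Pool.Agent.LibGS7

open Pool.Agent.LibBH2
open Pool.Agent.LibCHd (VR RF Red FunF)
open Pool.Agent.LibCW77

variable {k : Type} [Field k]

/-- the points of the curve over `k` -/
abbrev CPt (c : Dat k) : Type := {Q : Fin 2 → Option k // OnC c (Q 0) (Q 1)}

/-- the generic point `(x, v)` (`none`) or a constant point -/
def pp {c : Dat k} {N : Type} [Field N] [Algebra k N] (x v : N) : Option (CPt c) → Fin 2 → Option N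
  | none => ![some x, some v]
  | some Q => ctp N Q.1

/-- the class of a triple of points, each generic or constant -/
noncomputable def EE {c : Dat k} {N : Type} [Field N] [Algebra k N] (x v : N) (o₁ o₂ o₃ : Option (CPt c)) :
    CH c 3 1 :=
  cls c 1 (tri (pp x v o₁) (pp x v o₂) (pp x v o₃))

/-- the modified diagonal cycle for the point `e`, abstractly -/
def GA {G Pt : Type} [AddCommGroup G] (E : Option Pt → Option Pt → Option Pt → G) (e : Pt) : G :=
  E none none none - E none none (some e) - E none (some e) none - E (some e) none none +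
    E none (some e) (some e) + E (some e) none (some e) + E (some e) (some e) none

/-- `m ^ 2` times the modified diagonal cycle for the divisor `∑ a_i Q_i` of degree `m`, abstractly -/
def GD {G Pt ι : Type} [AddCommGroup G] (E : Option Pt → Option Pt → Option Pt → G) (s : Finset ι) (a : ι → ℤ)
    (Q : ι → Pt) : G :=
  (∑ i ∈ s, a i) ^ 2 • E none none none -
    (∑ i ∈ s, a i) • ∑ i ∈ s, a i • (E none none (some (Q i)) + E none (some (Q i)) none + E (some (Q i)) none none) +
    ∑ i ∈ s, ∑ j ∈ s, (a i * a j) • (E none (some (Q i)) (some (Q j)) + E (some (Q i)) none (some (Q j)) +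
      E (some (Q i)) (some (Q j)) none)

/-- the abstract relations: `S` is the sum of the powers of `(τ, τ, τ)`, `P_j` the sum of the powers of `τ` on the
factor number `j`, `t i` is `τ ^ i` on points -/
structure Abs {G Pt : Type} [AddCommGroup G] (n : ℕ) (E : Option Pt → Option Pt → Option Pt → G) (e : Pt)
    (t : ℕ → Pt → Pt) (S P1 P2 P3 : G →+ G) : Prop where
  n0 : n ≠ 0
  s0 : S (E none none none) = n • E none none none
  s3 : ∀ Q, S (E none none (some Q)) = n • E none none (some e)
  s2 : ∀ Q, S (E none (some Q) none) = n • E none (some e) none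
  s1 : ∀ Q, S (E (some Q) none none) = n • E (some e) none none
  s23 : ∀ Q R, S (E none (some Q) (some R)) = ∑ i ∈ Finset.range n, E none (some (t i Q)) (some (t i R))
  s13 : ∀ Q R, S (E (some Q) none (some R)) = ∑ i ∈ Finset.range n, E (some (t i Q)) none (some (t i R))
  s12 : ∀ Q R, S (E (some Q) (some R) none) = ∑ i ∈ Finset.range n, E (some (t i Q)) (some (t i R)) none
  p1 : ∀ Q R, P1 (E none (some Q) (some R)) = n • E none (some Q) (some R)
  p2 : ∀ Q R, P2 (E (some Q) none (some R)) = n • E (some Q) none (some R)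
  p3 : ∀ Q R, P3 (E (some Q) (some R) none) = n • E (some Q) (some R) none
  q1 : ∀ Q o o', P1 (E (some Q) o o') = ∑ i ∈ Finset.range n, E (some (t i Q)) o o'
  q2 : ∀ Q o o', P2 (E o (some Q) o') = ∑ i ∈ Finset.range n, E o (some (t i Q)) o'
  z1 : P1 (GA E e) = 0
  z2 : P2 (GA E e) = 0
  z3 : P3 (GA E e) = 0

/-- the sum of the powers of the translation `(τ ^ f_0, τ ^ f_1, τ ^ f_2)` -/
def IsOp (c : Dat k) (ζ : k) (f : Fin 3 → ℕ) (T : CH c 3 1 →+ CH c 3 1) : Prop :=
  ∀ (M : Type) [Field M] [Algebra k M] (u : Pnt 3 M), FunF k 1 M → On (c.over M) u →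
    T (cls c 1 u) = ∑ i ∈ Finset.range c.n, cls c 1 (tw (fun j => (ζ ^ i) ^ f j) u)

end Pool.Agent.LibGS7
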