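import Pool.Agent.LibGS7.Defs
import Pool.Agent.LibHL77.Z1
import Pool.Agent.LibCHd.A

/-!
[GS7 X8] There are points on `X` (`k` algebraically closed). `pl_of_place`: `φ f = some c` if `Red w f (algebraMap k (RF w) c)` (`c` by choice;
unique by `Red.unique` and injectivity of `algebraMap k (RF w)`), `none` if `¬ w.Reg f` (API LibCHd.Api: `exists_red`, `Red.add`, `Red.mul`,
`red_const`, `red_iff_sub`, `red_zero`). `exists_xpl`: `t` transcendental from `hL` (`⟨t, ht, _⟩ := hL`, `t 0`), `sum_zeros' hL (t 0)` (LibHL77/Z1) gives a place `w` (the sum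
is `finrank (adjoin k {t 0}) L ≠ 0`, so `S` is not empty), `res_finite hL w`, `funF_zero`: `RF w` is finite over `k`, so `algebraMap k (RF w)` is surjective
(`IsAlgClosed.algebraMap_bijective_of_isIntegral`); or use `rat_of_funF` (LibCHd/A.lean). `exists_deg1`: `Finsupp.single p 1`.
-/

open scoped Classical
open Polynomial

namespace Pool.Agent.LibGS7

open Pool.Agent.LibBH2
open Pool.Agent.LibCHd (VR RF Red FunF)
open Pool.Agent.LibCW77

variable {k : Type} [Field k]

theorem pl_of_place {L : Type} [Field L] [Algebra k L] (w : Place k L)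
    (hs : Function.Surjective (algebraMap k (RF w))) : ∃ φ : L → Option k, IsPl k φ := by
  obtain ⟨φ, hφ⟩ : ∃ φ : L → Option k, φ = fun f =>
      if h : ∃ c : k, Red w f (algebraMap k (RF w) c) then some h.choose else none := ⟨_, rfl⟩
  have h1 : ∀ f a, Red w f (algebraMap k (RF w) a) → φ f = some a := by
    intro f a hfa
    have hex : ∃ c : k, Red w f (algebraMap k (RF w) c) := ⟨a, hfa⟩
    have h2 : φ f = some hex.choose := by
      rw [hφ]
      exact dif_pos hex
    rw [h2, (algebraMap k (RF w)).injective (hex.choose_spec.unique hfa)]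
  have h3 : ∀ f a, φ f = some a → Red w f (algebraMap k (RF w) a) := by
    intro f a hfa
    by_cases hex : ∃ c : k, Red w f (algebraMap k (RF w) c)
    · have h2 : φ f = some hex.choose := by
        rw [hφ]
        exact dif_pos hex
      rw [h2] at hfa
      rw [← Option.some.inj hfa]
      exact hex.choose_spec
    · have h2 : φ f = none := by
        rw [hφ]
        exact dif_neg hex
      rw [h2] at hfa
      cases hfa
  refine ⟨φ, ?_, ?_, ?_, ?_⟩
  · intro c
    exact h1 _ _ (Pool.Agent.LibCHd.red_const w c)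
  · intro f g a b hf hg
    apply h1
    rw [map_add]
    exact (h3 f a hf).add (h3 g b hg)
  · intro f g a b hf hg
    apply h1
    rw [map_mul]
    exact (h3 f a hf).mul (h3 g b hg)
  · intro f hf
    have hreg : ¬ w.Reg f := by
      intro hr
      obtain ⟨c, hc⟩ := Pool.Agent.LibCHd.exists_red hr
      obtain ⟨a, rfl⟩ := hs c
      rw [h1 f a hc] at hf
      cases hf
    apply h1
    rw [map_zero, Pool.Agent.LibCHd.red_zero_iff]
    have h4 : ¬ (f = 0 ∨ 0 ≤ w.ord f) := hreg
    push Not at h4
    refine Or.inr ?_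
    rw [w.ord_inv]
    omega

theorem exists_xpl [IsAlgClosed k] [CharZero k] {L : Type} [Field L] [Algebra k L] (hL : FunF k 1 L) :
    ∃ φ : L → Option k, IsPl k φ := by
  obtain ⟨t, ht, hfd⟩ := hL
  have hL' : FunF k 1 L := ⟨t, ht, hfd⟩
  have hr : Set.range t = {t 0} := by
    ext x
    constructor
    · rintro ⟨i, rfl⟩
      rw [Subsingleton.elim i 0]
      rfl
    · intro hx
      exact ⟨0, hx.symm⟩
  rw [hr] at hfd
  obtain ⟨S, hS, hsum⟩ := Pool.Agent.LibHL77.sum_zeros' hL' (t 0) (ht.transcendental 0)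
  have hpos : 0 < Module.finrank (IntermediateField.adjoin k {t 0}) L := Module.finrank_pos
  have hne : S.Nonempty := by
    by_contra h
    rw [Finset.not_nonempty_iff_eq_empty] at h
    rw [h, Finset.sum_empty] at hsum
    omega
  obtain ⟨w, -⟩ := hne
  haveI : FiniteDimensional k (RF w) :=
    Pool.Agent.LibHL77.funF_zero.1 (Pool.Agent.LibHL77.res_finite hL' w)
  exact pl_of_place w (IsAlgClosed.algebraMap_bijective_of_isIntegral (k := k) (K := RF w)).2

theorem exists_deg1 [IsAlgClosed k] [CharZero k] {L : Type} [Field L] [Algebra k L] (hL : FunF k 1 L) :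
    ∃ D : XDv k L, xdeg D = 1 := by
  obtain ⟨φ, hφ⟩ := exists_xpl hL
  refine ⟨Finsupp.single ⟨φ, hφ⟩ 1, ?_⟩
  unfold xdeg
  rw [Finsupp.support_single _ (by norm_num), Finset.sum_singleton, Finsupp.single_eq_same]

end Pool.Agent.LibGS7
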