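import Pool.Agent.LibGS7.X7
import Pool.Agent.LibGS7.X8
import Pool.Agent.LibGS7.C6

/-!
[GS7 F] The main theorem. `genC_exists hc` (LibCW77/C1) gives `N`, `x`, `v` with `GenC c x v`, and `Cov c x v` by `genC_funF`. For a `Cov c x v`: `exists_deg1`;
if `GSX D` has finite order then `gsx_push`, `gd_tors` with `cov_gen` and `hm` = `hD` (`xdeg` unfolds) give finite order of `GS c ![some gx, some gv]`, and
`hG.2 _ _ _ (cov_gen h)` a contradiction.
-/

open scoped Classical
open Polynomial

namespace Pool.Agent.LibGS7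

open Pool.Agent.LibBH2
open Pool.Agent.LibCHd (VR RF Red FunF)
open Pool.Agent.LibCW77

variable {k : Type} [Field k]

theorem allInf [IsAlgClosed k] [CharZero k] {c : Dat k} (hc : c.Good) (hG : GSIff c False) : AllInf c := by
  refine ⟨?_, ?_⟩
  · obtain ⟨N, iF, iA, x, v, h⟩ := genC_exists hc
    exact ⟨N, iF, iA, x, v, (genC_funF hc h).1, h.tr, h.on⟩
  · intro L _ _ x v h
    refine ⟨exists_deg1 h.fun1, fun D hD ht => ?_⟩
    have h1 := gsx_push hc h D ht
    have h2 := gd_tors hc (cov_gen h) D.support (fun p => D p) (cq hc h) hD h1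
    exact (hG.2 (KK k x v) (gx k x v) (gv k x v) (cov_gen h)).1 h2

end Pool.Agent.LibGS7
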