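import Pool.Agent.LibGS7.Defs

/-!
[GS7 X1] Base change of points and cycles of `X ^ m`. COPY of `LibCW77/D2.lean` (`D2_co_map`, `eqs_map`, `D2_fld_map`, `cyc_map`,
`cls_map`, `D2_mem`, `exists_min`) with the index type `Fin m × L` instead of `Fin m × Fin 2`, `xco`, `xeqs`, `xfld`, `xcyc`,
`xcls` instead of `co`, ... `mpX_pl`: both directions from injectivity of `σ` (`Option.map`; `(φ f).map σ = some b'` gives
`φ f = some a`, `σ a = b'`).
-/

open scoped Classical
open Polynomial

namespace Pool.Agent.LibGS7

open Pool.Agent.LibBH2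
open Pool.Agent.LibCHd (VR RF Red FunF)
open Pool.Agent.LibCW77

variable {k : Type} [Field k]

/-- change of the field of the values -/
def mpX {m : ℕ} {L M M' : Type} (σ : M → M') (u : XPt m L M) : XPt m L M' := fun j f => (u j f).map σ

theorem mpX_on {m : ℕ} {L M M' : Type} [Field L] [Algebra k L] [Field M] [Algebra k M] [Field M'] [Algebra k M']
    (σ : M →ₐ[k] M') {u : XPt m L M} : XOn k (mpX σ u) ↔ XOn k u := by
  refine forall_congr' fun j => ?_
  have key : ∀ (f : L) (a : M), ((u j f).map σ = some (σ a)) ↔ u j f = some a := by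
    intro f a
    constructor
    · intro h
      obtain ⟨c, hc, hc2⟩ := Option.map_eq_some_iff.1 h
      rw [hc, σ.injective hc2]
    · intro h
      rw [h]
      rfl
  constructor
  · intro h
    refine ⟨?_, ?_, ?_, ?_⟩
    · intro c
      refine (key _ _).1 ?_
      rw [σ.commutes]
      exact h.const c
    · intro f g a b hf hg
      refine (key _ _).1 ?_
      rw [map_add]
      exact h.add f g _ _ ((key _ _).2 hf) ((key _ _).2 hg)
    · intro f g a b hf hg
      refine (key _ _).1 ?_
      rw [map_mul]
      exact h.mul f g _ _ ((key _ _).2 hf) ((key _ _).2 hg)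
    · intro f hf
      refine (key _ _).1 ?_
      rw [map_zero]
      refine h.inv f ?_
      show (u j f).map σ = none
      rw [hf]
      rfl
  · intro h
    refine ⟨?_, ?_, ?_, ?_⟩
    · intro c
      show (u j _).map σ = _
      rw [h.const c]
      exact congrArg some (σ.commutes c)
    · intro f g a' b' hf hg
      obtain ⟨a, ha, rfl⟩ := Option.map_eq_some_iff.1 hf
      obtain ⟨b, hb, rfl⟩ := Option.map_eq_some_iff.1 hg
      show (u j _).map σ = _
      rw [h.add f g a b ha hb]
      exact congrArg some (map_add σ a b)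
    · intro f g a' b' hf hg
      obtain ⟨a, ha, rfl⟩ := Option.map_eq_some_iff.1 hf
      obtain ⟨b, hb, rfl⟩ := Option.map_eq_some_iff.1 hg
      show (u j _).map σ = _
      rw [h.mul f g a b ha hb]
      exact congrArg some (map_mul σ a b)
    · intro f hf
      have h1 : u j f = none := Option.map_eq_none_iff.1 hf
      show (u j _).map σ = _
      rw [h.inv f h1]
      exact congrArg some (map_zero σ)

private theorem X1_co_map {m : ℕ} {L M M' : Type} [Field M] [Algebra k M] [Field M'] [Algebra k M']
    (σ : M →ₐ[k] M') (u : XPt m L M) : xco (mpX σ u) = fun q => σ (xco u q) := by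
  funext q
  change ((u q.1 q.2).map σ).getD 0 = σ ((u q.1 q.2).getD 0)
  cases u q.1 q.2 with
  | none => exact (map_zero σ).symm
  | some v => rfl

theorem xeqs_map {m : ℕ} {L M M' : Type} [Field M] [Algebra k M] [Field M'] [Algebra k M']
    (σ : M →ₐ[k] M') (u : XPt m L M) : xeqs k (mpX σ u) = xeqs k u := by
  unfold xeqs
  congr 1
  · ext q
    change (u q.1 q.2).map σ = none ↔ u q.1 q.2 = none
    exact Option.map_eq_none_iff
  · ext G
    change MvPolynomial.aeval (xco (mpX σ u)) G = 0 ↔ MvPolynomial.aeval (xco u) G = 0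
    have h2 : MvPolynomial.aeval (xco (mpX σ u)) G = σ (MvPolynomial.aeval (xco u) G) := by
      rw [X1_co_map, ← AlgHom.comp_apply, MvPolynomial.comp_aeval]
    rw [h2, map_eq_zero]

theorem xfld_map {m : ℕ} {L M M' : Type} [Field M] [Algebra k M] [Field M'] [Algebra k M']
    (σ : M →ₐ[k] M') (u : XPt m L M) : xfld k (mpX σ u) = (xfld k u).map σ := by
  unfold xfld
  rw [IntermediateField.adjoin_map, X1_co_map]
  congr 1
  rw [← Set.range_comp]
  rfl

theorem xcyc_map {m : ℕ} {L M M' : Type} [Field M] [Algebra k M] [Field M'] [Algebra k M']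
    (σ : M →ₐ[k] M') (u : XPt m L M) :
    xcyc k (mpX σ u) = (Module.finrank σ.fieldRange M' : ℤ) • xcyc k u := by
  have h1 : Module.finrank (xfld k (mpX σ u)) M' =
      Module.finrank σ.fieldRange M' * Module.finrank (xfld k u) M := by
    rw [xfld_map, AlgHom.fieldRange_eq_map,
      ← IntermediateField.relfinrank_mul_finrank_top (IntermediateField.map_mono σ (le_top :
        xfld k u ≤ ⊤)), IntermediateField.relfinrank_map_map,
      IntermediateField.relfinrank_top_right, mul_comm]
  rw [xcyc, xcyc, xeqs_map, h1, Finsupp.smul_single]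
  congr 1

private theorem X1_mem {m : ℕ} {L M : Type} [Field M] [Algebra k M] (u : XPt m L M) (q : Fin m × L) (x : M)
    (h : u q.1 q.2 = some x) : x ∈ xfld k u := by
  apply IntermediateField.subset_adjoin
  refine ⟨q, ?_⟩
  unfold xco
  rw [h]
  rfl

theorem exists_xmin {m : ℕ} {L M : Type} [Field M] [Algebra k M] (u : XPt m L M) :
    ∃ u₀ : XPt m L (xfld k u), xfld k u₀ = ⊤ ∧ mpX (xfld k u).val u₀ = u := by
  have h1 : ∀ j i, ∃ p : Option (xfld k u), p.map (xfld k u).val = u j i := by
    intro j i
    cases hx : u j i with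
    | none => exact ⟨none, rfl⟩
    | some x => exact ⟨some ⟨x, X1_mem u (j, i) x hx⟩, rfl⟩
  choose u₀ hu₀ using h1
  have h2 : mpX (xfld k u).val u₀ = u := funext fun j => funext fun i => hu₀ j i
  refine ⟨u₀, ?_, h2⟩
  apply IntermediateField.map_injective (xfld k u).val
  have h3 := xfld_map (xfld k u).val u₀
  rw [h2] at h3
  rw [← h3, ← AlgHom.fieldRange_eq_map, IntermediateField.fieldRange_val]

end Pool.Agent.LibGS7
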