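import Pool.Agent.LibGS7.X1

/-!
[GS7 X1b] Two generic points of the same subvariety of `X ^ m`. COPY of `eqs_iso` of `LibCW77/D2.lean` with the index type
`Fin m × L` instead of `Fin m × Fin 2`, `xco`, `xeqs`, `xfld`, `mpX`.
-/

open scoped Classical
open Polynomial

namespace Pool.Agent.LibGS7

open Pool.Agent.LibBH2
open Pool.Agent.LibCHd (VR RF Red FunF)
open Pool.Agent.LibCW77

variable {k : Type} [Field k]

theorem xeqs_iso {m : ℕ} {L M M' : Type} [Field M] [Algebra k M] [Field M'] [Algebra k M'] (u : XPt m L M)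
    (u' : XPt m L M') (hu : xfld k u = ⊤) (hu' : xfld k u' = ⊤) (h : xeqs k u = xeqs k u') :
    ∃ ε : M ≃ₐ[k] M', mpX ε u = u' := by
  have hinf : ∀ q : Fin m × L, u q.1 q.2 = none ↔ u' q.1 q.2 = none := by
    intro q
    have h1 : (xeqs k u).1 = (xeqs k u').1 := by rw [h]
    exact (Set.ext_iff.1 h1) q
  have hrel : ∀ G : MvPolynomial (Fin m × L) k,
      MvPolynomial.aeval (xco u) G = 0 ↔ MvPolynomial.aeval (xco u') G = 0 := by
    intro G
    have h1 : (xeqs k u).2 = (xeqs k u').2 := by rw [h]
    exact (Set.ext_iff.1 h1) G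
  let φ : MvPolynomial (Fin m × L) k →ₐ[k] M := MvPolynomial.aeval (xco u)
  let φ' : MvPolynomial (Fin m × L) k →ₐ[k] M' := MvPolynomial.aeval (xco u')
  let I : Ideal (MvPolynomial (Fin m × L) k) := RingHom.ker φ
  let g : MvPolynomial (Fin m × L) k ⧸ I →ₐ[k] M :=
    Ideal.Quotient.liftₐ I φ (fun a ha => ha)
  let g' : MvPolynomial (Fin m × L) k ⧸ I →ₐ[k] M' :=
    Ideal.Quotient.liftₐ I φ' (fun a ha => (hrel a).1 ha)
  have hg : Function.Injective g := by
    rw [injective_iff_map_eq_zero]
    intro a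
    obtain ⟨G, rfl⟩ := Ideal.Quotient.mk_surjective a
    intro ha
    exact Ideal.Quotient.eq_zero_iff_mem.2 ha
  have hg' : Function.Injective g' := by
    rw [injective_iff_map_eq_zero]
    intro a
    obtain ⟨G, rfl⟩ := Ideal.Quotient.mk_surjective a
    intro ha
    exact Ideal.Quotient.eq_zero_iff_mem.2 ((hrel G).2 ha)
  let _ : Algebra (MvPolynomial (Fin m × L) k ⧸ I) M := (g : _ →+* M).toAlgebra
  let _ : Algebra (MvPolynomial (Fin m × L) k ⧸ I) M' := (g' : _ →+* M').toAlgebra
  have ht : IsScalarTower k (MvPolynomial (Fin m × L) k ⧸ I) M :=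
    IsScalarTower.of_algebraMap_eq fun x => (g.commutes x).symm
  have ht' : IsScalarTower k (MvPolynomial (Fin m × L) k ⧸ I) M' :=
    IsScalarTower.of_algebraMap_eq fun x => (g'.commutes x).symm
  have hf1 : FaithfulSMul (MvPolynomial (Fin m × L) k ⧸ I) M :=
    (faithfulSMul_iff_algebraMap_injective _ _).2 hg
  have hf2 : FaithfulSMul (MvPolynomial (Fin m × L) k ⧸ I) M' :=
    (faithfulSMul_iff_algebraMap_injective _ _).2 hg'
  have hfr : IsFractionRing (MvPolynomial (Fin m × L) k ⧸ I) M := by
    apply IsFractionRing.of_field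
    intro z
    have hz : z ∈ IntermediateField.adjoin k (Set.range (xco u)) := by
      change z ∈ xfld k u
      rw [hu]
      exact IntermediateField.mem_top
    obtain ⟨r, s, hrs⟩ := (IntermediateField.mem_adjoin_range_iff k (xco u) z).1 hz
    exact ⟨Ideal.Quotient.mk I r, Ideal.Quotient.mk I s, hrs⟩
  have hfr' : IsFractionRing (MvPolynomial (Fin m × L) k ⧸ I) M' := by
    apply IsFractionRing.of_field
    intro z
    have hz : z ∈ IntermediateField.adjoin k (Set.range (xco u')) := by
      change z ∈ xfld k u'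
      rw [hu']
      exact IntermediateField.mem_top
    obtain ⟨r, s, hrs⟩ := (IntermediateField.mem_adjoin_range_iff k (xco u') z).1 hz
    exact ⟨Ideal.Quotient.mk I r, Ideal.Quotient.mk I s, hrs⟩
  let ε₀ : M ≃ₐ[MvPolynomial (Fin m × L) k ⧸ I] M' :=
    IsLocalization.algEquiv (nonZeroDivisors (MvPolynomial (Fin m × L) k ⧸ I)) M M'
  refine ⟨ε₀.restrictScalars k, funext fun a => funext fun b => ?_⟩
  have h1 : xco u (a, b) = algebraMap (MvPolynomial (Fin m × L) k ⧸ I) M
      (Ideal.Quotient.mk I (MvPolynomial.X (a, b))) := by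
    change xco u (a, b) = MvPolynomial.aeval (xco u) (MvPolynomial.X (a, b))
    rw [MvPolynomial.aeval_X]
  have h2 : xco u' (a, b) = algebraMap (MvPolynomial (Fin m × L) k ⧸ I) M'
      (Ideal.Quotient.mk I (MvPolynomial.X (a, b))) := by
    change xco u' (a, b) = MvPolynomial.aeval (xco u') (MvPolynomial.X (a, b))
    rw [MvPolynomial.aeval_X]
  have h3 : ε₀ (xco u (a, b)) = xco u' (a, b) := by
    rw [h1, h2]
    exact ε₀.commutes _
  change (u a b).map (ε₀.restrictScalars k) = u' a b
  cases hx : u a b with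
  | none => exact ((hinf (a, b)).1 hx).symm
  | some x =>
    cases hx' : u' a b with
    | none =>
      have h4 := (hinf (a, b)).2 hx'
      rw [show u (a, b).1 (a, b).2 = u a b from rfl, hx] at h4
      cases h4
    | some x' =>
      have h5 : xco u (a, b) = x := by
        change (u a b).getD 0 = x
        rw [hx]
        rfl
      have h6 : xco u' (a, b) = x' := by
        change (u' a b).getD 0 = x'
        rw [hx']
        rfl
      rw [h5, h6] at h3
      exact congrArg some h3

end Pool.Agent.LibGS7
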