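import Pool.Agent.LibGS7.X1
import Pool.Agent.LibCW77.D1

/-!
[GS7 X2] Specialisations of points of `X ^ m`. `xspP_exists`, `xspP_unique`: from `spO_exists`, `spO_unique` (LibCW77/D1). `xon_sp`
(a specialisation of a place is a place): `const`: `SpO v (some (algebraMap k K c)) _` and `red_const`, `spO_unique`; `add`, `mul`: if
`q j f = some a` then `u j f ≠ none` (`SpO v none p` means `p = none`), so `u j f = some X`, `Red v X a`; `Red.add`, `Red.mul`
(LibCHd.Api), `spO_unique`; `inv`: `q j f = none`: either `u j f = none`, so `u j f⁻¹ = some 0` and `q j f⁻¹ = some 0` (`red_zero`), or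
`u j f = some X` with `v.ord X < 0`; then `u j f⁻¹ = some X⁻¹` (`pl_inv`) and `Red v X⁻¹ 0` because `v.ord X⁻¹ > 0`
(see `red_pole` in D1; `Pool.Agent.LibCHd.red_iff_sub`). `pl_inv`: `f ≠ 0` because `φ 0 = some 0` (`const`); if `φ f⁻¹ = none` then
`φ f = φ (f⁻¹)⁻¹ = some 0` by `inv`, contradiction; so `φ f⁻¹ = some b` and `a * b = 1` by `mul` and `const 1`.
-/

open scoped Classical
open Polynomial

namespace Pool.Agent.LibGS7

open Pool.Agent.LibBH2
open Pool.Agent.LibCHd (VR RF Red FunF)
open Pool.Agent.LibCW77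

variable {k : Type} [Field k]

theorem pl_inv {L M : Type} [Field L] [Algebra k L] [Field M] [Algebra k M] {φ : L → Option M} (h : IsPl k φ) {f : L}
    {a : M} (hf : φ f = some a) (ha : a ≠ 0) : φ f⁻¹ = some a⁻¹ := by
  have hf0 : f ≠ 0 := by
    rintro rfl
    have h1 := h.const 0
    rw [map_zero, map_zero, hf] at h1
    exact ha (Option.some.inj h1)
  cases hb : φ f⁻¹ with
  | none =>
    exfalso
    have h1 := h.inv _ hb
    rw [inv_inv, hf] at h1
    exact ha (Option.some.inj h1)
  | some b =>
    have h1 := h.mul f f⁻¹ a b hf hb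
    have h2 := h.const 1
    rw [map_one, map_one] at h2
    rw [mul_inv_cancel₀ hf0, h2] at h1
    rw [eq_inv_of_mul_eq_one_right (Option.some.inj h1).symm]

theorem xspP_exists {m : ℕ} {L K : Type} [Field K] [Algebra k K] (v : Place k K) (u : XPt m L K) :
    ∃ q : XPt m L (RF v), XSpP v u q := by
  choose q hq using fun j f => spO_exists v (u j f)
  exact ⟨q, hq⟩

theorem xspP_unique {m : ℕ} {L K : Type} [Field K] [Algebra k K] {v : Place k K} {u : XPt m L K}
    {q q' : XPt m L (RF v)} (h : XSpP v u q) (h' : XSpP v u q') : q = q' := by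
  funext j f
  exact spO_unique (h j f) (h' j f)

private theorem X2_some {K : Type} [Field K] [Algebra k K] {v : Place k K} {o : Option K} {a : RF v}
    (h : SpO v o (some a)) : ∃ x, o = some x ∧ Red v x a := by
  rcases o with _ | x
  · have h1 : (some a : Option (RF v)) = none := h
    exact absurd h1 (by simp)
  · exact ⟨x, rfl, h⟩

theorem xon_sp {m : ℕ} {L K : Type} [Field L] [Algebra k L] [Field K] [Algebra k K] {v : Place k K}
    {u : XPt m L K} {q : XPt m L (RF v)} (hu : XOn k u) (h : XSpP v u q) : XOn k q := by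
  intro j
  have hs := h j
  have hp := hu j
  refine ⟨fun c => ?_, fun f g a b hf hg => ?_, fun f g a b hf hg => ?_, fun f hf => ?_⟩
  · have h1 := hs (algebraMap k L c)
    rw [hp.const c] at h1
    have h2 : SpO v (some (algebraMap k K c)) (some (algebraMap k (RF v) c)) :=
      Pool.Agent.LibCHd.red_const v c
    exact spO_unique h1 h2
  · have h1 := hs f
    have h2 := hs g
    rw [hf] at h1
    rw [hg] at h2
    obtain ⟨x, hx, hx'⟩ := X2_some h1
    obtain ⟨y, hy, hy'⟩ := X2_some h2
    have h3 := hs (f + g)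
    rw [hp.add f g x y hx hy] at h3
    have h4 : SpO v (some (x + y)) (some (a + b)) := hx'.add hy'
    exact spO_unique h3 h4
  · have h1 := hs f
    have h2 := hs g
    rw [hf] at h1
    rw [hg] at h2
    obtain ⟨x, hx, hx'⟩ := X2_some h1
    obtain ⟨y, hy, hy'⟩ := X2_some h2
    have h3 := hs (f * g)
    rw [hp.mul f g x y hx hy] at h3
    have h4 : SpO v (some (x * y)) (some (a * b)) := hx'.mul hy'
    exact spO_unique h3 h4
  · have h1 := hs f
    rw [hf] at h1
    have h3 := hs f⁻¹
    cases hx : u j f with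
    | none =>
      rw [hp.inv f hx] at h3
      have h4 : SpO v (some (0 : K)) (some (0 : RF v)) := Pool.Agent.LibCHd.red_zero v
      exact spO_unique h3 h4
    | some x =>
      rw [hx] at h1
      have h5 : v.ord x < 0 := h1
      have h6 : x ≠ 0 := by
        rintro rfl
        rw [v.ord_zero] at h5
        exact lt_irrefl _ h5
      rw [pl_inv hp hx h6] at h3
      have h4 : SpO v (some x⁻¹) (some (0 : RF v)) := by
        change Red v x⁻¹ 0
        rw [Pool.Agent.LibCHd.red_zero_iff]
        right
        rw [v.ord_inv]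
        omega
      exact spO_unique h3 h4

end Pool.Agent.LibGS7
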