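import Pool.Agent.LibGS7.X1
import Pool.Agent.LibGS7.X1b
import Pool.Agent.LibHL77.E0

/-!
[GS7 X3] Homomorphisms defined by their values on points of `X ^ m`. COPY of `exists_hom` of `LibCW77/D3.lean` with `xeqs_iso`,
`exists_xmin`, `xeqs_map`, `mpX_on` instead of `eqs_iso`, `exists_min`, `eqs_map`, `on_map`.
-/

open scoped Classical
open Polynomial

namespace Pool.Agent.LibGS7

open Pool.Agent.LibBH2
open Pool.Agent.LibCHd (VR RF Red FunF)
open Pool.Agent.LibCW77

variable {k : Type} [Field k]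

theorem exists_xhom {L : Type} [Field L] [Algebra k L] {m : ℕ} (d : ℕ) {G : Type} [AddCommGroup G]
    (Ψ : ∀ (M : Type) [Field M] [Algebra k M], XPt m L M → G)
    (hΨ : ∀ (M M' : Type) [Field M] [Algebra k M] [Field M'] [Algebra k M'] (σ : M →ₐ[k] M')
      (u : XPt m L M), FunF k d M' → XOn k u → xfld k u = ⊤ →
      Ψ M' (mpX σ u) = (Module.finrank σ.fieldRange M' : ℤ) • Ψ M u) :
    ∃ H : XCyc k L m →+ G, ∀ (M : Type) [Field M] [Algebra k M] (u : XPt m L M), FunF k d M → XOn k u →
      H (xcyc k u) = Ψ M u := by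
  -- the values on the basis elements
  let Q : Set (Fin m × L) × Set (MvPolynomial (Fin m × L) k) → G → Prop := fun z g =>
    ∃ (M : Type) (_ : Field M) (_ : Algebra k M) (u : XPt m L M),
      FunF k d M ∧ XOn k u ∧ xfld k u = ⊤ ∧ xeqs k u = z ∧ Ψ M u = g
  let val : Set (Fin m × L) × Set (MvPolynomial (Fin m × L) k) → G := fun z =>
    if h : ∃ g, Q z g then h.choose else 0
  have huniq : ∀ (M M' : Type) [Field M] [Algebra k M] [Field M'] [Algebra k M']
      (u : XPt m L M) (u' : XPt m L M'), FunF k d M' → XOn k u → xfld k u = ⊤ → xfld k u' = ⊤ →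
      xeqs k u = xeqs k u' → Ψ M' u' = Ψ M u := by
    intro M M' _ _ _ _ u u' hM' hon hu hu' he
    obtain ⟨ε, hε⟩ := xeqs_iso u u' hu hu' he
    have h1 := hΨ M M' (ε : M →ₐ[k] M') u hM' hon hu
    have h2 : (ε : M →ₐ[k] M').fieldRange = ⊤ := by
      rw [AlgHom.fieldRange_eq_top]
      exact ε.surjective
    have hε' : mpX (ε : M →ₐ[k] M') u = u' := hε
    rw [hε', h2, IntermediateField.finrank_top, Nat.cast_one, one_smul] at h1
    exact h1
  have hval : ∀ (M : Type) [Field M] [Algebra k M] (u : XPt m L M), FunF k d M → XOn k u →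
      xfld k u = ⊤ → val (xeqs k u) = Ψ M u := by
    intro M _ _ u hM hon hu
    have hex : ∃ g, Q (xeqs k u) g :=
      ⟨Ψ M u, M, inferInstance, inferInstance, u, hM, hon, hu, rfl, rfl⟩
    have h1 : val (xeqs k u) = hex.choose := dif_pos hex
    rw [h1]
    obtain ⟨M', _, _, u', hM', hon', hu', he, hg⟩ := hex.choose_spec
    rw [← hg]
    exact huniq M M' u u' hM' hon hu hu' he.symm
  refine ⟨Finsupp.liftAddHom fun z => zmultiplesHom G (val z), ?_⟩
  intro M _ _ u hM hon
  have e1 : (Finsupp.liftAddHom fun z => zmultiplesHom G (val z)) (xcyc k u) =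
      (Module.finrank (xfld k u) M : ℤ) • val (xeqs k u) := by
    unfold xcyc
    rw [Finsupp.liftAddHom_apply_single, zmultiplesHom_apply]
  rw [e1]
  obtain ⟨u₀, hu₀, hu⟩ := exists_xmin (k := k) u
  have hon₀ : XOn k u₀ := by
    rw [← mpX_on (xfld k u).val, hu]
    exact hon
  have h1 := hΨ (xfld k u) M (xfld k u).val u₀ hM hon₀ hu₀
  have h2 : (xfld k u).val.fieldRange = xfld k u := IntermediateField.fieldRange_val _
  rw [hu, h2] at h1
  rw [h1]
  by_cases h0 : Module.finrank (xfld k u) M = 0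
  · rw [h0, Nat.cast_zero, zero_smul, zero_smul]
  · have h3 : Module.finrank (xfld k u).val.fieldRange M ≠ 0 := by
      rw [h2]
      exact h0
    have h4 := Pool.Agent.LibHL77.funF_sub (xfld k u).val h3 hM
    have h5 : xeqs k u = xeqs k u₀ := by
      have h6 := xeqs_map (xfld k u).val u₀
      rw [hu] at h6
      exact h6
    rw [h5, hval (xfld k u) u₀ h4 hon₀ hu₀]

end Pool.Agent.LibGS7
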