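import Pool.Agent.LibGS7.X2

/-!
[GS7 X4] Descent to the Chow group of `X ^ m`. COPY of `desc` of `LibCW77/D3.lean` with `XIsDiv`, `XRatEq`, `xspP_exists`, `xspP_unique`.
-/

open scoped Classical
open Polynomial

namespace Pool.Agent.LibGS7

open Pool.Agent.LibBH2
open Pool.Agent.LibCHd (VR RF Red FunF)
open Pool.Agent.LibCW77

variable {k : Type} [Field k]

theorem xdesc {L : Type} [Field L] [Algebra k L] {m : ℕ} (d : ℕ) {G : Type} [AddCommGroup G] (H : XCyc k L m →+ G)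
    (h : ∀ (K : Type) [Field K] [Algebra k K] (u : XPt m L K) (g : K) (S : Finset (Place k K))
      (q : ∀ v : Place k K, XPt m L (RF v)), FunF k (d + 1) K → XOn k u → g ≠ 0 →
      (∀ v, XSpP v u (q v)) → (∀ v ∈ S, FunF k d (RF v)) →
      (∀ v, v ∉ S → v.ord g ≠ 0 → FunF k d (RF v) → xcyc k (q v) = 0) →
      ∑ v ∈ S, v.ord g • H (xcyc k (q v)) = 0) : XRatEq k L m d ≤ H.ker := by
  unfold XRatEq
  rw [AddSubgroup.closure_le]
  rintro e ⟨K, _, _, u, g, S, E, hK, hu, hg, hS, hn, he⟩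
  choose q hq using fun v : Place k K => xspP_exists v u
  have h1 := h K u g S q hK hu hg hq (fun v hv => (hS v hv).1)
    (fun v hv h2 h3 => hn v hv h2 h3 (q v) (hq v))
  rw [SetLike.mem_coe, AddMonoidHom.mem_ker, he, map_sum, ← h1]
  refine Finset.sum_congr rfl fun v hv => ?_
  obtain ⟨-, q', hq', hE⟩ := hS v hv
  rw [map_zsmul, hE, xspP_unique hq' (hq v)]

end Pool.Agent.LibGS7
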