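import Pool.Agent.LibGS7.X1

/-!
[GS7 X5] The map `(x, v)` on points. `pl_onC`: `φ` is a place, `h : v ^ n ∏ (x - b_i) = ∏ (x - a_i)` in `L`. `φ x = some X, φ v = some V`:
apply `mul`, `add`, `const` to both sides (helper: `φ f = some a → φ (f ^ n) = some (a ^ n)`; `φ (x - algebraMap c) = some (X - algebraMap c)`;
`Fin.prod_univ_three`). `φ x = some X, φ v = none`: `v ≠ 0` (`φ 0 = some 0`), `φ v⁻¹ = some 0`, `∏ (x - b_i) = (v⁻¹) ^ n ∏ (x - a_i)`, so
`∏ (X - b_i) = 0` (`n ≥ 1`), `Finset.prod_eq_zero_iff`. `φ x = none, φ v = some V`: `x ≠ 0`, `φ x⁻¹ = some 0`,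
`v ^ n ∏ (1 - b_i x⁻¹) = ∏ (1 - a_i x⁻¹)`, so `V ^ n = 1`. Both `none`: `∏ (1 - b_i x⁻¹) = (v⁻¹) ^ n ∏ (1 - a_i x⁻¹)`, so `1 = 0`.
`toC_fld`: `IntermediateField.adjoin_le_iff`, every coordinate of `toC x v u` is a coordinate of `u`. `toC_zero`: see `RD1_zero` in
LibCW77/RD1.lean (`IntermediateField.finrank_dvd_of_le_left`, `Finsupp.single_eq_zero`).
-/

open scoped Classical
open Polynomial

namespace Pool.Agent.LibGS7

open Pool.Agent.LibBH2
open Pool.Agent.LibCHd (VR RF Red FunF)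
open Pool.Agent.LibCW77

variable {k : Type} [Field k]

/-- the map `(x, v)` from `X` to `ℙ¹ × ℙ¹` on the points of `X ^ m` -/
def toC {L : Type} (x v : L) {m : ℕ} {M : Type} (u : XPt m L M) : LibCW77.Pnt m M := fun j => ![u j x, u j v]

private theorem X5_pow {L M : Type} [Field L] [Algebra k L] [Field M] [Algebra k M] {φ : L → Option M}
    (hφ : IsPl k φ) {f : L} {a : M} (h : φ f = some a) (n : ℕ) : φ (f ^ n) = some (a ^ n) := by
  induction n with
  | zero =>
    have h1 := hφ.const 1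
    rw [map_one, map_one] at h1
    rw [pow_zero, pow_zero, h1]
  | succ n ih =>
    rw [pow_succ, pow_succ]
    exact hφ.mul _ _ _ _ ih h

private theorem X5_sub {L M : Type} [Field L] [Algebra k L] [Field M] [Algebra k M] {φ : L → Option M}
    (hφ : IsPl k φ) {f : L} {a : M} (h : φ f = some a) (c : k) :
    φ (f - algebraMap k L c) = some (a - algebraMap k M c) := by
  have h1 := hφ.add _ _ _ _ h (hφ.const (-c))
  rw [map_neg, map_neg, ← sub_eq_add_neg, ← sub_eq_add_neg] at h1
  exact h1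

private theorem X5_prod {L M : Type} [Field L] [Algebra k L] [Field M] [Algebra k M] {φ : L → Option M}
    (hφ : IsPl k φ) {f : Fin 3 → L} {a : Fin 3 → M} (h : ∀ i, φ (f i) = some (a i)) :
    φ (∏ i, f i) = some (∏ i, a i) := by
  rw [Fin.prod_univ_three, Fin.prod_univ_three]
  exact hφ.mul _ _ _ _ (hφ.mul _ _ _ _ (h 0) (h 1)) (h 2)

private theorem X5_inf {L M : Type} [Field L] [Algebra k L] [Field M] [Algebra k M] {φ : L → Option M}
    (hφ : IsPl k φ) {g : L} (h : φ g = some 0) (c : k) : φ (1 - algebraMap k L c * g) = some 1 := by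
  have h1 := hφ.mul _ _ _ _ (hφ.const (-c)) h
  have h2 := hφ.const 1
  rw [map_one, map_one] at h2
  have h3 := hφ.add _ _ _ _ h2 h1
  rw [mul_zero, add_zero, map_neg, neg_mul, ← sub_eq_add_neg] at h3
  exact h3

theorem pl_onC {c : Dat k} (hc : c.Good) {L M : Type} [Field L] [Algebra k L] [Field M] [Algebra k M] {x v : L}
    (h : OnC (c.over L) (some x) (some v)) {φ : L → Option M} (hφ : IsPl k φ) : OnC (c.over M) (φ x) (φ v) := by
  have hn : c.n ≠ 0 := by
    have := hc.two
    omega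
  have h' : v ^ c.n * ∏ i, (x - algebraMap k L (c.b i)) = ∏ i, (x - algebraMap k L (c.a i)) := h
  have h0 : φ 0 = some 0 := by
    have h1 := hφ.const 0
    rw [map_zero, map_zero] at h1
    exact h1
  rcases hx : φ x with _ | X <;> rcases hv : φ v with _ | V
  · exfalso
    have hx0 : x ≠ 0 := by
      rintro rfl
      rw [h0] at hx
      exact absurd hx (Option.some_ne_none _)
    have hv0 : v ≠ 0 := by
      rintro rfl
      rw [h0] at hv
      exact absurd hv (Option.some_ne_none _)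
    have e : ∏ i, (1 - algebraMap k L (c.b i) * x⁻¹) =
        v⁻¹ ^ c.n * ∏ i, (1 - algebraMap k L (c.a i) * x⁻¹) := by
      have e1 : ∀ r : Fin 3 → k, ∏ i, (1 - algebraMap k L (r i) * x⁻¹) =
          (∏ i, (x - algebraMap k L (r i))) * (x⁻¹) ^ 3 := by
        intro r
        rw [Fin.prod_univ_three, Fin.prod_univ_three]
        field_simp
      rw [e1, e1, ← h']
      have e2 : v⁻¹ ^ c.n * v ^ c.n = 1 := by
        rw [← mul_pow, inv_mul_cancel₀ hv0, one_pow]
      calc (∏ i, (x - algebraMap k L (c.b i))) * x⁻¹ ^ 3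
          = 1 * ((∏ i, (x - algebraMap k L (c.b i))) * x⁻¹ ^ 3) := (one_mul _).symm
        _ = v⁻¹ ^ c.n * (v ^ c.n * (∏ i, (x - algebraMap k L (c.b i))) * x⁻¹ ^ 3) := by
          rw [← e2]; ring
    have h2 := X5_prod hφ (f := fun i => 1 - algebraMap k L (c.b i) * x⁻¹) (a := fun _ => 1)
      fun i => X5_inf hφ (hφ.inv _ hx) (c.b i)
    have h3 := X5_prod hφ (f := fun i => 1 - algebraMap k L (c.a i) * x⁻¹) (a := fun _ => 1)
      fun i => X5_inf hφ (hφ.inv _ hx) (c.a i)
    have h4 := hφ.mul _ _ _ _ (X5_pow hφ (hφ.inv _ hv) c.n) h3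
    rw [← e, h2, zero_pow hn] at h4
    simp at h4
  · have hx0 : x ≠ 0 := by
      rintro rfl
      rw [h0] at hx
      exact absurd hx (Option.some_ne_none _)
    have e : v ^ c.n * ∏ i, (1 - algebraMap k L (c.b i) * x⁻¹) =
        ∏ i, (1 - algebraMap k L (c.a i) * x⁻¹) := by
      have e1 : ∀ r : Fin 3 → k, ∏ i, (1 - algebraMap k L (r i) * x⁻¹) =
          (∏ i, (x - algebraMap k L (r i))) * (x⁻¹) ^ 3 := by
        intro r
        rw [Fin.prod_univ_three, Fin.prod_univ_three]
        field_simp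
      rw [e1, e1, ← h', mul_assoc]
    have h2 := X5_prod hφ (f := fun i => 1 - algebraMap k L (c.b i) * x⁻¹) (a := fun _ => 1)
      fun i => X5_inf hφ (hφ.inv _ hx) (c.b i)
    have h3 := X5_prod hφ (f := fun i => 1 - algebraMap k L (c.a i) * x⁻¹) (a := fun _ => 1)
      fun i => X5_inf hφ (hφ.inv _ hx) (c.a i)
    have h4 := hφ.mul _ _ _ _ (X5_pow hφ hv c.n) h2
    rw [e, h3, Finset.prod_const_one, mul_one] at h4
    exact (Option.some.inj h4).symm
  · have hv0 : v ≠ 0 := by
      rintro rfl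
      rw [h0] at hv
      exact absurd hv (Option.some_ne_none _)
    have e : ∏ i, (x - algebraMap k L (c.b i)) = v⁻¹ ^ c.n * ∏ i, (x - algebraMap k L (c.a i)) := by
      rw [← h', ← mul_assoc, ← mul_pow, inv_mul_cancel₀ hv0, one_pow, one_mul]
    have h2 := X5_prod hφ (f := fun i => x - algebraMap k L (c.b i))
      (a := fun i => X - algebraMap k M (c.b i)) fun i => X5_sub hφ hx (c.b i)
    have h3 := X5_prod hφ (f := fun i => x - algebraMap k L (c.a i))
      (a := fun i => X - algebraMap k M (c.a i)) fun i => X5_sub hφ hx (c.a i)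
    have h4 := hφ.mul _ _ _ _ (X5_pow hφ (hφ.inv _ hv) c.n) h3
    rw [← e, h2, zero_pow hn, zero_mul] at h4
    obtain ⟨i, _, hi⟩ := Finset.prod_eq_zero_iff.1 (Option.some.inj h4)
    exact ⟨i, sub_eq_zero.1 hi⟩
  · have h2 := X5_prod hφ (f := fun i => x - algebraMap k L (c.b i))
      (a := fun i => X - algebraMap k M (c.b i)) fun i => X5_sub hφ hx (c.b i)
    have h3 := X5_prod hφ (f := fun i => x - algebraMap k L (c.a i))
      (a := fun i => X - algebraMap k M (c.a i)) fun i => X5_sub hφ hx (c.a i)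
    have h4 := hφ.mul _ _ _ _ (X5_pow hφ hv c.n) h2
    rw [h', h3] at h4
    exact (Option.some.inj h4).symm

theorem toC_on {c : Dat k} (hc : c.Good) {L M : Type} [Field L] [Algebra k L] [Field M] [Algebra k M] {x v : L}
    (h : OnC (c.over L) (some x) (some v)) {m : ℕ} {u : XPt m L M} (hu : XOn k u) : On (c.over M) (toC x v u) :=
  fun j => pl_onC hc h (hu j)

theorem toC_map {L : Type} (x v : L) {m : ℕ} {M M' : Type} (σ : M → M') (u : XPt m L M) :
    mpP σ (toC x v u) = toC x v (mpX σ u) := by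
  funext j i
  fin_cases i <;> rfl

theorem toC_fld {L : Type} (x v : L) {m : ℕ} {M : Type} [Field M] [Algebra k M] (u : XPt m L M) :
    fld k (toC x v u) ≤ xfld k u := by
  unfold fld
  rw [IntermediateField.adjoin_le_iff]
  rintro _ ⟨⟨j, i⟩, rfl⟩
  fin_cases i
  · exact IntermediateField.subset_adjoin k _ ⟨(j, x), rfl⟩
  · exact IntermediateField.subset_adjoin k _ ⟨(j, v), rfl⟩

theorem toC_zero {L : Type} (x v : L) {m : ℕ} {M : Type} [Field M] [Algebra k M] (u : XPt m L M)
    (h : xcyc k u = 0) : cyc k (toC x v u) = 0 := by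
  unfold xcyc at h
  unfold cyc
  rw [Finsupp.single_eq_zero, Nat.cast_eq_zero] at h ⊢
  have h1 := IntermediateField.finrank_dvd_of_le_left (toC_fld (k := k) x v u)
  rw [h] at h1
  exact Nat.eq_zero_of_zero_dvd h1

theorem toC_sp {L : Type} (x v : L) {m : ℕ} {K : Type} [Field K] [Algebra k K] {w : Place k K} {u : XPt m L K}
    {q : XPt m L (RF w)} (h : XSpP w u q) : SpP w (toC x v u) (toC x v q) := by
  intro j i
  fin_cases i
  · exact h j x
  · exact h j v

end Pool.Agent.LibGS7
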