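import Pool.Agent.LibGS7.X3
import Pool.Agent.LibGS7.X4
import Pool.Agent.LibGS7.X5
import Pool.Agent.LibCW77.D2

/-!
[GS7 X6] The push-forward from `X ^ m` to `C ^ m`. COPY of `push_c` of `LibCW77/RD1.lean`: `exists_xhom` with
`Ψ M u = cls c d (toC x v u)` (`toC_map`, `cls_map`), `xdesc` with `div_rel` for `toC x v u` (`toC_on`, `toC_sp`, `toC_zero`, `xon_sp`).
-/

open scoped Classical
open Polynomial

namespace Pool.Agent.LibGS7

open Pool.Agent.LibBH2
open Pool.Agent.LibCHd (VR RF Red FunF)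
open Pool.Agent.LibCW77

variable {k : Type} [Field k]

theorem xpush {c : Dat k} (hc : c.Good) {L : Type} [Field L] [Algebra k L] {x v : L}
    (h : OnC (c.over L) (some x) (some v)) (m d : ℕ) :
    ∃ Φ : XCH k L m d →+ CH c m d, ∀ (M : Type) [Field M] [Algebra k M] (u : XPt m L M), FunF k d M →
      XOn k u → Φ (xcls k d u) = cls c d (toC x v u) := by
  obtain ⟨H, hH⟩ := exists_xhom (k := k) (L := L) (m := m) d (G := CH c m d)
    (fun M _ _ (u : XPt m L M) => cls c d (toC x v u))
    (by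
      intro M M' _ _ _ _ σ u _ _ _
      rw [← toC_map, cls_map])
  have hker : XRatEq k L m d ≤ H.ker := by
    apply xdesc d H
    intro K _ _ u g S q hK hu hg hq h1 h2
    have h3 : ∑ w ∈ S, w.ord g • H (xcyc k (q w)) =
        ∑ w ∈ S, w.ord g • cls c d (toC x v (q w)) := by
      refine Finset.sum_congr rfl ?_
      intro w hw
      rw [hH (RF w) (q w) (h1 w hw) (xon_sp hu (hq w))]
    rw [h3]
    exact div_rel c m d hK (toC x v u) (toC_on hc h hu) g hg S
      (fun w => toC x v (q w)) (fun w => toC_sp x v (hq w)) h1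
      (fun w hw hwg hF => toC_zero x v _ (h2 w hw hwg hF))
  refine ⟨QuotientAddGroup.lift (XRatEq k L m d) H hker, ?_⟩
  intro M _ _ u hM hu
  change QuotientAddGroup.lift (XRatEq k L m d) H hker (QuotientAddGroup.mk (xcyc k u)) = _
  rw [QuotientAddGroup.lift_mk]
  exact hH M u hM hu

end Pool.Agent.LibGS7
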