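import Pool.Agent.LibGS7.X6
import Pool.Agent.LibGS7.Defs2
import Pool.Agent.LibHL77.Z1
import Pool.Agent.LibCW77.D2

/-!
[GS7 X7] The push-forward of the modified diagonal cycle of `X` to `C`. `KK = adjoin k {x, v}`, `gx`, `gv` its generators.
`cov_gen`: see `hgL` in the proof of `gs_mul` in LibCW77/RD1.lean. `cov_fin`: `L` is finite over `adjoin k {x}` (`Pool.Agent.LibEnd77.Val8.finite_adjoin
(Z1_ff h.fun1) h.tr`, as in `res_finite` of LibHL77/Z1.lean), hence over `KK ⊇ adjoin k {x}` (`Module.Finite.of_restrictScalars_finite` or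
`IntermediateField` tower; `finrank_dvd_of_le_left`: `finrank KK L ∣ finrank (adjoin k {x}) L ≠ 0`). `gsx_push`: `Φ` from `xpush hc h.on 3 1`.
For `P, Q, R` generic or constant, `toC x v (xtri ..) = mpP KK.val (tri (pp gx gv ..) ..)` (`funext`, `fin_cases`; constants: `ctp L Q = ` image of `ctp KK Q`,
`IsScalarTower.algebraMap_apply`), so `Φ (xcls k 1 (xtri ..)) = (finrank KK L : ℤ) • EE gx gv o₁ o₂ o₃` (`cls_map`, `IntermediateField.fieldRange_val`),
`o = none` for `xgen L` and `o = some (cq hc h p)` for `xct p`. `XOn k (xtri ..)`: `xgen`: `rfl`s (`IsPl.inv`: `some f = none` is false), `xct p`: `p.2`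
(as in `mpX_on`). So `Φ (GSX D) = (finrank KK L : ℤ) • GD (EE gx gv) D.support D (cq hc h)` (`map_add`, `map_sub`, `map_zsmul`, `map_sum`, `smul_add`,
`Finset.smul_sum`, `smul_comm`), `AddMonoidHom.isOfFinAddOrder`, `isOfFinAddOrder_iff_zsmul_eq_zero`.
-/

open scoped Classical
open Polynomial

namespace Pool.Agent.LibGS7

open Pool.Agent.LibBH2
open Pool.Agent.LibCHd (VR RF Red FunF)
open Pool.Agent.LibCW77

variable {k : Type} [Field k]

/-- the function field of the image -/
noncomputable abbrev KK (k : Type) [Field k] {L : Type} [Field L] [Algebra k L] (x v : L) : IntermediateField k L :=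
  IntermediateField.adjoin k {x, v}

/-- the function `x` on the image -/
noncomputable def gx (k : Type) [Field k] {L : Type} [Field L] [Algebra k L] (x v : L) : KK k x v :=
  ⟨x, IntermediateField.subset_adjoin k _ (by simp)⟩

/-- the function `v` on the image -/
noncomputable def gv (k : Type) [Field k] {L : Type} [Field L] [Algebra k L] (x v : L) : KK k x v :=
  ⟨v, IntermediateField.subset_adjoin k _ (by simp)⟩

theorem cov_gen {c : Dat k} {L : Type} [Field L] [Algebra k L] {x v : L} (h : Cov c x v) :
    GenC c (gx k x v) (gv k x v) := by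
  refine ⟨?_, ?_, ?_⟩
  · show (gv k x v) ^ c.n * ∏ i, (gx k x v - algebraMap k (KK k x v) (c.b i)) =
      ∏ i, (gx k x v - algebraMap k (KK k x v) (c.a i))
    apply (KK k x v).val.injective
    rw [map_mul, map_pow, map_prod, map_prod]
    simp only [map_sub]
    exact h.on
  · intro h2
    exact h.tr ((isAlgebraic_algHom_iff (KK k x v).val (KK k x v).val.injective).2 h2)
  · apply IntermediateField.lift_injective (KK k x v)
    rw [IntermediateField.lift_adjoin, IntermediateField.lift_top, Set.image_pair]
    rfl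

theorem cov_fin [CharZero k] {c : Dat k} {L : Type} [Field L] [Algebra k L] {x v : L} (h : Cov c x v) :
    Module.finrank (KK k x v) L ≠ 0 := by
  haveI := Pool.Agent.LibEnd77.Val8.finite_adjoin (Pool.Agent.LibHL77.Z1_ff h.fun1) h.tr
  have h1 : IntermediateField.adjoin k {x} ≤ KK k x v :=
    IntermediateField.adjoin.mono k _ _ (by simp)
  have h2 := IntermediateField.finrank_dvd_of_le_left h1
  have h3 : 0 < Module.finrank (IntermediateField.adjoin k {x}) L := Module.finrank_pos
  intro h0
  rw [h0] at h2
  have := Nat.eq_zero_of_zero_dvd h2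
  omega

theorem onC_k {c : Dat k} {X V : Option k} (h : OnC (c.over k) X V) : OnC c X V := h

/-- the image of a point of `X` in `C` -/
noncomputable def cq {c : Dat k} (hc : c.Good) {L : Type} [Field L] [Algebra k L] {x v : L} (h : Cov c x v)
    (p : {p : L → Option k // IsPl k p}) : CPt c :=
  ⟨![p.1 x, p.1 v], onC_k (pl_onC hc h.on p.2)⟩

private theorem pl_gen {L : Type} [Field L] [Algebra k L] : IsPl k (xgen L) where
  const _ := rfl
  add f g a b hf hg := by
    cases hf
    cases hg
    rfl
  mul f g a b hf hg := by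
    cases hf
    cases hg
    rfl
  inv f hf := by cases hf

private theorem pl_ct {L : Type} [Field L] [Algebra k L] {p : L → Option k} (hp : IsPl k p) :
    IsPl k (xct p) where
  const a := by
    show (p (algebraMap k L a)).map (algebraMap k L) = _
    rw [hp.const]
    rfl
  add f g a b hf hg := by
    change (p f).map (algebraMap k L) = _ at hf
    change (p g).map (algebraMap k L) = _ at hg
    show (p (f + g)).map (algebraMap k L) = _
    rw [Option.map_eq_some_iff] at hf hg
    obtain ⟨a', ha, rfl⟩ := hf
    obtain ⟨b', hb, rfl⟩ := hg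
    rw [hp.add f g a' b' ha hb, ← map_add]
    rfl
  mul f g a b hf hg := by
    change (p f).map (algebraMap k L) = _ at hf
    change (p g).map (algebraMap k L) = _ at hg
    show (p (f * g)).map (algebraMap k L) = _
    rw [Option.map_eq_some_iff] at hf hg
    obtain ⟨a', ha, rfl⟩ := hf
    obtain ⟨b', hb, rfl⟩ := hg
    rw [hp.mul f g a' b' ha hb, ← map_mul]
    rfl
  inv f hf := by
    change (p f).map (algebraMap k L) = _ at hf
    show (p f⁻¹).map (algebraMap k L) = _
    rw [Option.map_eq_none_iff] at hf
    rw [hp.inv f hf]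
    show some (algebraMap k L 0) = _
    rw [map_zero]

private theorem tri_map {c : Dat k} {L : Type} [Field L] [Algebra k L] {x v : L} {A B C : L → Option L}
    {oA oB oC : Option (CPt c)}
    (hA : (![A x, A v] : Fin 2 → Option L) = fun i => (pp (gx k x v) (gv k x v) oA i).map (KK k x v).val)
    (hB : (![B x, B v] : Fin 2 → Option L) = fun i => (pp (gx k x v) (gv k x v) oB i).map (KK k x v).val)
    (hC : (![C x, C v] : Fin 2 → Option L) = fun i => (pp (gx k x v) (gv k x v) oC i).map (KK k x v).val) :
    toC x v (xtri A B C) = mpP (KK k x v).val (tri (pp (gx k x v) (gv k x v) oA)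
      (pp (gx k x v) (gv k x v) oB) (pp (gx k x v) (gv k x v) oC)) := by
  funext j
  fin_cases j
  · exact hA
  · exact hB
  · exact hC

private theorem tri_on {L : Type} [Field L] [Algebra k L] {A B C : L → Option L}
    (hA : IsPl k A) (hB : IsPl k B) (hC : IsPl k C) : XOn k (xtri A B C) := by
  intro j
  fin_cases j
  · exact hA
  · exact hB
  · exact hC

private theorem gen_pp {c : Dat k} {L : Type} [Field L] [Algebra k L] (x v : L) :
    (![xgen L x, xgen L v] : Fin 2 → Option L) =
      fun i => (pp (c := c) (gx k x v) (gv k x v) none i).map (KK k x v).val := by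
  funext i
  fin_cases i
  · rfl
  · rfl

private theorem ct_pp {c : Dat k} (hc : c.Good) {L : Type} [Field L] [Algebra k L] {x v : L} (h : Cov c x v)
    (p : {p : L → Option k // IsPl k p}) :
    (![xct p.1 x, xct p.1 v] : Fin 2 → Option L) =
      fun i => (pp (gx k x v) (gv k x v) (some (cq hc h p)) i).map (KK k x v).val := by
  funext i
  fin_cases i
  · show (p.1 x).map (algebraMap k L) = ((p.1 x).map (algebraMap k (KK k x v))).map (KK k x v).val
    rw [Option.map_map]
    rfl
  · show (p.1 v).map (algebraMap k L) = ((p.1 v).map (algebraMap k (KK k x v))).map (KK k x v).val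
    rw [Option.map_map]
    rfl

theorem gsx_push [CharZero k] {c : Dat k} (hc : c.Good) {L : Type} [Field L] [Algebra k L] {x v : L}
    (h : Cov c x v) (D : XDv k L) (ht : IsOfFinAddOrder (GSX D)) :
    IsOfFinAddOrder (GD (EE (c := c) (gx k x v) (gv k x v)) D.support (fun p => D p) (cq hc h)) := by
  obtain ⟨Φ, hΦ⟩ := xpush hc h.on 3 1
  set n : ℤ := (Module.finrank (KK k x v).val.fieldRange L : ℤ) with hn
  have hn0 : n ≠ 0 := by
    rw [hn, IntermediateField.fieldRange_val]
    exact_mod_cast cov_fin h
  have key : ∀ (A B C : L → Option L) (oA oB oC : Option (CPt c)), IsPl k A → IsPl k B → IsPl k C →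
      (![A x, A v] : Fin 2 → Option L) = (fun i => (pp (gx k x v) (gv k x v) oA i).map (KK k x v).val) →
      (![B x, B v] : Fin 2 → Option L) = (fun i => (pp (gx k x v) (gv k x v) oB i).map (KK k x v).val) →
      (![C x, C v] : Fin 2 → Option L) = (fun i => (pp (gx k x v) (gv k x v) oC i).map (KK k x v).val) →
      Φ (xcls k 1 (xtri A B C)) = n • EE (gx k x v) (gv k x v) oA oB oC := by
    intro A B C oA oB oC hA hB hC hA' hB' hC'
    rw [hΦ L _ h.fun1 (tri_on hA hB hC), tri_map hA' hB' hC', cls_map]
    rfl
  have g := pl_gen (k := k) (L := L)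
  have g' := gen_pp (c := c) (k := k) x v
  have h1 := Φ.isOfFinAddOrder ht
  have h2 : Φ (GSX D) = n • GD (EE (c := c) (gx k x v) (gv k x v)) D.support (fun p => D p) (cq hc h) := by
    unfold GSX GD
    rw [map_add, map_sub, map_zsmul, map_zsmul, map_sum, map_sum, zsmul_add, zsmul_sub]
    congr 1
    · congr 1
      · rw [key _ _ _ none none none g g g g' g' g', zsmul_comm]
        rfl
      · rw [zsmul_comm _ _ n]
        have e1 : xdeg D = ∑ i ∈ D.support, D i := rfl
        rw [e1]
        refine congrArg (fun z : CH c 3 1 => (∑ i ∈ D.support, D i) • z) ?_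
        rw [← Finset.sum_zsmul]
        apply Finset.sum_congr rfl
        intro p _
        rw [map_zsmul, map_add, map_add,
          key _ _ _ none none (some (cq hc h p)) g g (pl_ct p.2) g' g' (ct_pp hc h p),
          key _ _ _ none (some (cq hc h p)) none g (pl_ct p.2) g g' (ct_pp hc h p) g',
          key _ _ _ (some (cq hc h p)) none none (pl_ct p.2) g g (ct_pp hc h p) g' g', zsmul_comm _ _ n,
          zsmul_add _ _ n, zsmul_add _ _ n]
    · rw [← Finset.sum_zsmul]
      apply Finset.sum_congr rfl
      intro p _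
      rw [map_sum, ← Finset.sum_zsmul]
      apply Finset.sum_congr rfl
      intro q _
      rw [map_zsmul, map_add, map_add,
        key _ _ _ none (some (cq hc h p)) (some (cq hc h q)) g (pl_ct p.2) (pl_ct q.2) g' (ct_pp hc h p)
          (ct_pp hc h q),
        key _ _ _ (some (cq hc h p)) none (some (cq hc h q)) (pl_ct p.2) g (pl_ct q.2) (ct_pp hc h p) g'
          (ct_pp hc h q),
        key _ _ _ (some (cq hc h p)) (some (cq hc h q)) none (pl_ct p.2) (pl_ct q.2) g (ct_pp hc h p)
          (ct_pp hc h q) g', zsmul_comm _ _ n, zsmul_add _ _ n, zsmul_add _ _ n]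
  rw [h2] at h1
  rw [isOfFinAddOrder_iff_zsmul_eq_zero] at h1 ⊢
  obtain ⟨a, ha, h6⟩ := h1
  refine ⟨a * n, mul_ne_zero ha hn0, ?_⟩
  rw [mul_smul]
  exact h6

end Pool.Agent.LibGS7
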